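import Pool.Agent.P.MP_7d68c1_gt.Defs

-- part Pool.Agent.P.MP_7d68c1_gt.Basic
section

open scoped LinearAlgebra.Projectivization MatrixGroups Topology
open Matrix Filter Set

namespace Pool.Agent.P.MP_7d68c1_gt

abbrev V4 := Fin 4 → ℝ
abbrev P4 := ℙ ℝ (Fin 4 → ℝ)

open Classical in
/-- the projection, extended by a junk value at 0 -/
noncomputable def pr (v : V4) : P4 :=
  if h : v ≠ 0 then Projectivization.mk ℝ v h else Classical.arbitrary _

theorem pr_eq {v : V4} (h : v ≠ 0) : pr v = Projectivization.mk ℝ v h := by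
  simp [pr, h]

theorem pr_rep (x : P4) : pr x.rep = x := by
  rw [pr_eq x.rep_nonzero, Projectivization.mk_rep]

theorem pr_eq_iff {v w : V4} (hv : v ≠ 0) (hw : w ≠ 0) : pr v = pr w ↔ ∃ a : ℝ, a • w = v := by
  rw [pr_eq hv, pr_eq hw, Projectivization.mk_eq_mk_iff']

theorem pr_smul {v : V4} (hv : v ≠ 0) {t : ℝ} (ht : t ≠ 0) : pr (t • v) = pr v :=
  (pr_eq_iff (smul_ne_zero ht hv) hv).2 ⟨t, rfl⟩

theorem exists_rep_pr {v : V4} (hv : v ≠ 0) : ∃ t : ℝ, t ≠ 0 ∧ (pr v).rep = t • v := by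
  obtain ⟨a, ha⟩ := (pr_eq_iff (pr v).rep_nonzero hv).1 (pr_rep _)
  refine ⟨a, ?_, ha.symm⟩
  rintro rfl
  exact (pr v).rep_nonzero (by rw [← ha, zero_smul])

theorem continuous_mk' : Continuous (Projectivization.mk' ℝ : {v : V4 // v ≠ 0} → P4) :=
  continuous_coinduced_rng

theorem isOpen_P {S : Set P4} :
    IsOpen S ↔ IsOpen ((Projectivization.mk' ℝ : {v : V4 // v ≠ 0} → P4) ⁻¹' S) :=
  isOpen_coinduced

theorem continuousOn_pr : ContinuousOn pr {v | v ≠ 0} := by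
  rw [continuousOn_iff_continuous_domRestrict]
  have : ({v : V4 | v ≠ 0}.domRestrict pr) = (Projectivization.mk' ℝ : {v : V4 // v ≠ 0} → P4) := by
    funext v
    exact pr_eq v.2
  rw [this]
  exact continuous_mk'

theorem continuousAt_pr {v : V4} (hv : v ≠ 0) : ContinuousAt pr v :=
  continuousOn_pr.continuousAt (isOpen_ne.mem_nhds hv)

/-- a scale invariant open condition defines an open set -/
theorem isOpen_rep {A : Set V4} (hA : IsOpen A) (hs : ∀ v ∈ A, ∀ t : ℝ, t ≠ 0 → t • v ∈ A) :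
    IsOpen {x : P4 | x.rep ∈ A} := by
  rw [isOpen_P]
  have : (Projectivization.mk' ℝ : {v : V4 // v ≠ 0} → P4) ⁻¹' {x : P4 | x.rep ∈ A} =
      Subtype.val ⁻¹' A := by
    ext ⟨v, hv⟩
    obtain ⟨t, ht, h⟩ := exists_rep_pr hv
    simp only [mem_preimage, mem_ofPred_eq, Projectivization.mk'_eq_mk, ← pr_eq hv, h]
    constructor
    · intro h1
      have := hs _ h1 t⁻¹ (inv_ne_zero ht)
      rwa [smul_smul, inv_mul_cancel₀ ht, one_smul] at this
    · intro h1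
      exact hs _ h1 t ht
  rw [this]
  exact hA.preimage continuous_subtype_val

theorem isClosed_rep {A : Set V4} (hA : IsClosed A) (hs : ∀ v ∈ A, ∀ t : ℝ, t ≠ 0 → t • v ∈ A) :
    IsClosed {x : P4 | x.rep ∈ A} := by
  rw [← isOpen_compl_iff]
  have := isOpen_rep hA.isOpen_compl (fun v hv t ht h => hv (by
    have := hs _ h t⁻¹ (inv_ne_zero ht)
    rwa [smul_smul, inv_mul_cancel₀ ht, one_smul] at this))
  exact this

theorem rep_pr_mem {A : Set V4} (hs : ∀ v ∈ A, ∀ t : ℝ, t ≠ 0 → t • v ∈ A) {v : V4} (hv : v ≠ 0) :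
    (pr v).rep ∈ A ↔ v ∈ A := by
  obtain ⟨t, ht, h⟩ := exists_rep_pr hv
  rw [h]
  constructor
  · intro h1
    have := hs _ h1 t⁻¹ (inv_ne_zero ht)
    rwa [smul_smul, inv_mul_cancel₀ ht, one_smul] at this
  · intro h1
    exact hs _ h1 t ht

theorem isOpen_image_pr {W : Set V4} (hW : IsOpen W) (h0 : ∀ v ∈ W, v ≠ 0) : IsOpen (pr '' W) := by
  have h1 : IsOpen (⋃ t : ℝ, {v : V4 | t • v ∈ W}) :=
    isOpen_iUnion fun t => hW.preimage (continuous_const_smul t)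
  have h2 := isOpen_rep h1 (by
    intro v hv t ht
    simp only [mem_iUnion, mem_ofPred_eq] at hv ⊢
    obtain ⟨u, hu⟩ := hv
    exact ⟨u * t⁻¹, by rwa [smul_smul, mul_assoc, inv_mul_cancel₀ ht, mul_one]⟩)
  convert h2 using 1
  ext x
  simp only [mem_image, mem_iUnion, mem_ofPred_eq]
  constructor
  · rintro ⟨v, hv, rfl⟩
    obtain ⟨t, ht, h⟩ := exists_rep_pr (h0 v hv)
    exact ⟨t⁻¹, by rwa [h, smul_smul, inv_mul_cancel₀ ht, one_smul]⟩
  · rintro ⟨t, ht⟩
    refine ⟨_, ht, ?_⟩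
    have : t ≠ 0 := by
      rintro rfl
      exact h0 _ ht (zero_smul _ _)
    rw [pr_smul x.rep_nonzero this, pr_rep]

/-- a scale invariant function continuous on an open scale invariant set -/
theorem continuousOn_rep {A : Set V4} (hA : IsOpen A) (hs : ∀ v ∈ A, ∀ t : ℝ, t ≠ 0 → t • v ∈ A)
    {f : V4 → ℝ} (hf : ContinuousOn f A) (hfs : ∀ v ∈ A, ∀ t : ℝ, t ≠ 0 → f (t • v) = f v) :
    ContinuousOn (fun x : P4 => f x.rep) {x : P4 | x.rep ∈ A} := by
  rw [continuousOn_open_iff (isOpen_rep hA hs)]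
  intro U hU
  have h1 : IsOpen (A ∩ f ⁻¹' U) := (continuousOn_open_iff hA).1 hf U hU
  exact isOpen_rep h1 (fun v hv t ht => ⟨hs v hv.1 t ht, by
    simp only [mem_preimage]
    rw [hfs v hv.1 t ht]
    exact hv.2⟩)

instance : T2Space P4 := by
  let F : P4 → (Fin 4 → Fin 4 → ℝ) := fun x i j => x.rep i * x.rep j / (∑ k, x.rep k * x.rep k)
  have hpos : ∀ v : V4, v ≠ 0 → 0 < ∑ k, v k * v k := by
    intro v hv
    obtain ⟨i, hi⟩ := Function.ne_iff.1 hv
    exact Finset.sum_pos' (fun k _ => mul_self_nonneg _) ⟨i, Finset.mem_univ _, mul_self_pos.2 hi⟩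
  have hc : Continuous F := by
    refine continuous_pi fun i => continuous_pi fun j => ?_
    have := continuousOn_rep (A := {v | v ≠ 0}) isOpen_ne (fun v hv t ht => smul_ne_zero ht hv)
      (f := fun v => v i * v j / (∑ k, v k * v k))
      (ContinuousOn.div (by fun_prop) (by fun_prop) (fun v hv => (hpos v hv).ne'))
      (fun v hv t ht => by
        have h1 := (hpos v hv).ne'
        have h2 : ∑ k, (t • v) k * (t • v) k = t * t * ∑ k, v k * v k := by
          rw [Finset.mul_sum]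
          exact Finset.sum_congr rfl fun k _ => by simp only [Pi.smul_apply, smul_eq_mul]; ring
        show (t • v) i * (t • v) j / (∑ k, (t • v) k * (t • v) k) = v i * v j / (∑ k, v k * v k)
        rw [h2]
        generalize ∑ k, v k * v k = N at h1
        simp only [Pi.smul_apply, smul_eq_mul]
        field_simp)
    have h3 : {x : P4 | x.rep ∈ {v : V4 | v ≠ 0}} = univ :=
      eq_univ_of_forall fun x => x.rep_nonzero
    rw [h3] at this
    exact continuousOn_univ.1 this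
  refine T2Space.of_injective_continuous (f := F) ?_ hc
  intro x y hxy
  obtain ⟨i, hi⟩ := Function.ne_iff.1 x.rep_nonzero
  have hx := hpos _ x.rep_nonzero
  have hy := hpos _ y.rep_nonzero
  have h : ∀ j, x.rep i * x.rep j / (∑ k, x.rep k * x.rep k) =
      y.rep i * y.rep j / (∑ k, y.rep k * y.rep k) := fun j => congrFun (congrFun hxy i) j
  rw [← pr_rep x, ← pr_rep y, pr_eq_iff x.rep_nonzero y.rep_nonzero]
  refine ⟨(∑ k, x.rep k * x.rep k) * y.rep i / (x.rep i * ∑ k, y.rep k * y.rep k), ?_⟩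
  funext j
  have h1 := h j
  have hi' : x.rep i ≠ 0 := hi
  simp only [Pi.smul_apply, smul_eq_mul]
  generalize ∑ k, x.rep k * x.rep k = N at h1 hx
  generalize ∑ k, y.rep k * y.rep k = M at h1 hy
  field_simp at h1 ⊢
  linarith

theorem mulVec_ne_zero (g : GL (Fin 4) ℝ) {v : V4} (hv : v ≠ 0) :
    (g : Matrix (Fin 4) (Fin 4) ℝ) *ᵥ v ≠ 0 :=
  (smul_ne_zero_iff_ne g).2 hv

theorem mk_smul_pr (g : GL (Fin 4) ℝ) {v : V4} (hv : v ≠ 0) :
    (ProjGenLinGroup.mk g : PGL(4, ℝ)) • pr v = pr ((g : Matrix (Fin 4) (Fin 4) ℝ) *ᵥ v) := by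
  rw [pr_eq hv, pr_eq (mulVec_ne_zero g hv)]
  rfl

theorem continuous_orbit {v : V4} (hv : v ≠ 0) : Continuous fun h : PGL(4, ℝ) => h • pr v := by
  rw [continuous_coinduced_dom]
  have : ((fun h : PGL(4, ℝ) => h • pr v) ∘ ProjGenLinGroup.mk) =
      fun g : GL (Fin 4) ℝ => pr ((g : Matrix (Fin 4) (Fin 4) ℝ) *ᵥ v) := by
    funext g
    exact mk_smul_pr g hv
  rw [this]
  refine continuousOn_pr.comp_continuous ?_ (fun g => mulVec_ne_zero g hv)
  exact Continuous.matrix_mulVec Units.continuous_val continuous_const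

instance : IsTopologicalGroup PGL(4, ℝ) :=
  QuotientGroup.instIsTopologicalGroup (Subgroup.center (GL (Fin 4) ℝ))

theorem isOpenMap_mk : IsOpenMap (ProjGenLinGroup.mk : GL (Fin 4) ℝ → PGL(4, ℝ)) :=
  QuotientGroup.isOpenMap_coe (N := Subgroup.center (GL (Fin 4) ℝ))

theorem mem_chart {φ : V4 →ₗ[ℝ] ℝ} {S : Set P4} {v : V4} : v ∈ chart φ S ↔ φ v = 1 ∧ pr v ∈ S := by
  unfold chart
  simp only [mem_ofPred_eq]
  constructor
  · rintro ⟨h1, hv, h2⟩
    exact ⟨h1, by rwa [pr_eq hv]⟩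
  · rintro ⟨h1, h2⟩
    have hv : v ≠ 0 := by
      rintro rfl
      simp at h1
    exact ⟨h1, hv, by rwa [pr_eq hv] at h2⟩

theorem chart_image {φ : V4 →ₗ[ℝ] ℝ} {W : Set V4} (hφ : ∀ v ∈ W, 0 < φ v)
    (hs : ∀ v ∈ W, ∀ t : ℝ, 0 < t → t • v ∈ W) : chart φ (pr '' W) = {v | φ v = 1} ∩ W := by
  ext v
  rw [mem_chart]
  simp only [mem_image, mem_inter_iff, mem_ofPred_eq]
  constructor
  · rintro ⟨h1, w, hw, h2⟩
    refine ⟨h1, ?_⟩
    have hv : v ≠ 0 := by
      rintro rfl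
      simp at h1
    have hw0 : w ≠ 0 := by
      rintro rfl
      simpa using hφ _ hw
    obtain ⟨a, ha⟩ := (pr_eq_iff hv hw0).1 h2.symm
    have h3 : a * φ w = 1 := by rw [← h1, ← ha, map_smul, smul_eq_mul]
    have h4 : 0 < a := by
      have := hφ w hw
      by_contra h
      push Not at h
      nlinarith
    rw [← ha]
    exact hs w hw a h4
  · rintro ⟨h1, h2⟩
    exact ⟨h1, v, h2, rfl⟩

theorem convex_chart_image {φ : V4 →ₗ[ℝ] ℝ} {W : Set V4} (hφ : ∀ v ∈ W, 0 < φ v)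
    (hs : ∀ v ∈ W, ∀ t : ℝ, 0 < t → t • v ∈ W) (hc : Convex ℝ W) :
    Convex ℝ (chart φ (pr '' W)) := by
  rw [chart_image hφ hs]
  exact (convex_hyperplane φ.isLinear 1).inter hc

theorem compactQuotient_of {Γ : Subgroup PGL(4, ℝ)} {C K : Set P4} (hK : IsCompact K) (hKC : K ⊆ C)
    (h : ∀ x ∈ C, ∃ g ∈ Γ, g • x ∈ K) : CompactQuotient Γ C := by
  constructor
  have h1 : IsCompact ((Subtype.val : C → P4) ⁻¹' K) := by
    rw [Topology.IsEmbedding.subtypeVal.isCompact_iff, Subtype.image_preimage_coe,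
      inter_eq_right.2 hKC]
    exact hK
  have h2 := h1.image (continuous_quotient_mk' (s :=
    (MulAction.orbitRel Γ P4).comap (Subtype.val : C → _)))
  convert h2 using 1
  symm
  apply eq_univ_of_forall
  intro q
  induction q using Quotient.ind with
  | _ x =>
    obtain ⟨g, hg, hgx⟩ := h x.1 x.2
    refine ⟨⟨g • x.1, hKC hgx⟩, hgx, ?_⟩
    apply Quotient.sound
    exact ⟨⟨g, hg⟩, rfl⟩

theorem exists_max_of_compactQuotient {Γ : Subgroup PGL(4, ℝ)} {C : Set P4}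
    (h : CompactQuotient Γ C) (hne : C.Nonempty) {f : P4 → ℝ} (hf : ContinuousOn f C)
    (hinv : ∀ g ∈ Γ, ∀ x ∈ C, f (g • x) = f x) : ∃ x ∈ C, ∀ y ∈ C, f y ≤ f x := by
  unfold CompactQuotient at h
  let F : Quotient ((MulAction.orbitRel Γ P4).comap (Subtype.val : C → _)) → ℝ :=
    Quotient.lift (fun x : C => f x.1) (by
      rintro x y ⟨⟨g, hg⟩, hxy⟩
      have : g • y.1 = x.1 := hxy
      show f x.1 = f y.1
      rw [← this, hinv g hg _ y.2])
  have hF : Continuous F := (continuousOn_iff_continuous_domRestrict.1 hf).quotient_lift _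
  obtain ⟨x0, hx0⟩ := hne
  obtain ⟨q, -, hq⟩ := isCompact_univ.exists_isMaxOn ⟨Quotient.mk _ ⟨x0, hx0⟩, mem_univ _⟩
    hF.continuousOn
  induction q using Quotient.ind with
  | _ x =>
    refine ⟨x.1, x.2, fun y hy => ?_⟩
    have h1 : F (Quotient.mk _ ⟨y, hy⟩) ≤ F (Quotient.mk _ x) := hq (mem_univ _)
    exact h1

end Pool.Agent.P.MP_7d68c1_gt
end

-- part Pool.Agent.P.MP_7d68c1_gt.Model
section

open scoped LinearAlgebra.Projectivization MatrixGroups Topology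
open Matrix Filter Set DihedralGroup

namespace Pool.Agent.P.MP_7d68c1_gt

noncomputable def dg (a c : ℝ) (i : ℤ) (y : V4) : V4 :=
  ![a ^ i * y 0, a ^ (-i) * y 1, (-c) ^ i * y 2, (-c) ^ (-i) * y 3]

def sw (y : V4) : V4 := ![y 1, y 0, y 3, y 2]

@[simp] theorem dg0 (a c : ℝ) (i : ℤ) (y : V4) : dg a c i y 0 = a ^ i * y 0 := rfl
@[simp] theorem dg1 (a c : ℝ) (i : ℤ) (y : V4) : dg a c i y 1 = a ^ (-i) * y 1 := rfl
@[simp] theorem dg2 (a c : ℝ) (i : ℤ) (y : V4) : dg a c i y 2 = (-c) ^ i * y 2 := rfl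
@[simp] theorem dg3 (a c : ℝ) (i : ℤ) (y : V4) : dg a c i y 3 = (-c) ^ (-i) * y 3 := rfl
@[simp] theorem sw0 (y : V4) : sw y 0 = y 1 := rfl
@[simp] theorem sw1 (y : V4) : sw y 1 = y 0 := rfl
@[simp] theorem sw2 (y : V4) : sw y 2 = y 3 := rfl
@[simp] theorem sw3 (y : V4) : sw y 3 = y 2 := rfl

theorem ext4 {y z : V4} (h0 : y 0 = z 0) (h1 : y 1 = z 1) (h2 : y 2 = z 2) (h3 : y 3 = z 3) :
    y = z := by
  funext k
  fin_cases k
  exacts [h0, h1, h2, h3]

theorem dg_dg {a c : ℝ} (ha : a ≠ 0) (hc : c ≠ 0) (i j : ℤ) (y : V4) :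
    dg a c i (dg a c j y) = dg a c (i + j) y := by
  have hc' : -c ≠ 0 := neg_ne_zero.2 hc
  apply ext4 <;> simp only [dg0, dg1, dg2, dg3, neg_add, zpow_add₀ ha, zpow_add₀ hc', mul_assoc]

theorem dg_zero (a c : ℝ) (y : V4) : dg a c 0 y = y := by
  apply ext4 <;> simp

theorem sw_sw (y : V4) : sw (sw y) = y := by
  apply ext4 <;> simp

theorem continuous_dg (a c : ℝ) (i : ℤ) : Continuous (dg a c i) := by
  refine continuous_pi fun k => ?_
  fin_cases k <;> simp <;> fun_prop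

theorem continuous_sw : Continuous sw := by
  refine continuous_pi fun k => ?_
  fin_cases k <;> simp <;> fun_prop

theorem dg_ne_zero {a c : ℝ} (ha : a ≠ 0) (hc : c ≠ 0) (i : ℤ) {y : V4} (hy : y ≠ 0) :
    dg a c i y ≠ 0 := by
  intro h
  apply hy
  have := dg_dg ha hc (-i) i y
  rw [h, neg_add_cancel, dg_zero] at this
  rw [← this]
  apply ext4 <;> simp

theorem sw_ne_zero {y : V4} (hy : y ≠ 0) : sw y ≠ 0 := by
  intro h
  apply hy
  rw [← sw_sw y, h]
  apply ext4 <;> simp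

/-- the action of the infinite dihedral group in coordinates -/
noncomputable def act (a c : ℝ) : DihedralGroup 0 → V4 → V4
  | r i, y => dg a c i y
  | sr i, y => sw (dg a c i y)

def rr (i : ℤ) : DihedralGroup 0 := r i
def ss (i : ℤ) : DihedralGroup 0 := sr i

theorem rr_mul (i j : ℤ) : rr i * rr j = rr (i + j) := rfl
theorem rr_zero : rr 0 = 1 := rfl
theorem ss_mul_rr (i j : ℤ) : ss i * rr j = ss (i + j) := rfl
theorem ss_mul_ss (i j : ℤ) : ss i * ss j = rr (j - i) := rfl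
theorem rr_mul_ss (i j : ℤ) : rr i * ss j = ss (j - i) := rfl
theorem act_rr (a c : ℝ) (i : ℤ) (y : V4) : act a c (rr i) y = dg a c i y := rfl
theorem act_ss (a c : ℝ) (i : ℤ) (y : V4) : act a c (ss i) y = sw (dg a c i y) := rfl

theorem dcases (d : DihedralGroup 0) : ∃ i : ℤ, d = rr i ∨ d = ss i := by
  rcases d with i | i
  · exact ⟨i, Or.inl rfl⟩
  · exact ⟨i, Or.inr rfl⟩

/-- ψ acts in the standard way in the coordinates L -/
structure Std (L : V4 ≃ₗ[ℝ] V4) (a c : ℝ) (ψ : DihedralGroup 0 →* PGL(4, ℝ)) : Prop where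
  ha : 1 < a
  hc : 1 ≤ c
  hca : c ≤ a
  hact : ∀ d y, y ≠ 0 → ψ d • pr (L y) = pr (L (act a c d y))

theorem std_of {L : V4 ≃ₗ[ℝ] V4} {a c : ℝ} {ψ : DihedralGroup 0 →* PGL(4, ℝ)}
    (ha : 1 < a) (hc : 1 ≤ c) (hca : c ≤ a)
    (hr : ∀ y, y ≠ 0 → ψ (rr 1) • pr (L y) = pr (L (dg a c 1 y)))
    (hs : ∀ y, y ≠ 0 → ψ (ss 0) • pr (L y) = pr (L (sw y))) : Std L a c ψ := by
  have ha0 : a ≠ 0 := by positivity
  have hc0 : c ≠ 0 := by positivity
  have h1 : ∀ i : ℤ, ∀ y, y ≠ 0 → ψ (rr i) • pr (L y) = pr (L (dg a c i y)) := by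
    intro i
    induction i using Int.induction_on with
    | zero =>
      intro y hy
      rw [dg_zero, rr_zero, map_one, one_smul]
    | succ n ih =>
      intro y hy
      rw [← rr_mul, map_mul, mul_smul, hr y hy, ih _ (dg_ne_zero ha0 hc0 _ hy), dg_dg ha0 hc0]
    | pred n ih =>
      intro y hy
      have e : rr (-(n : ℤ)) = rr 1 * rr (-(n : ℤ) - 1) := by
        rw [rr_mul]
        congr 1
        ring
      have h2 := ih y hy
      rw [e, map_mul, mul_smul] at h2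
      have h3 := hr _ (dg_ne_zero ha0 hc0 (-(n : ℤ) - 1) hy)
      rw [dg_dg ha0 hc0, show (1 : ℤ) + (-(n : ℤ) - 1) = -(n : ℤ) by ring, ← h2] at h3
      exact (MulAction.injective _ h3).symm
  refine ⟨ha, hc, hca, ?_⟩
  intro d y hy
  obtain ⟨i, rfl | rfl⟩ := dcases d
  · exact h1 i y hy
  · have e : ss i = ss 0 * rr i := by rw [ss_mul_rr, zero_add]
    rw [act_ss, e, map_mul, mul_smul, h1 i y hy, hs _ (dg_ne_zero ha0 hc0 _ hy)]

/-- the invariant convex cone, before taking the interior -/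
def W0 (a c : ℝ) : Set V4 :=
  {y | 0 < y 0 ∧ 0 < y 1 ∧ ∀ i : ℤ, |y 2| * c ^ i < a ^ i * y 0 + a ^ (-i) * y 1 ∧
    |y 3| * c ^ (-i) < a ^ i * y 0 + a ^ (-i) * y 1}

theorem convex_W0 {a c : ℝ} (hc : 0 < c) : Convex ℝ (W0 a c) := by
  have key : ∀ (s t u v A B k : ℝ), 0 ≤ s → 0 ≤ t → s + t = 1 → 0 < k → |u| * k < A → |v| * k < B →
      |s * u + t * v| * k < s * A + t * B := by
    intro s t u v A B k hs ht hst hk h1 h2
    have h3 : |s * u + t * v| ≤ s * |u| + t * |v| := by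
      refine (abs_add_le _ _).trans ?_
      rw [abs_mul, abs_mul, abs_of_nonneg hs, abs_of_nonneg ht]
    have h4 : s * (|u| * k) + t * (|v| * k) < s * A + t * B := by
      rcases hs.eq_or_lt with rfl | hs'
      · have : t = 1 := by linarith
        subst this
        simpa using h2
      · nlinarith [mul_le_mul_of_nonneg_left h2.le ht, mul_lt_mul_of_pos_left h1 hs']
    nlinarith [mul_le_mul_of_nonneg_right h3 hk.le]
  have pos : ∀ (s t u v : ℝ), 0 ≤ s → 0 ≤ t → s + t = 1 → 0 < u → 0 < v → 0 < s * u + t * v := by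
    intro s t u v hs ht hst hu hv
    rcases hs.eq_or_lt with rfl | hs'
    · have : t = 1 := by linarith
      subst this
      simpa using hv
    · nlinarith [mul_nonneg ht hv.le, mul_pos hs' hu]
  rintro y ⟨y0, y1, hy⟩ z ⟨z0, z1, hz⟩ s t hs ht hst
  refine ⟨pos s t _ _ hs ht hst y0 z0, pos s t _ _ hs ht hst y1 z1, fun i => ⟨?_, ?_⟩⟩
  · have := key s t _ _ _ _ _ hs ht hst (zpow_pos hc i) (hy i).1 (hz i).1
    simp only [Pi.add_apply, Pi.smul_apply, smul_eq_mul]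
    linarith
  · have := key s t _ _ _ _ _ hs ht hst (zpow_pos hc (-i)) (hy i).2 (hz i).2
    simp only [Pi.add_apply, Pi.smul_apply, smul_eq_mul]
    linarith

theorem mapsTo_interior_of {W : Set V4} {f g : V4 → V4} (hf : MapsTo f W W) (hg : Continuous g)
    (h1 : ∀ y, g (f y) = y) (h2 : ∀ y, f (g y) = y) : MapsTo f (interior W) (interior W) := by
  intro y hy
  rw [mem_interior]
  refine ⟨g ⁻¹' interior W, fun z hz => ?_, isOpen_interior.preimage hg, ?_⟩
  · rw [← h2 z]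
    exact hf (interior_subset hz)
  · show g (f y) ∈ interior W
    rwa [h1]

theorem smul_W0 {a c t : ℝ} (ht : 0 < t) : MapsTo (fun y : V4 => t • y) (W0 a c) (W0 a c) := by
  rintro y ⟨y0, y1, hy⟩
  refine ⟨mul_pos ht y0, mul_pos ht y1, fun i => ⟨?_, ?_⟩⟩
  · have := mul_lt_mul_of_pos_left (hy i).1 ht
    simp only [Pi.smul_apply, smul_eq_mul, abs_mul, abs_of_pos ht]
    linarith
  · have := mul_lt_mul_of_pos_left (hy i).2 ht
    simp only [Pi.smul_apply, smul_eq_mul, abs_mul, abs_of_pos ht]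
    linarith

theorem dg_W0 {a c : ℝ} (ha : 0 < a) (hc : 0 < c) (j : ℤ) : MapsTo (dg a c j) (W0 a c) (W0 a c) := by
  rintro y ⟨y0, y1, hy⟩
  refine ⟨mul_pos (zpow_pos ha _) y0, mul_pos (zpow_pos ha _) y1, fun i => ⟨?_, ?_⟩⟩
  · have := (hy (i + j)).1
    simp only [neg_add, zpow_add₀ ha.ne', zpow_add₀ hc.ne'] at this
    simp only [dg0, dg1, dg2, abs_mul, abs_zpow, abs_neg, abs_of_pos hc]
    linarith
  · have := (hy (i + j)).2
    simp only [neg_add, zpow_add₀ ha.ne', zpow_add₀ hc.ne'] at this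
    simp only [dg0, dg1, dg3, abs_mul, abs_zpow, abs_neg, abs_of_pos hc]
    linarith

theorem sw_W0 {a c : ℝ} : MapsTo sw (W0 a c) (W0 a c) := by
  rintro y ⟨y0, y1, hy⟩
  refine ⟨y1, y0, fun i => ⟨?_, ?_⟩⟩
  · have := (hy (-i)).2
    simp only [neg_neg] at this
    simp only [sw0, sw1, sw2]
    linarith
  · have := (hy (-i)).1
    simp only [neg_neg] at this
    simp only [sw0, sw1, sw3]
    linarith

theorem smul_int {a c t : ℝ} (ht : 0 < t) {y : V4} (hy : y ∈ interior (W0 a c)) :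
    t • y ∈ interior (W0 a c) :=
  mapsTo_interior_of (g := fun y => t⁻¹ • y) (smul_W0 ht) (continuous_const_smul _)
    (fun y => by rw [smul_smul, inv_mul_cancel₀ ht.ne', one_smul])
    (fun y => by rw [smul_smul, mul_inv_cancel₀ ht.ne', one_smul]) hy

theorem act_int {a c : ℝ} (ha : 0 < a) (hc : 0 < c) (d : DihedralGroup 0) {y : V4}
    (hy : y ∈ interior (W0 a c)) : act a c d y ∈ interior (W0 a c) := by
  have h1 : ∀ j : ℤ, dg a c j y ∈ interior (W0 a c) := fun j =>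
    mapsTo_interior_of (g := dg a c (-j)) (dg_W0 ha hc j) (continuous_dg _ _ _)
      (fun y => by rw [dg_dg ha.ne' hc.ne', neg_add_cancel, dg_zero])
      (fun y => by rw [dg_dg ha.ne' hc.ne', add_neg_cancel, dg_zero]) hy
  obtain ⟨i, rfl | rfl⟩ := dcases d
  · exact h1 i
  · exact mapsTo_interior_of (g := sw) sw_W0 continuous_sw sw_sw sw_sw (h1 i)

/-- the open segment, as a cone -/
def Seg : Set V4 := {y | 0 < y 0 ∧ 0 < y 1 ∧ y 2 = 0 ∧ y 3 = 0}

theorem seg_subset {a c : ℝ} (hc : 1 ≤ c) (hca : c ≤ a) : Seg ⊆ interior (W0 a c) := by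
  have hO : IsOpen {y : V4 | |y 2| < y 0 ∧ |y 2| < y 1 ∧ |y 3| < y 0 ∧ |y 3| < y 1} := by
    have o : ∀ i j : Fin 4, IsOpen {y : V4 | |y i| < y j} := fun i j =>
      isOpen_lt (by fun_prop) (by fun_prop)
    exact (o 2 0).inter ((o 2 1).inter ((o 3 0).inter (o 3 1)))
  have hc0 : 0 < c := by linarith
  have ha0 : 0 < a := by linarith
  have key : ∀ (u p q : ℝ) (i : ℤ), |u| < p → |u| < q → |u| * c ^ i < a ^ i * p + a ^ (-i) * q := by
    intro u p q i hp hq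
    have hu := abs_nonneg u
    have e1 := zpow_pos ha0 i
    have e2 := zpow_pos ha0 (-i)
    have e3 := zpow_pos hc0 i
    rcases le_total 0 i with hi | hi
    · have h1 : c ^ i ≤ a ^ i := zpow_le_zpow_left₀ hi hc0.le hca
      nlinarith [mul_le_mul_of_nonneg_left h1 hu, mul_lt_mul_of_pos_left hp e1,
        mul_pos e2 (hu.trans_lt hq)]
    · have h1 : c ^ i ≤ 1 := zpow_le_one_of_nonpos₀ hc hi
      have h2 : 1 ≤ a ^ (-i) := one_le_zpow₀ (hc.trans hca) (by omega)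
      nlinarith [mul_le_mul_of_nonneg_left (h1.trans h2) hu, mul_lt_mul_of_pos_left hq e2,
        mul_pos e1 (hu.trans_lt hp)]
  rintro y ⟨y0, y1, y2, y3⟩
  rw [mem_interior]
  refine ⟨_, ?_, hO, by simp [y0, y1, y2, y3]⟩
  rintro z ⟨h1, h2, h3, h4⟩
  refine ⟨(abs_nonneg _).trans_lt h1, (abs_nonneg _).trans_lt h2, fun i => ⟨key _ _ _ i h1 h2, ?_⟩⟩
  have := key _ _ _ (-i) h4 h3
  rw [neg_neg] at this
  linarith

theorem act_seg {a c : ℝ} (ha : 0 < a) (d : DihedralGroup 0) {y : V4} (hy : y ∈ Seg) :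
    act a c d y ∈ Seg := by
  obtain ⟨y0, y1, y2, y3⟩ := hy
  obtain ⟨i, rfl | rfl⟩ := dcases d
  · exact ⟨mul_pos (zpow_pos ha _) y0, mul_pos (zpow_pos ha _) y1, by simp [act_rr, y2],
      by simp [act_rr, y3]⟩
  · exact ⟨mul_pos (zpow_pos ha _) y1, mul_pos (zpow_pos ha _) y0, by simp [act_ss, y3],
      by simp [act_ss, y2]⟩

theorem convex_seg : Convex ℝ Seg := by
  rintro y ⟨y0, y1, y2, y3⟩ z ⟨z0, z1, z2, z3⟩ s t hs ht hst
  have pos : ∀ (u v : ℝ), 0 < u → 0 < v → 0 < s * u + t * v := by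
    intro u v hu hv
    rcases hs.eq_or_lt with rfl | hs'
    · have : t = 1 := by linarith
      subst this
      simpa using hv
    · nlinarith [mul_nonneg ht hv.le, mul_pos hs' hu]
  exact ⟨pos _ _ y0 z0, pos _ _ y1 z1, by simp [y2, z2], by simp [y3, z3]⟩

/-- the linear form of the chart -/
def ph (L : V4 ≃ₗ[ℝ] V4) : V4 →ₗ[ℝ] ℝ where
  toFun v := L.symm v 0 + L.symm v 1
  map_add' v w := by simp only [map_add, Pi.add_apply]; ring
  map_smul' t v := by simp only [map_smul, Pi.smul_apply, smul_eq_mul, RingHom.id_apply]; ring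

@[simp] theorem ph_apply (L : V4 ≃ₗ[ℝ] V4) (v : V4) : ph L v = L.symm v 0 + L.symm v 1 := rfl

/-- the invariant domain -/
def Om (L : V4 ≃ₗ[ℝ] V4) (a c : ℝ) : Set P4 := pr '' (L '' interior (W0 a c))

/-- the invariant segment -/
def Cs (L : V4 ≃ₗ[ℝ] V4) : Set P4 := pr '' (L '' Seg)

theorem ne_zero_of_pos {y : V4} (h : 0 < y 0) : y ≠ 0 := by
  rintro rfl
  simp at h

theorem L_ne_zero (L : V4 ≃ₗ[ℝ] V4) {y : V4} (hy : y ≠ 0) : L y ≠ 0 :=
  L.map_ne_zero_iff.2 hy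

theorem continuous_L (L : V4 ≃ₗ[ℝ] V4) : Continuous L :=
  L.toLinearMap.continuous_of_finiteDimensional

theorem image_L (L : V4 ≃ₗ[ℝ] V4) (W : Set V4) : L '' W = L.symm ⁻¹' W :=
  L.toEquiv.image_eq_preimage_symm W

variable {L : V4 ≃ₗ[ℝ] V4} {a c : ℝ} {ψ : DihedralGroup 0 →* PGL(4, ℝ)}

theorem Std.domain (h : Std L a c ψ) : InvariantDomain ψ.range (ph L) (Om L a c) := by
  have ha0 : 0 < a := by linarith [h.ha]
  have hc0 : 0 < c := by linarith [h.hc]
  refine ⟨?_, ?_, ?_, ?_, ?_⟩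
  · exact ⟨_, _, ⟨![1, 1, 0, 0], seg_subset h.hc h.hca ⟨by simp, by simp, by simp, by simp⟩, rfl⟩, rfl⟩
  · apply isOpen_image_pr
    · rw [image_L]
      exact isOpen_interior.preimage (continuous_L L.symm)
    · rintro v ⟨y, hy, rfl⟩
      exact L_ne_zero L (ne_zero_of_pos (interior_subset hy).1)
  · have hs : ∀ v ∈ {v : V4 | ∀ k, |L.symm v k| ≤ |ph L v|}, ∀ t : ℝ, t ≠ 0 →
        t • v ∈ {v : V4 | ∀ k, |L.symm v k| ≤ |ph L v|} := by
      intro v hv t ht k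
      rw [map_smul, map_smul, Pi.smul_apply, smul_eq_mul, smul_eq_mul, abs_mul, abs_mul]
      exact mul_le_mul_of_nonneg_left (hv k) (abs_nonneg _)
    have hcl : IsClosed {v : V4 | ∀ k, |L.symm v k| ≤ |ph L v|} := by
      rw [ofPred_forall]
      refine isClosed_iInter fun k => isClosed_le ?_ ?_
      · exact ((continuous_apply k).comp (continuous_L L.symm)).abs
      · exact (ph L).continuous_of_finiteDimensional.abs
    intro x hx
    have h1 : x ∈ {x : P4 | x.rep ∈ {v : V4 | ∀ k, |L.symm v k| ≤ |ph L v|}} := by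
      refine closure_minimal ?_ (isClosed_rep hcl hs) hx
      rintro _ ⟨_, ⟨y, hy, rfl⟩, rfl⟩
      obtain ⟨y0, y1, hy'⟩ := interior_subset hy
      refine (rep_pr_mem hs (L_ne_zero L (ne_zero_of_pos y0))).2 ?_
      intro k
      have h2 := hy' 0
      simp only [zpow_zero, neg_zero, mul_one, one_mul] at h2
      rw [ph_apply, L.symm_apply_apply, abs_of_pos (add_pos y0 y1)]
      fin_cases k
      · show |y 0| ≤ _
        rw [abs_of_pos y0]; linarith
      · show |y 1| ≤ _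
        rw [abs_of_pos y1]; linarith
      · exact h2.1.le
      · exact h2.2.le
    intro h0
    apply L_ne_zero L.symm x.rep_nonzero
    funext k
    have := h1 k
    rw [h0, abs_zero] at this
    exact abs_nonpos_iff.1 this
  · apply convex_chart_image
    · rintro v ⟨y, hy, rfl⟩
      obtain ⟨y0, y1, -⟩ := interior_subset hy
      rw [ph_apply, L.symm_apply_apply]
      exact add_pos y0 y1
    · rintro v ⟨y, hy, rfl⟩ t ht
      exact ⟨t • y, smul_int ht hy, map_smul _ _ _⟩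
    · exact (convex_W0 hc0).interior.linear_image L.toLinearMap
  · rintro _ ⟨d, rfl⟩ _ ⟨_, ⟨y, hy, rfl⟩, rfl⟩
    rw [h.hact d y (ne_zero_of_pos (interior_subset hy).1)]
    exact ⟨_, ⟨_, act_int ha0 hc0 d hy, rfl⟩, rfl⟩

theorem Std.cs_subset (h : Std L a c ψ) : Cs L ⊆ Om L a c :=
  image_mono (image_mono (seg_subset h.hc h.hca))

theorem cs_nonempty (L : V4 ≃ₗ[ℝ] V4) : (Cs L).Nonempty :=
  ⟨_, _, ⟨![1, 1, 0, 0], ⟨by simp, by simp, by simp, by simp⟩, rfl⟩, rfl⟩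

theorem Std.cs_compact (h : Std L a c ψ) : CompactQuotient ψ.range (Cs L) := by
  have ha0 : 0 < a := by linarith [h.ha]
  have ha2 : 1 < a ^ 2 := by nlinarith [h.ha]
  have hseg : ∀ t ∈ Icc (1 : ℝ) (a ^ 2), (![t, 1, 0, 0] : V4) ∈ Seg := fun t ht =>
    ⟨by have := ht.1; show 0 < t; linarith, by simp, by simp, by simp⟩
  refine compactQuotient_of (K := (fun t : ℝ => pr (L ![t, 1, 0, 0])) '' Icc 1 (a ^ 2)) ?_ ?_ ?_
  · apply isCompact_Icc.image_of_continuousOn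
    refine continuousOn_pr.comp ((continuous_L L).comp ?_).continuousOn ?_
    · refine continuous_pi fun k => ?_
      fin_cases k <;> simp <;> fun_prop
    · intro t ht
      exact L_ne_zero L (ne_zero_of_pos (hseg t ht).1)
  · rintro _ ⟨t, ht, rfl⟩
    exact ⟨_, ⟨_, hseg t ht, rfl⟩, rfl⟩
  · rintro _ ⟨_, ⟨y, ⟨y0, y1, y2, y3⟩, rfl⟩, rfl⟩
    obtain ⟨n, hn1, hn2⟩ := exists_mem_Ico_zpow (div_pos y0 y1) ha2
    have hp : 0 < (a ^ 2) ^ n := zpow_pos (by positivity) n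
    refine ⟨ψ (rr (-n)), ⟨_, rfl⟩, y 0 / y 1 / (a ^ 2) ^ n, ⟨?_, ?_⟩, ?_⟩
    · rwa [le_div_iff₀ hp, one_mul]
    · rw [div_le_iff₀ hp]
      rw [zpow_add₀ (by positivity), zpow_one] at hn2
      linarith
    · rw [h.hact _ y (ne_zero_of_pos y0)]
      have e : act a c (rr (-n)) y = (a ^ n * y 1) • ![y 0 / y 1 / (a ^ 2) ^ n, 1, 0, 0] := by
        show dg a c (-n) y = _
        have hn0 : a ^ n ≠ 0 := (zpow_pos ha0 n).ne'
        have e2 : (a ^ 2) ^ n = a ^ n * a ^ n := by rw [sq, mul_zpow]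
        apply ext4
        · simp only [dg0, e2, _root_.zpow_neg, Pi.smul_apply, smul_eq_mul, cons_val_zero]
          field_simp
        · simp
        · simp [y2]
        · simp [y3]
      rw [e, map_smul, pr_smul]
      · apply L_ne_zero
        intro h0
        simpa using congrFun h0 1
      · exact (mul_pos (zpow_pos ha0 n) y1).ne'

theorem Std.eq_one (h : Std L a c ψ) : ∃ O : Set PGL(4, ℝ), IsOpen O ∧ 1 ∈ O ∧
    ∀ d, ψ d ∈ O → d = 1 := by
  have ha0 : 0 < a := by linarith [h.ha]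
  have ha := h.ha
  let A : Set V4 := {v | (L.symm v 1) ^ 2 < (L.symm v 0) ^ 2 ∧
    (L.symm v 0) ^ 2 < a ^ 2 * (L.symm v 1) ^ 2}
  have hc0 : Continuous fun v => L.symm v 0 := (continuous_apply 0).comp (continuous_L L.symm)
  have hc1 : Continuous fun v => L.symm v 1 := (continuous_apply 1).comp (continuous_L L.symm)
  have hA : IsOpen A :=
    (isOpen_lt (hc1.pow 2) (hc0.pow 2)).inter (isOpen_lt (hc0.pow 2) (continuous_const.mul (hc1.pow 2)))
  have hs : ∀ v ∈ A, ∀ t : ℝ, t ≠ 0 → t • v ∈ A := by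
    rintro v ⟨h1, h2⟩ t ht
    have : 0 < t ^ 2 := by positivity
    refine ⟨?_, ?_⟩ <;> simp only [map_smul, Pi.smul_apply, smul_eq_mul, mul_pow] <;> nlinarith
  have hs0 : 0 < √a := Real.sqrt_pos.2 ha0
  have hs2 : √a ^ 2 = a := Real.sq_sqrt ha0.le
  let y : V4 := ![√a, 1, 0, 0]
  have hy : y ≠ 0 := ne_zero_of_pos hs0
  refine ⟨(fun g : PGL(4, ℝ) => g • pr (L y)) ⁻¹' {x | x.rep ∈ A},
    (isOpen_rep hA hs).preimage (continuous_orbit (L_ne_zero L hy)), ?_, ?_⟩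
  · show ((1 : PGL(4, ℝ)) • pr (L y)).rep ∈ A
    rw [one_smul, rep_pr_mem hs (L_ne_zero L hy)]
    refine ⟨?_, ?_⟩ <;> simp only [L.symm_apply_apply, y, cons_val_zero, cons_val_one, hs2] <;>
      nlinarith
  · intro d hd
    have hd' : (ψ d • pr (L y)).rep ∈ A := hd
    have hc0 : c ≠ 0 := by linarith [h.hc]
    have hne : act a c d y ≠ 0 := by
      obtain ⟨i, rfl | rfl⟩ := dcases d
      · exact dg_ne_zero ha0.ne' hc0 _ hy
      · exact sw_ne_zero (dg_ne_zero ha0.ne' hc0 _ hy)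
    rw [h.hact d y hy, rep_pr_mem hs (L_ne_zero L hne)] at hd'
    obtain ⟨h1, h2⟩ := hd'
    simp only [L.symm_apply_apply] at h1 h2
    have e1 : ∀ i : ℤ, (a ^ i * √a) ^ 2 = a ^ (2 * i + 1) := fun i => by
      rw [mul_pow, hs2, zpow_add₀ ha0.ne', zpow_one, mul_comm 2 i, _root_.zpow_mul]
      rfl
    have e2 : ∀ i : ℤ, (a ^ (-i) * 1) ^ 2 = a ^ (-2 * i) := fun i => by
      rw [mul_one, show -2 * i = -i * 2 by ring, _root_.zpow_mul]
      rfl
    have e3 : ∀ i : ℤ, a ^ 2 * a ^ i = a ^ (2 + i) := fun i => by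
      rw [zpow_add₀ ha0.ne']
      rfl
    obtain ⟨i, rfl | rfl⟩ := dcases d
    · change (a ^ (-i) * 1) ^ 2 < (a ^ i * √a) ^ 2 at h1
      change (a ^ i * √a) ^ 2 < a ^ 2 * (a ^ (-i) * 1) ^ 2 at h2
      rw [e1, e2, zpow_lt_zpow_iff_right₀ ha] at h1
      rw [e1, e2, e3, zpow_lt_zpow_iff_right₀ ha] at h2
      have : i = 0 := by omega
      rw [this, rr_zero]
    · change (a ^ i * √a) ^ 2 < (a ^ (-i) * 1) ^ 2 at h1
      change (a ^ (-i) * 1) ^ 2 < a ^ 2 * (a ^ i * √a) ^ 2 at h2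
      rw [e1, e2, zpow_lt_zpow_iff_right₀ ha] at h1
      rw [e1, e2, e3, zpow_lt_zpow_iff_right₀ ha] at h2
      omega

theorem Std.injective (h : Std L a c ψ) : Function.Injective ψ := by
  obtain ⟨O, -, h1, h2⟩ := h.eq_one
  rw [injective_iff_map_eq_one]
  intro d hd
  exact h2 d (by rwa [hd])

theorem Std.infinite (h : Std L a c ψ) : Infinite ψ.range :=
  Infinite.of_injective _ (MonoidHom.ofInjective h.injective).injective

theorem Std.discrete (h : Std L a c ψ) : DiscreteTopology ψ.range := by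
  obtain ⟨O, hO, h1, h2⟩ := h.eq_one
  apply discreteTopology_of_isOpen_singleton_one
  have : ({1} : Set ψ.range) = Subtype.val ⁻¹' O := by
    ext ⟨_, d, rfl⟩
    constructor
    · intro e
      rw [mem_singleton_iff.1 e]
      exact h1
    · intro e
      rw [mem_singleton_iff, Subtype.ext_iff]
      show ψ d = 1
      rw [h2 d e, map_one]
  rw [this]
  exact hO.preimage continuous_subtype_val

theorem Std.naive (h : Std L a c ψ) : NaiveCC ψ.range := by
  have ha0 : 0 < a := by linarith [h.ha]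
  refine ⟨h.infinite, h.discrete, ph L, Om L a c, Cs L, h.domain, cs_nonempty L, h.cs_subset,
    ?_, ?_, ?_, h.cs_compact⟩
  · have hs : ∀ v ∈ {v : V4 | L.symm v 2 = 0 ∧ L.symm v 3 = 0}, ∀ t : ℝ, t ≠ 0 →
        t • v ∈ {v : V4 | L.symm v 2 = 0 ∧ L.symm v 3 = 0} := by
      rintro v ⟨h1, h2⟩ t ht
      refine ⟨?_, ?_⟩ <;> simp [h1, h2]
    have hcl : IsClosed {v : V4 | L.symm v 2 = 0 ∧ L.symm v 3 = 0} :=
      (isClosed_eq ((continuous_apply 2).comp (continuous_L L.symm)) continuous_const).inter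
        (isClosed_eq ((continuous_apply 3).comp (continuous_L L.symm)) continuous_const)
    have : (Subtype.val ⁻¹' Cs L : Set (Om L a c)) =
        Subtype.val ⁻¹' {x : P4 | x.rep ∈ {v : V4 | L.symm v 2 = 0 ∧ L.symm v 3 = 0}} := by
      ext ⟨_, _, ⟨y, hy, rfl⟩, rfl⟩
      obtain ⟨y0, y1, -⟩ := interior_subset hy
      constructor
      · rintro ⟨_, ⟨z, hz, rfl⟩, e⟩
        have e' : pr (L z) = pr (L y) := e
        show (pr (L y)).rep ∈ {v : V4 | L.symm v 2 = 0 ∧ L.symm v 3 = 0}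
        rw [← e', rep_pr_mem hs (L_ne_zero L (ne_zero_of_pos hz.1))]
        exact ⟨by rw [L.symm_apply_apply]; exact hz.2.2.1, by rw [L.symm_apply_apply]; exact hz.2.2.2⟩
      · intro e
        have e' : (pr (L y)).rep ∈ {v : V4 | L.symm v 2 = 0 ∧ L.symm v 3 = 0} := e
        rw [rep_pr_mem hs (L_ne_zero L (ne_zero_of_pos y0))] at e'
        obtain ⟨e2, e3⟩ := e'
        rw [L.symm_apply_apply] at e2 e3
        exact ⟨_, ⟨y, ⟨y0, y1, e2, e3⟩, rfl⟩, rfl⟩
    rw [this]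
    exact (isClosed_rep hcl hs).preimage continuous_subtype_val
  · apply convex_chart_image
    · rintro v ⟨y, ⟨y0, y1, -⟩, rfl⟩
      rw [ph_apply, L.symm_apply_apply]
      exact add_pos y0 y1
    · rintro v ⟨y, ⟨y0, y1, y2, y3⟩, rfl⟩ t ht
      exact ⟨t • y, ⟨mul_pos ht y0, mul_pos ht y1, by simp [y2], by simp [y3]⟩, map_smul _ _ _⟩
    · exact convex_seg.linear_image L.toLinearMap
  · rintro _ ⟨d, rfl⟩ _ ⟨_, ⟨y, hy, rfl⟩, rfl⟩
    rw [h.hact d y (ne_zero_of_pos hy.1)]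
    exact ⟨_, ⟨_, act_seg ha0 d hy, rfl⟩, rfl⟩

end Pool.Agent.P.MP_7d68c1_gt
end

-- part Pool.Agent.P.MP_7d68c1_gt.Cocompact
section

open scoped LinearAlgebra.Projectivization MatrixGroups Topology
open Matrix Filter Set DihedralGroup

namespace Pool.Agent.P.MP_7d68c1_gt

theorem accPt_of_seq {X : Type} [TopologicalSpace X] {S : Set X} {y : X} {u : ℕ → X}
    (h1 : ∀ n, u n ∈ S) (h2 : ∀ n, u n ≠ y) (h3 : Tendsto u atTop (𝓝 y)) : AccPt y (𝓟 S) := by
  rw [accPt_iff_frequently]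
  exact h3.frequently (Frequently.of_forall fun n => ⟨h2 n, h1 n⟩)

theorem eq_of_accPt_range {X : Type} [TopologicalSpace X] [T2Space X] {y e : X} {u : ℕ → X}
    (h3 : Tendsto u atTop (𝓝 e)) (h : AccPt y (𝓟 (range u))) : y = e := by
  by_contra hne
  obtain ⟨U, U', hU, hU', hy, he, hd⟩ := t2_separation hne
  have h4 := (h.nhds_inter (hU.mem_nhds hy))
  apply Set.Infinite.of_accPt h4
  have h5 : ∀ᶠ n in cofinite, u n ∈ U' := by
    rw [Nat.cofinite_eq_atTop]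
    exact h3.eventually (hU'.mem_nhds he)
  refine ((eventually_cofinite.1 h5).image u).subset ?_
  rintro _ ⟨hx, n, rfl⟩
  exact ⟨n, fun h6 => Set.disjoint_left.1 hd hx h6, rfl⟩

theorem dg_neg (a c : ℝ) (i : ℤ) (y : V4) : dg a c (-i) y = sw (dg a c i (sw y)) := by
  apply ext4 <;> simp

theorem sw_smul (t : ℝ) (y : V4) : sw (t • y) = t • sw y := by
  apply ext4 <;> simp

theorem tendsto_dg {a c : ℝ} (hc : 1 ≤ c) (hca : c < a) (w : V4) :
    Tendsto (fun n : ℕ => (a ^ n)⁻¹ • dg a c n w) atTop (𝓝 ![w 0, 0, 0, 0]) := by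
  have ha : 1 < a := by linarith
  have ha0 : 0 < a := by linarith
  have hc0 : 0 < c := by linarith
  have key : ∀ μ u : ℝ, |μ| < 1 → Tendsto (fun n : ℕ => μ ^ n * u) atTop (𝓝 0) := by
    intro μ u h
    simpa using (tendsto_pow_atTop_nhds_zero_of_abs_lt_one h).mul_const u
  rw [tendsto_pi_nhds]
  intro k
  fin_cases k
  · refine tendsto_const_nhds.congr fun n => ?_
    have : a ^ n ≠ 0 := by positivity
    simp only [Fin.zero_eta, cons_val_zero, Pi.smul_apply, dg0, zpow_natCast, smul_eq_mul]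
    field_simp
  · refine (key (a⁻¹ * a⁻¹) (w 1) ?_).congr fun n => ?_
    · rw [abs_of_pos (by positivity), ← mul_inv]
      exact inv_lt_one_of_one_lt₀ (by nlinarith)
    · simp [mul_pow, mul_assoc]
  · refine (key (a⁻¹ * (-c)) (w 2) ?_).congr fun n => ?_
    · rw [abs_mul, abs_neg, abs_of_pos hc0, abs_of_pos (by positivity), inv_mul_lt_iff₀ ha0]
      linarith
    · simp only [mul_pow, mul_assoc, inv_pow]
      rfl
  · refine (key (a⁻¹ * (-c)⁻¹) (w 3) ?_).congr fun n => ?_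
    · rw [← mul_inv, abs_inv, abs_mul, abs_neg, abs_of_pos hc0, abs_of_pos ha0]
      exact inv_lt_one_of_one_lt₀ (by nlinarith)
    · simp only [mul_pow, mul_assoc, inv_pow]
      show _ = (a ^ n)⁻¹ * ((-c) ^ (-(n : ℤ)) * w 3)
      rw [_root_.zpow_neg, zpow_natCast]

variable {L : V4 ≃ₗ[ℝ] V4} {a c : ℝ} {ψ : DihedralGroup 0 →* PGL(4, ℝ)}

theorem e0_ne : (![1, 0, 0, 0] : V4) ≠ 0 := fun h => by simpa using congrFun h 0
theorem e1_ne : (![0, 1, 0, 0] : V4) ≠ 0 := fun h => by simpa using congrFun h 1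

theorem tendsto_pr_dg (L : V4 ≃ₗ[ℝ] V4) (hc : 1 ≤ c) (hca : c < a) {w : V4} (hw : w 0 ≠ 0) :
    Tendsto (fun n : ℕ => pr (L (dg a c n w))) atTop (𝓝 (pr (L ![1, 0, 0, 0]))) ∧
    Tendsto (fun n : ℕ => pr (L (sw (dg a c n w)))) atTop (𝓝 (pr (L ![0, 1, 0, 0]))) := by
  have ha0 : a ≠ 0 := by linarith
  have hc0 : c ≠ 0 := by linarith
  have hw' : w ≠ 0 := fun h => hw (by rw [h]; rfl)
  have h := tendsto_dg hc hca w
  have e0 : (![w 0, 0, 0, 0] : V4) = w 0 • ![1, 0, 0, 0] := by apply ext4 <;> simp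
  have e1 : sw ![w 0, 0, 0, 0] = w 0 • ![0, 1, 0, 0] := by apply ext4 <;> simp
  constructor
  · have h1 := ((continuous_L L).tendsto _).comp h
    rw [e0, map_smul] at h1
    have h2 := (continuousAt_pr (smul_ne_zero hw (L_ne_zero L e0_ne))).tendsto.comp h1
    rw [pr_smul (L_ne_zero L e0_ne) hw] at h2
    refine h2.congr fun n => ?_
    simp only [Function.comp_apply, map_smul]
    exact pr_smul (L_ne_zero L (dg_ne_zero ha0 hc0 _ hw')) (inv_ne_zero (pow_ne_zero _ ha0))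
  · have h1 := ((continuous_L L).tendsto _).comp ((continuous_sw.tendsto _).comp h)
    rw [e1, map_smul] at h1
    have h2 := (continuousAt_pr (smul_ne_zero hw (L_ne_zero L e1_ne))).tendsto.comp h1
    rw [pr_smul (L_ne_zero L e1_ne) hw] at h2
    refine h2.congr fun n => ?_
    simp only [Function.comp_apply, map_smul, sw_smul]
    exact pr_smul (L_ne_zero L (sw_ne_zero (dg_ne_zero ha0 hc0 _ hw')))
      (inv_ne_zero (pow_ne_zero _ ha0))

theorem mem_orbit_range {x y : P4} : y ∈ MulAction.orbit ψ.range x ↔ ∃ d, ψ d • x = y := by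
  constructor
  · rintro ⟨⟨_, d, rfl⟩, h⟩
    exact ⟨d, h⟩
  · rintro ⟨d, h⟩
    exact ⟨⟨_, d, rfl⟩, h⟩

theorem pr_L_eq {y z : V4} (hy : y ≠ 0) (hz : z ≠ 0) (h : pr (L y) = pr (L z)) :
    ∃ t : ℝ, t • z = y := by
  obtain ⟨t, ht⟩ := (pr_eq_iff (L_ne_zero L hy) (L_ne_zero L hz)).1 h
  exact ⟨t, L.injective (by rw [map_smul, ht])⟩

theorem Std.limitSet (h : Std L a c ψ) (hca : c < a) :
    orbitalLimitSet ψ.range (Om L a c) = {pr (L ![1, 0, 0, 0]), pr (L ![0, 1, 0, 0])} := by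
  have ha0 : 0 < a := by linarith [h.ha]
  have hc0 : c ≠ 0 := by linarith [h.hc]
  ext x
  constructor
  · rintro ⟨_, ⟨_, ⟨z, hz, rfl⟩, rfl⟩, hx⟩
    obtain ⟨z0, z1, -⟩ := interior_subset hz
    have hz0 := ne_zero_of_pos z0
    have t1 := tendsto_pr_dg L h.hc hca (w := z) z0.ne'
    have t2 := tendsto_pr_dg L h.hc hca (w := sw z) z1.ne'
    have hsub : MulAction.orbit ψ.range (pr (L z)) ⊆
        (range (fun n : ℕ => pr (L (dg a c n z))) ∪ range (fun n : ℕ => pr (L (dg a c n (sw z))))) ∪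
        (range (fun n : ℕ => pr (L (sw (dg a c n z)))) ∪
          range (fun n : ℕ => pr (L (sw (dg a c n (sw z)))))) := by
      intro y hy
      obtain ⟨d, rfl⟩ := mem_orbit_range.1 hy
      rw [h.hact d z hz0]
      obtain ⟨i, rfl | rfl⟩ := dcases d <;> obtain ⟨n, rfl | rfl⟩ := i.eq_nat_or_neg
      · exact Or.inl (Or.inl ⟨n, rfl⟩)
      · exact Or.inr (Or.inr ⟨n, by rw [act_rr, dg_neg]⟩)
      · exact Or.inr (Or.inl ⟨n, rfl⟩)
      · exact Or.inl (Or.inr ⟨n, by rw [act_ss, dg_neg, sw_sw]⟩)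
    have h1 := hx.mono (principal_mono.2 hsub)
    simp only [← sup_principal, accPt_sup] at h1
    rcases h1 with (h1 | h1) | (h1 | h1)
    · exact Or.inl (eq_of_accPt_range t1.1 h1)
    · exact Or.inl (eq_of_accPt_range t2.1 h1)
    · exact Or.inr (eq_of_accPt_range t1.2 h1)
    · exact Or.inr (eq_of_accPt_range t2.2 h1)
  · have hz : (![1, 1, 0, 0] : V4) ∈ Seg := ⟨by simp, by simp, by simp, by simp⟩
    have hz0 := ne_zero_of_pos hz.1
    have t1 := tendsto_pr_dg L h.hc hca (w := ![1, 1, 0, 0]) hz.1.ne'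
    rintro (rfl | rfl)
    · refine ⟨_, h.cs_subset ⟨_, ⟨_, hz, rfl⟩, rfl⟩, accPt_of_seq (fun n => ?_) (fun n e => ?_) t1.1⟩
      · exact mem_orbit_range.2 ⟨rr n, h.hact _ _ hz0⟩
      · obtain ⟨t, ht⟩ := pr_L_eq (dg_ne_zero ha0.ne' hc0 _ hz0) e0_ne e
        have := congrFun ht 1
        simp at this
        exact (pow_pos ha0 n).ne this
    · refine ⟨_, h.cs_subset ⟨_, ⟨_, hz, rfl⟩, rfl⟩, accPt_of_seq (fun n => ?_) (fun n e => ?_) t1.2⟩
      · exact mem_orbit_range.2 ⟨ss n, h.hact _ _ hz0⟩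
      · obtain ⟨t, ht⟩ := pr_L_eq (sw_ne_zero (dg_ne_zero ha0.ne' hc0 _ hz0)) e1_ne e
        have := congrFun ht 0
        simp at this
        exact (pow_pos ha0 n).ne this

theorem Std.core (h : Std L a c ψ) (hca : c < a) : convexCore ψ.range (ph L) (Om L a c) = Cs L := by
  have hch : chart (ph L) (orbitalLimitSet ψ.range (Om L a c)) =
      {L ![1, 0, 0, 0], L ![0, 1, 0, 0]} := by
    rw [h.limitSet hca]
    ext v
    rw [mem_chart]
    constructor
    · rintro ⟨h1, h2⟩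
      have hv : v ≠ 0 := by
        rintro rfl
        simp at h1
      rcases h2 with h2 | h2
      · obtain ⟨t, rfl⟩ := (pr_eq_iff hv (L_ne_zero L e0_ne)).1 h2
        have : t = 1 := by simpa using h1
        exact Or.inl (by rw [this, one_smul])
      · obtain ⟨t, rfl⟩ := (pr_eq_iff hv (L_ne_zero L e1_ne)).1 h2
        have : t = 1 := by simpa using h1
        exact Or.inr (by rw [this, one_smul]; rfl)
    · rintro (rfl | rfl)
      · exact ⟨by simp, Or.inl rfl⟩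
      · exact ⟨by simp, Or.inr rfl⟩
  unfold convexCore
  rw [hch, convexHull_pair]
  have hcomb : ∀ s t : ℝ, s • L ![1, 0, 0, 0] + t • L ![0, 1, 0, 0] = L ![s, t, 0, 0] := by
    intro s t
    rw [← map_smul, ← map_smul, ← map_add]
    congr 1
    apply ext4 <;> simp
  ext x
  constructor
  · rintro ⟨⟨_, ⟨z, hz, rfl⟩, rfl⟩, _, ⟨s, t, hs, ht, hst, rfl⟩, hv, e⟩
    obtain ⟨z0, z1, -⟩ := interior_subset hz
    rw [← pr_eq hv, hcomb] at e
    rw [hcomb] at hv
    obtain ⟨k, hk⟩ := pr_L_eq (L.map_ne_zero_iff.1 hv) (ne_zero_of_pos z0) e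
    have k0 : k * z 0 = s := congrFun hk 0
    have k1 : k * z 1 = t := congrFun hk 1
    have hk0 : 0 < k := by
      by_contra hk'
      push Not at hk'
      nlinarith
    refine ⟨_, ⟨![s, t, 0, 0], ⟨?_, ?_, by simp, by simp⟩, rfl⟩, e⟩
    · show 0 < s
      rw [← k0]; positivity
    · show 0 < t
      rw [← k1]; positivity
  · intro hx
    refine ⟨h.cs_subset hx, ?_⟩
    obtain ⟨_, ⟨y, ⟨y0, y1, y2, y3⟩, rfl⟩, rfl⟩ := hx
    have hp := add_pos y0 y1
    have e : L ![y 0 / (y 0 + y 1), y 1 / (y 0 + y 1), 0, 0] = (y 0 + y 1)⁻¹ • L y := by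
      rw [← map_smul]
      congr 1
      apply ext4 <;> simp [y2, y3, div_eq_inv_mul]
    have hy := L_ne_zero L (ne_zero_of_pos y0)
    refine ⟨(y 0 + y 1)⁻¹ • L y, ⟨y 0 / (y 0 + y 1), y 1 / (y 0 + y 1), by positivity, by positivity,
      by field_simp, by rw [hcomb, e]⟩, smul_ne_zero (inv_ne_zero hp.ne') hy, ?_⟩
    rw [← pr_eq, pr_smul hy (inv_ne_zero hp.ne')]

theorem Std.cc (h : Std L a c ψ) (hca : c < a) : CC ψ.range :=
  ⟨h.infinite, h.discrete, ph L, Om L a c, h.domain, by rw [h.core hca]; exact cs_nonempty L,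
    by rw [h.core hca]; exact h.cs_compact⟩

end Pool.Agent.P.MP_7d68c1_gt
end

-- part Pool.Agent.P.MP_7d68c1_gt.NotCC
section

open scoped LinearAlgebra.Projectivization MatrixGroups Topology
open Matrix Filter Set DihedralGroup

namespace Pool.Agent.P.MP_7d68c1_gt

/-- exchange of the two planes -/
def tau : V4 ≃ₗ[ℝ] V4 where
  toFun y := ![y 2, y 3, y 0, y 1]
  invFun y := ![y 2, y 3, y 0, y 1]
  map_add' y z := by apply ext4 <;> simp
  map_smul' t y := by apply ext4 <;> simp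
  left_inv y := by apply ext4 <;> simp
  right_inv y := by apply ext4 <;> simp

theorem tau_apply (y : V4) : tau y = ![y 2, y 3, y 0, y 1] := rfl

theorem tau_dg (a c : ℝ) (y : V4) : tau (dg c a 1 y) = (-1 : ℝ) • dg a c 1 (tau y) := by
  apply ext4 <;> simp [tau_apply, inv_neg]

theorem tau_sw (y : V4) : tau (sw y) = sw (tau y) := by
  apply ext4 <;> simp [tau_apply]

variable {L : V4 ≃ₗ[ℝ] V4} {a c : ℝ} {ψ : DihedralGroup 0 →* PGL(4, ℝ)}

theorem swap_r (ha : a ≠ 0) (hc : c ≠ 0)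
    (hr : ∀ y, y ≠ 0 → ψ (rr 1) • pr (L y) = pr (L (dg a c 1 y))) :
    ∀ y, y ≠ 0 → ψ (rr 1) • pr ((tau.trans L) y) = pr ((tau.trans L) (dg c a 1 y)) := by
  intro y hy
  have h1 := L_ne_zero tau hy
  rw [LinearEquiv.trans_apply, LinearEquiv.trans_apply, hr _ h1, tau_dg, map_smul,
    pr_smul (L_ne_zero L (dg_ne_zero ha hc _ h1)) (by norm_num)]

theorem swap_s (hs : ∀ y, y ≠ 0 → ψ (ss 0) • pr (L y) = pr (L (sw y))) :
    ∀ y, y ≠ 0 → ψ (ss 0) • pr ((tau.trans L) y) = pr ((tau.trans L) (sw y)) := by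
  intro y hy
  rw [LinearEquiv.trans_apply, LinearEquiv.trans_apply, hs _ (L_ne_zero tau hy), tau_sw]

theorem Std.swap (h : Std L a a ψ) : Std (tau.trans L) a a ψ := by
  have ha0 : a ≠ 0 := by linarith [h.ha]
  refine std_of h.ha h.hc le_rfl (swap_r ha0 ha0 fun y hy => h.hact _ y hy) (swap_s fun y hy => ?_)
  rw [h.hact _ y hy, act_ss, dg_zero]

/-- the positive cone over Ω, in coordinates -/
def cone (L : V4 ≃ₗ[ℝ] V4) (φ : V4 →ₗ[ℝ] ℝ) (Ω : Set P4) : Set V4 :=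
  {y | 0 < φ (L y) ∧ pr (L y) ∈ Ω}

variable {φ : V4 →ₗ[ℝ] ℝ} {Ω : Set P4} {Γ : Subgroup PGL(4, ℝ)}

theorem cone_ne {y : V4} (hy : y ∈ cone L φ Ω) : y ≠ 0 := by
  rintro rfl
  simpa using hy.1

theorem cone_open (hΩ : IsOpen Ω) : IsOpen (cone L φ Ω) := by
  have h1 : IsOpen {y : V4 | 0 < φ (L y)} :=
    isOpen_lt continuous_const (φ.continuous_of_finiteDimensional.comp (continuous_L L))
  have h2 : ContinuousOn (fun y => pr (L y)) {y : V4 | 0 < φ (L y)} :=
    continuousOn_pr.comp (continuous_L L).continuousOn (fun y hy h => by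
      have : 0 < φ (L y) := hy
      rw [h] at this
      simp at this)
  exact h2.isOpen_inter_preimage h1 hΩ

theorem phi_ne (hD : InvariantDomain Γ φ Ω) {v : V4} (hv : v ≠ 0) (h : pr v ∈ closure Ω) :
    φ v ≠ 0 := by
  have h1 := hD.2.2.1 _ h
  obtain ⟨t, -, ht⟩ := exists_rep_pr hv
  rw [ht, map_smul] at h1
  intro h2
  rw [h2, smul_zero] at h1
  exact h1 rfl

theorem cone_or (hD : InvariantDomain Γ φ Ω) {y : V4} (hy : y ≠ 0) (h : pr (L y) ∈ Ω) :
    y ∈ cone L φ Ω ∨ (-1 : ℝ) • y ∈ cone L φ Ω := by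
  rcases (phi_ne hD (L_ne_zero L hy) (subset_closure h)).lt_or_gt with h1 | h1
  · refine Or.inr ⟨by simpa using h1, ?_⟩
    rwa [map_smul, pr_smul (L_ne_zero L hy) (by norm_num)]
  · exact Or.inl ⟨h1, h⟩

theorem cone_smul {y : V4} (hy : y ∈ cone L φ Ω) {t : ℝ} (ht : 0 < t) : t • y ∈ cone L φ Ω :=
  ⟨by rw [map_smul, map_smul]; exact mul_pos ht hy.1,
    by rw [map_smul, pr_smul (L_ne_zero L (cone_ne hy)) ht.ne']; exact hy.2⟩

theorem chart_of {S : Set P4} {v : V4} (h1 : 0 < φ v) (h2 : pr v ∈ S) : (φ v)⁻¹ • v ∈ chart φ S := by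
  have hv : v ≠ 0 := by
    rintro rfl
    simp at h1
  rw [mem_chart, pr_smul hv (inv_ne_zero h1.ne'), map_smul, smul_eq_mul, inv_mul_cancel₀ h1.ne']
  exact ⟨rfl, h2⟩

theorem comb_eq {v w : V4} (h1 : 0 < φ v) (h2 : 0 < φ w) :
    (φ v / (φ v + φ w)) • ((φ v)⁻¹ • v) + (φ w / (φ v + φ w)) • ((φ w)⁻¹ • w) =
      (φ v + φ w)⁻¹ • (v + w) := by
  rw [smul_smul, smul_smul, smul_add]
  congr 2 <;> field_simp

theorem cone_add (hD : InvariantDomain Γ φ Ω) {y z : V4} (hy : y ∈ cone L φ Ω)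
    (hz : z ∈ cone L φ Ω) : y + z ∈ cone L φ Ω := by
  have hp := add_pos hy.1 hz.1
  have h1 := hD.2.2.2.1 (chart_of hy.1 hy.2) (chart_of hz.1 hz.2)
    (div_pos hy.1 hp).le (div_pos hz.1 hp).le (by field_simp)
  rw [comb_eq hy.1 hz.1, mem_chart] at h1
  have h2 : 0 < φ (L (y + z)) := by rwa [map_add, map_add]
  refine ⟨h2, ?_⟩
  have h3 : L y + L z ≠ 0 := by
    intro h
    rw [map_add, h] at h2
    simp at h2
  rw [map_add, ← pr_smul h3 (inv_ne_zero hp.ne')]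
  exact h1.2

theorem cone_limit (hD : InvariantDomain Γ φ Ω) {p q : V4} (hp : p ≠ 0) {μ : ℝ} (hμ : |μ| < 1)
    (h : ∀ n : ℕ, p + μ ^ n • q ∈ cone L φ Ω) :
    0 < φ (L p) ∧ Tendsto (fun n : ℕ => pr (L (p + μ ^ n • q))) atTop (𝓝 (pr (L p))) := by
  have h1 : Tendsto (fun n : ℕ => p + μ ^ n • q) atTop (𝓝 p) := by
    simpa using ((tendsto_pow_atTop_nhds_zero_of_abs_lt_one hμ).smul_const q).const_add p
  have h2 := ((continuous_L L).tendsto _).comp h1
  have h3 := (continuousAt_pr (L_ne_zero L hp)).tendsto.comp h2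
  have h4 := (φ.continuous_of_finiteDimensional.tendsto _).comp h2
  refine ⟨lt_of_le_of_ne (ge_of_tendsto' h4 fun n => (h n).1.le) (phi_ne hD (L_ne_zero L hp) ?_).symm,
    h3⟩
  exact mem_closure_of_tendsto h3 (Eventually.of_forall fun n => (h n).2)

theorem cone_perturb (hΩ : IsOpen Ω) {y : V4} (hy : y ∈ cone L φ Ω) :
    ∃ t : ℝ, y + t • ![0, 0, 1, 0] ∈ cone L φ Ω ∧ y 2 ^ 2 < (y 2 + t) ^ 2 := by
  have h1 : Continuous fun t : ℝ => y + t • (![0, 0, 1, 0] : V4) := by fun_prop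
  have h2 : ∀ᶠ t : ℝ in 𝓝 0, y + t • (![0, 0, 1, 0] : V4) ∈ cone L φ Ω :=
    (h1.tendsto' 0 y (by simp)).eventually ((cone_open hΩ).mem_nhds hy)
  obtain ⟨δ, hδ, h3⟩ := Metric.eventually_nhds_iff.1 h2
  rcases le_total 0 (y 2) with h | h
  · refine ⟨δ / 2, h3 ?_, by nlinarith⟩
    rw [Real.dist_eq, sub_zero, abs_of_pos (by linarith)]
    linarith
  · refine ⟨-(δ / 2), h3 ?_, by nlinarith⟩
    rw [Real.dist_eq, sub_zero, abs_neg, abs_of_pos (by linarith)]
    linarith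

theorem Std.not_core_aux (h : Std L a a ψ) (hD : InvariantDomain ψ.range φ Ω)
    (hpos : ∀ y ∈ cone L φ Ω, dg a a 1 y ∈ cone L φ Ω) :
    ¬ CompactQuotient ψ.range (convexCore ψ.range φ Ω) := by
  intro hcq
  have ha := h.ha
  have ha0 : 0 < a := by linarith
  have hΩ := hD.2.1
  have hin : ∀ d y, y ≠ 0 → pr (L y) ∈ Ω → pr (L (act a a d y)) ∈ Ω := fun d y hy hy' => by
    rw [← h.hact d y hy]
    exact hD.2.2.2.2 _ ⟨d, rfl⟩ _ hy'
  have hneg : ∀ y ∈ cone L φ Ω, dg a a (-1) y ∈ cone L φ Ω := by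
    intro y hy
    rcases cone_or hD (dg_ne_zero ha0.ne' ha0.ne' (-1) (cone_ne hy))
      (hin (rr (-1)) y (cone_ne hy) hy.2) with h1 | h1
    · exact h1
    · exfalso
      have h2 := (hpos _ h1).1
      have e : dg a a 1 ((-1 : ℝ) • dg a a (-1) y) = (-1 : ℝ) • y := by
        have := dg_dg ha0.ne' ha0.ne' 1 (-1) y
        rw [add_neg_cancel, dg_zero] at this
        conv_rhs => rw [← this]
        apply ext4 <;> simp
      rw [e] at h2
      have h3 := hy.1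
      simp only [map_smul, smul_eq_mul] at h2
      linarith
  have hall : ∀ i : ℤ, ∀ y ∈ cone L φ Ω, dg a a i y ∈ cone L φ Ω := by
    intro i
    induction i using Int.induction_on with
    | zero => intro y hy; rwa [dg_zero]
    | succ n ih =>
      intro y hy
      rw [← dg_dg ha0.ne' ha0.ne']
      exact ih _ (hpos y hy)
    | pred n ih =>
      intro y hy
      rw [sub_eq_add_neg, ← dg_dg ha0.ne' ha0.ne']
      exact ih _ (hneg y hy)
  have hμ : |(a ^ 4)⁻¹| < 1 := by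
    rw [abs_of_pos (by positivity)]
    exact inv_lt_one_of_one_lt₀ (one_lt_pow₀ ha (by norm_num))
  have ev : ∀ n : ℕ, (-a) ^ (2 * n : ℤ) = a ^ (2 * n : ℤ) := fun n =>
    Even.neg_zpow (even_two_mul _) a
  have e2 : ∀ n : ℕ, a ^ (2 * n : ℤ) = a ^ n * a ^ n := fun n => by
    rw [two_mul, zpow_add₀ ha0.ne', zpow_natCast]
  have e4 : ∀ n : ℕ, ((a ^ 4)⁻¹) ^ n = (a ^ n * a ^ n * a ^ n * a ^ n)⁻¹ := fun n => by
    rw [inv_pow, ← pow_mul]
    congr 1
    ring
  have hplus : ∀ (y : V4) (n : ℕ), (![y 0, 0, y 2, 0] : V4) + ((a ^ 4)⁻¹) ^ n • ![0, y 1, 0, y 3] =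
      (a ^ n * a ^ n)⁻¹ • dg a a (2 * n) y := by
    intro y n
    have : a ^ n ≠ 0 := by positivity
    apply ext4 <;>
      simp only [Pi.add_apply, Pi.smul_apply, smul_eq_mul, dg0, dg1, dg2, dg3, _root_.zpow_neg, ev, e2,
        e4, cons_val_zero, cons_val_one, cons_val] <;> field_simp <;> simp
  have hminus : ∀ (y : V4) (n : ℕ), (![0, y 1, 0, y 3] : V4) + ((a ^ 4)⁻¹) ^ n • ![y 0, 0, y 2, 0] =
      (a ^ n * a ^ n)⁻¹ • dg a a (-(2 * n)) y := by
    intro y n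
    have : a ^ n ≠ 0 := by positivity
    apply ext4 <;>
      simp only [Pi.add_apply, Pi.smul_apply, smul_eq_mul, dg0, dg1, dg2, dg3, neg_neg,
        _root_.zpow_neg, ev, e2, e4, cons_val_zero, cons_val_one, cons_val] <;> field_simp <;> simp
  have cplus : ∀ y ∈ cone L φ Ω, ∀ n : ℕ,
      (![y 0, 0, y 2, 0] : V4) + ((a ^ 4)⁻¹) ^ n • ![0, y 1, 0, y 3] ∈ cone L φ Ω := fun y hy n => by
    rw [hplus]
    exact cone_smul (hall _ y hy) (by positivity)
  have cminus : ∀ y ∈ cone L φ Ω, ∀ n : ℕ,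
      (![0, y 1, 0, y 3] : V4) + ((a ^ 4)⁻¹) ^ n • ![y 0, 0, y 2, 0] ∈ cone L φ Ω := fun y hy n => by
    rw [hminus]
    exact cone_smul (hall _ y hy) (by positivity)
  have h0 : ∀ y ∈ cone L φ Ω, y 0 ≠ 0 := by
    intro y hy hy0
    obtain ⟨t, ht, ht2⟩ := cone_perturb hΩ hy
    set z : V4 := y + t • ![0, 0, 1, 0] with hz
    have z0 : z 0 = 0 := by
      show y 0 + t * 0 = 0
      rw [hy0, mul_zero, add_zero]
    have z2 : z 2 ≠ 0 := by
      have : z 2 = y 2 + t := by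
        show y 2 + t * 1 = _
        rw [mul_one]
      rw [this]
      intro h
      rw [h] at ht2
      nlinarith
    have p1 : (![z 0, 0, z 2, 0] : V4) ≠ 0 := fun h => z2 (congrFun h 2)
    have e : (![dg a a 1 z 0, 0, dg a a 1 z 2, 0] : V4) = (-a) • ![z 0, 0, z 2, 0] := by
      apply ext4 <;> simp [z0]
    have q1 := (cone_limit hD p1 hμ (cplus z ht)).1
    have q2 := (cone_limit hD (by rw [e]; exact smul_ne_zero (by linarith) p1) hμ
      (cplus _ (hpos z ht))).1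
    rw [e, map_smul, map_smul, smul_eq_mul] at q2
    nlinarith
  have h1 : ∀ y ∈ cone L φ Ω, y 1 ≠ 0 := by
    intro y hy
    have := hin (ss 0) y (cone_ne hy) hy.2
    rw [act_ss, dg_zero] at this
    rcases cone_or hD (sw_ne_zero (cone_ne hy)) this with h2 | h2
    · exact h0 _ h2
    · simpa using h0 _ h2
  have hrep : ∀ x ∈ Ω, ∃ y ∈ cone L φ Ω, pr (L y) = x := by
    intro x hx
    have hne := L_ne_zero L.symm x.rep_nonzero
    have e : pr (L (L.symm x.rep)) = x := by rw [L.apply_symm_apply, pr_rep]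
    rcases cone_or (L := L) hD hne (by rwa [e]) with h2 | h2
    · exact ⟨_, h2, e⟩
    · exact ⟨_, h2, by rw [map_smul, pr_smul (L_ne_zero L hne) (by norm_num), e]⟩
  have hcore : ∀ y ∈ cone L φ Ω, pr (L y) ∈ convexCore ψ.range φ Ω := by
    intro y hy
    have hy0 := cone_ne hy
    have p1 : (![y 0, 0, y 2, 0] : V4) ≠ 0 := fun h => h0 y hy (congrFun h 0)
    have p2 : (![0, y 1, 0, y 3] : V4) ≠ 0 := fun h => h1 y hy (congrFun h 1)
    obtain ⟨q1, t1⟩ := cone_limit hD p1 hμ (cplus y hy)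
    obtain ⟨q2, t2⟩ := cone_limit hD p2 hμ (cminus y hy)
    have l1 : pr (L ![y 0, 0, y 2, 0]) ∈ orbitalLimitSet ψ.range Ω := by
      refine ⟨_, hy.2, accPt_of_seq (fun n => ?_) (fun n e => ?_) t1⟩
      · refine mem_orbit_range.2 ⟨rr (2 * n), ?_⟩
        rw [h.hact _ _ hy0, hplus, map_smul, act_rr,
          pr_smul (L_ne_zero L (dg_ne_zero ha0.ne' ha0.ne' _ hy0)) (by positivity)]
      · obtain ⟨t, ht⟩ := pr_L_eq (cone_ne (cplus y hy n)) p1 e
        have := congrFun ht 1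
        simp [h1 y hy, ha0.ne'] at this
    have l2 : pr (L ![0, y 1, 0, y 3]) ∈ orbitalLimitSet ψ.range Ω := by
      refine ⟨_, hy.2, accPt_of_seq (fun n => ?_) (fun n e => ?_) t2⟩
      · refine mem_orbit_range.2 ⟨rr (-(2 * n)), ?_⟩
        rw [h.hact _ _ hy0, hminus, map_smul, act_rr,
          pr_smul (L_ne_zero L (dg_ne_zero ha0.ne' ha0.ne' _ hy0)) (by positivity)]
      · obtain ⟨t, ht⟩ := pr_L_eq (cone_ne (cminus y hy n)) p2 e
        have := congrFun ht 0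
        simp [h0 y hy, ha0.ne'] at this
    have hp := add_pos q1 q2
    have hm := (convex_convexHull ℝ (chart φ (orbitalLimitSet ψ.range Ω)))
      (subset_convexHull _ _ (chart_of q1 l1)) (subset_convexHull _ _ (chart_of q2 l2))
      (div_pos q1 hp).le (div_pos q2 hp).le (by field_simp)
    have e : L ![y 0, 0, y 2, 0] + L ![0, y 1, 0, y 3] = L y := by
      rw [← map_add]
      congr 1
      apply ext4 <;> simp
    rw [comb_eq q1 q2, e] at hm
    refine ⟨hy.2, _, hm, smul_ne_zero (inv_ne_zero hp.ne') (L_ne_zero L hy0), ?_⟩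
    rw [← pr_eq, pr_smul (L_ne_zero L hy0) (inv_ne_zero hp.ne')]
  let A : Set V4 := {v | L.symm v 0 ≠ 0 ∧ L.symm v 1 ≠ 0}
  let f : V4 → ℝ := fun v => (L.symm v 2 / L.symm v 0) ^ 2 + (L.symm v 3 / L.symm v 1) ^ 2
  have hc : ∀ k, Continuous fun v => L.symm v k := fun k =>
    (continuous_apply k).comp (continuous_L L.symm)
  have hA : IsOpen A :=
    (isOpen_ne_fun (hc 0) continuous_const).inter (isOpen_ne_fun (hc 1) continuous_const)
  have hs : ∀ v ∈ A, ∀ t : ℝ, t ≠ 0 → t • v ∈ A := by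
    rintro v ⟨v0, v1⟩ t ht
    refine ⟨?_, ?_⟩ <;> simp [*]
  have hf : ContinuousOn f A :=
    (((hc 2).continuousOn.div (hc 0).continuousOn fun v hv => hv.1).pow 2).add
      (((hc 3).continuousOn.div (hc 1).continuousOn fun v hv => hv.2).pow 2)
  have hfs : ∀ v, ∀ t : ℝ, t ≠ 0 → f (t • v) = f v := by
    intro v t ht
    simp only [f, map_smul, Pi.smul_apply, smul_eq_mul, mul_div_mul_left _ _ ht]
  have hfr : ∀ y : V4, y ≠ 0 → f (pr (L y)).rep = (y 2 / y 0) ^ 2 + (y 3 / y 1) ^ 2 := by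
    intro y hy
    obtain ⟨t, ht, e⟩ := exists_rep_pr (L_ne_zero L hy)
    rw [e, hfs _ t ht]
    simp only [f, L.symm_apply_apply]
  obtain ⟨x0, hx0⟩ := hD.1
  obtain ⟨y0, hy0, rfl⟩ := hrep x0 hx0
  obtain ⟨x, hx, hmax⟩ := exists_max_of_compactQuotient hcq ⟨_, hcore y0 hy0⟩
    (f := fun x => f x.rep)
    ((continuousOn_rep hA hs hf fun v _ t ht => hfs v t ht).mono (by
      intro x hx
      obtain ⟨y, hy, rfl⟩ := hrep x hx.1
      show (pr (L y)).rep ∈ A
      rw [rep_pr_mem hs (L_ne_zero L (cone_ne hy))]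
      exact ⟨by rw [L.symm_apply_apply]; exact h0 y hy, by rw [L.symm_apply_apply]; exact h1 y hy⟩))
    (by
      rintro _ ⟨d, rfl⟩ x hx
      obtain ⟨y, hy, rfl⟩ := hrep x hx.1
      have hy' := cone_ne hy
      have sq1 : ∀ i : ℤ, ((-a) ^ i) ^ 2 = (a ^ i) ^ 2 := fun i => by
        rw [← sq_abs, abs_zpow, abs_neg, abs_of_pos ha0]
      have ne1 : ∀ i : ℤ, (a ^ i) ^ 2 ≠ 0 := fun i => by positivity
      show f (ψ d • pr (L y)).rep = f (pr (L y)).rep
      rw [h.hact d y hy', hfr y hy']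
      obtain ⟨i, rfl | rfl⟩ := dcases d
      · rw [act_rr, hfr _ (dg_ne_zero ha0.ne' ha0.ne' _ hy')]
        simp only [dg0, dg1, dg2, dg3, div_pow, mul_pow, sq1, mul_div_mul_left _ _ (ne1 _)]
      · rw [act_ss, hfr _ (sw_ne_zero (dg_ne_zero ha0.ne' ha0.ne' _ hy'))]
        simp only [sw0, sw1, sw2, sw3, dg0, dg1, dg2, dg3, div_pow, mul_pow, sq1,
          mul_div_mul_left _ _ (ne1 _)]
        ring)
  obtain ⟨y, hy, rfl⟩ := hrep x hx.1
  obtain ⟨t, ht, ht2⟩ := cone_perturb hΩ hy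
  have h5 := hmax _ (hcore _ ht)
  simp only [hfr _ (cone_ne hy), hfr _ (cone_ne ht)] at h5
  have h6 : 0 < y 0 ^ 2 := by have := h0 y hy; positivity
  have h7 := div_lt_div_of_pos_right ht2 h6
  simp only [Pi.add_apply, Pi.smul_apply, smul_eq_mul, cons_val_zero, cons_val_one, cons_val,
    mul_zero, add_zero, mul_one, div_pow] at h5
  linarith

theorem Std.not_cc (h : Std L a a ψ) : ¬ CC ψ.range := by
  rintro ⟨-, -, φ, Ω, hD, -, hcq⟩
  have ha0 : 0 < a := by linarith [h.ha]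
  have hin : ∀ y ∈ cone L φ Ω, pr (L (dg a a 1 y)) ∈ Ω := fun y hy => by
    rw [← act_rr, ← h.hact _ y (cone_ne hy)]
    exact hD.2.2.2.2 _ ⟨_, rfl⟩ _ hy.2
  have hne : ∀ y ∈ cone L φ Ω, φ (L (dg a a 1 y)) ≠ 0 := fun y hy =>
    phi_ne hD (L_ne_zero L (dg_ne_zero ha0.ne' ha0.ne' _ (cone_ne hy))) (subset_closure (hin y hy))
  by_cases hpos : ∀ y ∈ cone L φ Ω, dg a a 1 y ∈ cone L φ Ω
  · exact h.not_core_aux hD hpos hcq
  · push Not at hpos
    obtain ⟨z, hz, hz'⟩ := hpos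
    have hz2 : φ (L (dg a a 1 z)) < 0 := by
      by_contra h1
      exact hz' ⟨lt_of_le_of_ne (not_lt.1 h1) (hne z hz).symm, hin z hz⟩
    refine h.swap.not_core_aux hD ?_ hcq
    intro y hy
    have hy' : tau y ∈ cone L φ Ω := hy
    have hy2 : φ (L (dg a a 1 (tau y))) < 0 := by
      by_contra h1
      have h2 := lt_of_le_of_ne (not_lt.1 h1) (hne _ hy').symm
      have h3 := hne _ (cone_add hD (cone_smul hy' (neg_pos.2 hz2)) (cone_smul hz h2))
      apply h3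
      have e : ∀ (s t : ℝ) (u v : V4), dg a a 1 (s • u + t • v) = s • dg a a 1 u + t • dg a a 1 v := by
        intro s t u v
        apply ext4 <;> simp <;> ring
      rw [e]
      simp only [map_add, map_smul, smul_eq_mul]
      ring
    show tau (dg a a 1 y) ∈ cone L φ Ω
    rw [tau_dg]
    refine ⟨by simpa using hy2, ?_⟩
    rw [map_smul, pr_smul (L_ne_zero L (dg_ne_zero ha0.ne' ha0.ne' _ (cone_ne hy'))) (by norm_num)]
    exact hin _ hy'

end Pool.Agent.P.MP_7d68c1_gt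
end

-- part Pool.Agent.P.MP_7d68c1_gt.Main
section

open scoped LinearAlgebra.Projectivization MatrixGroups Topology
open Matrix Filter Set DihedralGroup

namespace Pool.Agent.P.MP_7d68c1_gt

abbrev M4 := Matrix (Fin 4) (Fin 4) ℝ

theorem exists_eigen {G : M4} {m : ℝ} (hm : 0 < m) (h : (m • (1 : M4) - G).det < 0) :
    ∃ a : ℝ, 1 < a ∧ ∃ v : V4, v ≠ 0 ∧ G *ᵥ v = (m * a) • v := by
  have hc : Continuous fun u : ℝ => (m • (1 : M4) - u • G).det :=
    Continuous.matrix_det (by fun_prop)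
  have h0 : 0 < (m • (1 : M4) - (0 : ℝ) • G).det := by
    rw [zero_smul, sub_zero, det_smul, det_one]
    positivity
  have h1 : (m • (1 : M4) - (1 : ℝ) • G).det < 0 := by rwa [one_smul]
  obtain ⟨u, hu, hu0⟩ := intermediate_value_Ioo' (zero_le_one' ℝ) hc.continuousOn ⟨h1, h0⟩
  obtain ⟨v, hv, hv0⟩ := Matrix.exists_mulVec_eq_zero_iff.2 hu0
  refine ⟨u⁻¹, (one_lt_inv₀ hu.1).2 hu.2, v, hv, ?_⟩
  rw [sub_mulVec, smul_mulVec, one_mulVec, smul_mulVec, sub_eq_zero] at hv0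
  rw [mul_comm, mul_smul, hv0, smul_smul, inv_mul_cancel₀ hu.1.ne', one_smul]

/-- the open set of pairs of matrices -/
def Good (S T : M4) : Prop :=
  0 < (S * S).trace ∧ 0 < (T * T).trace ∧
    ((√((S * S).trace / 4 * ((T * T).trace / 4))) • (1 : M4) - S * T).det < 0 ∧
    ((√((S * S).trace / 4 * ((T * T).trace / 4))) • (1 : M4) - -(S * T)).det < 0

theorem isOpen_good : IsOpen {p : GL (Fin 4) ℝ × GL (Fin 4) ℝ | Good p.1 p.2} := by
  have h1 : Continuous fun p : GL (Fin 4) ℝ × GL (Fin 4) ℝ => (p.1 : M4) :=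
    Units.continuous_val.comp continuous_fst
  have h2 : Continuous fun p : GL (Fin 4) ℝ × GL (Fin 4) ℝ => (p.2 : M4) :=
    Units.continuous_val.comp continuous_snd
  have t1 := (h1.mul h1).matrix_trace
  have t2 := (h2.mul h2).matrix_trace
  have hm := ((t1.div_const 4).mul (t2.div_const 4)).sqrt.smul (continuous_const (y := (1 : M4)))
  exact (isOpen_lt continuous_const t1).inter ((isOpen_lt continuous_const t2).inter
    ((isOpen_lt (hm.sub (h1.mul h2)).matrix_det continuous_const).inter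
      (isOpen_lt (hm.sub (h1.mul h2).neg).matrix_det continuous_const)))

theorem sq_scalar {S : GL (Fin 4) ℝ} (h : (ProjGenLinGroup.mk (S * S) : PGL(4, ℝ)) = 1) :
    (S : M4) * S = (((S : M4) * S).trace / 4) • (1 : M4) := by
  rw [ProjGenLinGroup.mk_eq_one, GeneralLinearGroup.center_eq_range_scalar] at h
  obtain ⟨u, hu⟩ := h
  have h1 : (S : M4) * S = (u : ℝ) • (1 : M4) := by
    rw [← Units.val_mul, ← hu]
    simp [GeneralLinearGroup.coe_scalar, smul_one_eq_diagonal]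
  rw [h1]
  congr 1
  simp

theorem normal_form {S T : M4} {σ τ : ℝ} (hσ : 0 < σ) (hτ : 0 < τ) (hS : S * S = σ • (1 : M4))
    (hT : T * T = τ • (1 : M4)) (h1 : (√(σ * τ) • (1 : M4) - S * T).det < 0)
    (h2 : (√(σ * τ) • (1 : M4) - -(S * T)).det < 0) :
    ∃ (L : V4 ≃ₗ[ℝ] V4) (a c : ℝ), 1 < a ∧ 1 < c ∧
      (∀ y, (S * T) *ᵥ L y = √(σ * τ) • L (dg a c 1 y)) ∧ ∀ y, S *ᵥ L y = √σ • L (sw y) := by
  set m := √(σ * τ) with hmdef
  have hm : 0 < m := Real.sqrt_pos.2 (mul_pos hσ hτ)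
  have hm2 : m * m = σ * τ := Real.mul_self_sqrt (mul_pos hσ hτ).le
  set s := √σ with hsdef
  have hs : 0 < s := Real.sqrt_pos.2 hσ
  have hs2 : s * s = σ := Real.mul_self_sqrt hσ.le
  obtain ⟨a, ha, v, hv, hav⟩ := exists_eigen hm h1
  obtain ⟨c, hc, w, hw, hcw⟩ := exists_eigen hm h2
  have hcw' : (S * T) *ᵥ w = (m * -c) • w := by
    rw [neg_mulVec, neg_eq_iff_eq_neg] at hcw
    rw [hcw, mul_neg, neg_smul]
  have hSS : ∀ x : V4, S *ᵥ S *ᵥ x = σ • x := fun x => by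
    rw [mulVec_mulVec, hS, smul_mulVec, one_mulVec]
  have hflip : ∀ (x : V4) (l : ℝ), l ≠ 0 → (S * T) *ᵥ x = (m * l) • x →
      (S * T) *ᵥ (s⁻¹ • S *ᵥ x) = (m * l⁻¹) • (s⁻¹ • S *ᵥ x) := by
    intro x l hl hx
    have e : (S * T) * S * (S * T) = (σ * τ) • S := by
      calc (S * T) * S * (S * T) = S * (T * ((S * S) * T)) := by simp only [mul_assoc]
        _ = (σ * τ) • S := by
          rw [hS, smul_mul_assoc, one_mul, mul_smul_comm, hT, smul_smul, mul_smul_comm, mul_one]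
    have e2 := congrArg (fun A : M4 => A *ᵥ x) e
    simp only [← mulVec_mulVec _ (S * T * S), hx, mulVec_smul, smul_mulVec] at e2
    rw [← mulVec_mulVec] at e2
    have e3 : (S * T) *ᵥ S *ᵥ x = (m * l⁻¹) • S *ᵥ x := by
      have hml : m * l ≠ 0 := mul_ne_zero hm.ne' hl
      apply smul_right_injective _ hml
      simp only
      rw [e2, smul_smul, ← hm2]
      congr 1
      field_simp
    rw [mulVec_smul, e3, smul_comm]
  have hne : ∀ x : V4, x ≠ 0 → s⁻¹ • S *ᵥ x ≠ 0 := by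
    intro x hx
    refine smul_ne_zero (inv_ne_zero hs.ne') fun h => ?_
    have := hSS x
    rw [h, mulVec_zero] at this
    exact smul_ne_zero hσ.ne' hx this.symm
  let b : Fin 4 → V4 := ![v, s⁻¹ • S *ᵥ v, w, s⁻¹ • S *ᵥ w]
  let μ : Fin 4 → ℝ := ![m * a, m * a⁻¹, m * -c, m * (-c)⁻¹]
  have ha0 : 0 < a := by linarith
  have hc0 : 0 < c := by linarith
  have hb : ∀ i, (S * T) *ᵥ b i = μ i • b i := by
    intro i
    fin_cases i
    · exact hav
    · exact hflip v a ha0.ne' hav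
    · exact hcw'
    · exact hflip w (-c) (neg_ne_zero.2 hc0.ne') hcw'
  have hb0 : ∀ i, b i ≠ 0 := by
    intro i
    fin_cases i
    exacts [hv, hne v hv, hw, hne w hw]
  have hμ : StrictAnti (![m * a, m * a⁻¹, m * (-c)⁻¹, m * -c] : Fin 4 → ℝ) := by
    have i1 : a⁻¹ < 1 := inv_lt_one_of_one_lt₀ ha
    have i2 : c⁻¹ < 1 := inv_lt_one_of_one_lt₀ hc
    have i3 : 0 < a⁻¹ := inv_pos.2 ha0
    have i4 : 0 < c⁻¹ := inv_pos.2 hc0
    rw [Fin.strictAnti_iff_succ_lt]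
    intro i
    fin_cases i
    · show m * a⁻¹ < m * a
      exact mul_lt_mul_of_pos_left (by linarith) hm
    · show m * (-c)⁻¹ < m * a⁻¹
      rw [inv_neg]
      exact mul_lt_mul_of_pos_left (by linarith) hm
    · show m * -c < m * (-c)⁻¹
      rw [inv_neg]
      exact mul_lt_mul_of_pos_left (by linarith) hm
  have hμ' : Function.Injective μ := by
    have : μ = (![m * a, m * a⁻¹, m * (-c)⁻¹, m * -c] : Fin 4 → ℝ) ∘ Equiv.swap (2 : Fin 4) 3 := by
      apply ext4 <;> rfl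
    rw [this]
    exact hμ.injective.comp (Equiv.injective _)
  have hli : LinearIndependent ℝ b :=
    Module.End.eigenvectors_linearIndependent' (Matrix.toLin' (S * T)) μ hμ' b fun i =>
      ⟨Module.End.mem_eigenspace_iff.2 (by rw [Matrix.toLin'_apply, hb]), hb0 i⟩
  let B := basisOfLinearIndependentOfCardEqFinrank hli (by simp)
  have hL : ∀ y : V4, B.equivFun.symm y = y 0 • b 0 + y 1 • b 1 + y 2 • b 2 + y 3 • b 3 := by
    intro y
    rw [Module.Basis.equivFun_symm_apply, Fin.sum_univ_four]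
    simp only [B, coe_basisOfLinearIndependentOfCardEqFinrank]
  refine ⟨B.equivFun.symm, a, c, ha, hc, fun y => ?_, fun y => ?_⟩
  · rw [hL, hL]
    simp only [mulVec_add, mulVec_smul, hb, dg0, dg1, dg2, dg3, smul_add, smul_smul, zpow_one,
      _root_.zpow_neg]
    have m0 : μ 0 = m * a := rfl
    have m1 : μ 1 = m * a⁻¹ := rfl
    have m2 : μ 2 = m * -c := rfl
    have m3 : μ 3 = m * (-c)⁻¹ := rfl
    rw [m0, m1, m2, m3]
    module
  · have k1 : ∀ x : V4, S *ᵥ x = s • (s⁻¹ • S *ᵥ x) := fun x => by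
      rw [smul_smul, mul_inv_cancel₀ hs.ne', one_smul]
    have k2 : ∀ x : V4, S *ᵥ (s⁻¹ • S *ᵥ x) = s • x := fun x => by
      rw [mulVec_smul, hSS, smul_smul, ← hs2]
      congr 1
      field_simp
    have s0 : S *ᵥ b 0 = s • b 1 := k1 v
    have s1 : S *ᵥ b 1 = s • b 0 := k2 v
    have s2 : S *ᵥ b 2 = s • b 3 := k1 w
    have s3 : S *ᵥ b 3 = s • b 2 := k2 w
    rw [hL, hL]
    simp only [mulVec_add, mulVec_smul, s0, s1, s2, s3, sw0, sw1, sw2, sw3]
    module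

theorem std_of_good {ψ : DihedralGroup 0 →* PGL(4, ℝ)} {S T : GL (Fin 4) ℝ}
    (hS : ψ (ss 0) = ProjGenLinGroup.mk S) (hT : ψ (ss 1) = ProjGenLinGroup.mk T)
    (h : Good S T) : ∃ L a c, Std L a c ψ := by
  obtain ⟨g1, g2, g3, g4⟩ := h
  have hσ : 0 < ((S : M4) * S).trace / 4 := by positivity
  have hτ : 0 < ((T : M4) * T).trace / 4 := by positivity
  obtain ⟨L, a, c, ha, hc, h1, h2⟩ := normal_form hσ hτ
    (sq_scalar (by rw [map_mul, ← hS, ← map_mul, ss_mul_ss, sub_self, rr_zero, map_one]))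
    (sq_scalar (by rw [map_mul, ← hT, ← map_mul, ss_mul_ss, sub_self, rr_zero, map_one])) g3 g4
  have ha0 : a ≠ 0 := by linarith
  have hc0 : c ≠ 0 := by linarith
  have hr : ∀ y, y ≠ 0 → ψ (rr 1) • pr (L y) = pr (L (dg a c 1 y)) := by
    intro y hy
    have e : ψ (rr 1) = ProjGenLinGroup.mk (S * T) := by
      rw [map_mul, ← hS, ← hT, ← map_mul, ss_mul_ss, sub_zero]
    rw [e, mk_smul_pr _ (L_ne_zero L hy), Units.val_mul, h1,
      pr_smul (L_ne_zero L (dg_ne_zero ha0 hc0 _ hy)) (Real.sqrt_pos.2 (mul_pos hσ hτ)).ne']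
  have hs : ∀ y, y ≠ 0 → ψ (ss 0) • pr (L y) = pr (L (sw y)) := by
    intro y hy
    rw [hS, mk_smul_pr _ (L_ne_zero L hy), h2,
      pr_smul (L_ne_zero L (sw_ne_zero hy)) (Real.sqrt_pos.2 hσ).ne']
  rcases le_total c a with hca | hca
  · exact ⟨L, a, c, std_of ha hc.le hca hr hs⟩
  · exact ⟨_, c, a, std_of hc ha.le hca (swap_r ha0 hc0 hr) (swap_s hs)⟩

/-- the homomorphism from the infinite dihedral group given by a reflection and a rotation -/
def dih {G : Type} [Group G] (s g : G) (hs : s * s = 1) (hg : s * g * s = g⁻¹) :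
    DihedralGroup 0 →* G :=
  MonoidHom.mk' (fun d => match d with
    | r i => g ^ (show ℤ from i)
    | sr i => s * g ^ (show ℤ from i)) (by
    have hs' : s⁻¹ = s := inv_eq_of_mul_eq_one_right hs
    have key : ∀ i : ℤ, g ^ i * s = s * g ^ (-i) := by
      intro i
      have h1 : s * g⁻¹ * s⁻¹ = g := by
        rw [← hg, hs']
        calc s * (s * g * s) * s = (s * s) * g * (s * s) := by simp only [mul_assoc]
          _ = g := by rw [hs, one_mul, mul_one]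
      calc g ^ i * s = (s * g⁻¹ * s⁻¹) ^ i * s := by rw [h1]
        _ = s * g ^ (-i) := by
          rw [conj_zpow, _root_.inv_zpow', inv_mul_cancel_right]
    intro d e
    obtain ⟨i, rfl | rfl⟩ := dcases d <;> obtain ⟨j, rfl | rfl⟩ := dcases e
    · show g ^ (i + j) = g ^ i * g ^ j
      rw [_root_.zpow_add]
    · show s * g ^ (j - i) = g ^ i * (s * g ^ j)
      rw [← mul_assoc, key, mul_assoc, ← _root_.zpow_add, neg_add_eq_sub]
    · show s * g ^ (i + j) = s * g ^ i * g ^ j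
      rw [_root_.zpow_add, mul_assoc]
    · show g ^ (j - i) = s * g ^ i * (s * g ^ j)
      rw [mul_assoc, ← mul_assoc (g ^ i), key, ← mul_assoc, ← mul_assoc, hs, one_mul,
        ← _root_.zpow_add, neg_add_eq_sub])

theorem dih_rr {G : Type} [Group G] (s g : G) (hs : s * s = 1) (hg : s * g * s = g⁻¹) (i : ℤ) :
    dih s g hs hg (rr i) = g ^ i := rfl

theorem dih_ss {G : Type} [Group G] (s g : G) (hs : s * s = 1) (hg : s * g * s = g⁻¹) (i : ℤ) :
    dih s g hs hg (ss i) = s * g ^ i := rfl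

def Sm : M4 := !![0, 1, 0, 0; 1, 0, 0, 0; 0, 0, 0, 1; 0, 0, 1, 0]

noncomputable def Gm (a c : ℝ) : M4 := !![a, 0, 0, 0; 0, a⁻¹, 0, 0; 0, 0, -c, 0; 0, 0, 0, -c⁻¹]

theorem Sm_sq : Sm * Sm = 1 := by
  ext i j
  fin_cases i <;> fin_cases j <;> simp [Sm, Matrix.mul_apply, Fin.sum_univ_four]

theorem Gm_inv {a c : ℝ} (ha : a ≠ 0) (hc : c ≠ 0) : Gm a c * Gm a⁻¹ c⁻¹ = 1 := by
  ext i j
  fin_cases i <;> fin_cases j <;> simp [Gm, Matrix.mul_apply, Fin.sum_univ_four, ha, hc]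

theorem Gm_inv' {a c : ℝ} (ha : a ≠ 0) (hc : c ≠ 0) : Gm a⁻¹ c⁻¹ * Gm a c = 1 := by
  ext i j
  fin_cases i <;> fin_cases j <;> simp [Gm, Matrix.mul_apply, Fin.sum_univ_four, ha, hc]

theorem SGS (a c : ℝ) : Sm * Gm a c * Sm = Gm a⁻¹ c⁻¹ := by
  ext i j
  fin_cases i <;> fin_cases j <;> simp [Gm, Sm, Matrix.mul_apply, Fin.sum_univ_four]

def Sg : GL (Fin 4) ℝ := ⟨Sm, Sm, Sm_sq, Sm_sq⟩

noncomputable def Gg (a c : ℝ) (ha : a ≠ 0) (hc : c ≠ 0) : GL (Fin 4) ℝ :=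
  ⟨Gm a c, Gm a⁻¹ c⁻¹, Gm_inv ha hc, Gm_inv' ha hc⟩

noncomputable def rho (a c : ℝ) (ha : a ≠ 0) (hc : c ≠ 0) : DihedralGroup 0 →* PGL(4, ℝ) :=
  ProjGenLinGroup.mk.comp (dih Sg (Gg a c ha hc) (Units.ext Sm_sq) (Units.ext (SGS a c)))

theorem rho_ss0 (a c : ℝ) (ha : a ≠ 0) (hc : c ≠ 0) :
    rho a c ha hc (ss 0) = ProjGenLinGroup.mk Sg := by
  simp [rho, dih_ss]

theorem rho_ss1 (a c : ℝ) (ha : a ≠ 0) (hc : c ≠ 0) :
    rho a c ha hc (ss 1) = ProjGenLinGroup.mk (Sg * Gg a c ha hc) := by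
  simp [rho, dih_ss]

theorem rho_rr1 (a c : ℝ) (ha : a ≠ 0) (hc : c ≠ 0) :
    rho a c ha hc (rr 1) = ProjGenLinGroup.mk (Gg a c ha hc) := by
  simp [rho, dih_rr]

theorem rho_std {a c : ℝ} (ha : 1 < a) (hc : 1 ≤ c) (hca : c ≤ a) (ha0 : a ≠ 0) (hc0 : c ≠ 0) :
    Std (LinearEquiv.refl ℝ V4) a c (rho a c ha0 hc0) := by
  refine std_of ha hc hca (fun y hy => ?_) (fun y hy => ?_)
  · rw [rho_rr1, LinearEquiv.refl_apply, LinearEquiv.refl_apply, mk_smul_pr _ hy]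
    congr 1
    show Gm a c *ᵥ y = _
    apply ext4 <;> simp [Gm, mulVec, dotProduct, Fin.sum_univ_four, inv_neg]
  · rw [rho_ss0, LinearEquiv.refl_apply, LinearEquiv.refl_apply, mk_smul_pr _ hy]
    congr 1
    show Sm *ᵥ y = _
    apply ext4 <;> simp [Sm, mulVec, dotProduct, Fin.sum_univ_four]

theorem good_rho : Good Sm (Sm * Gm 2 2) := by
  have e1 : Sm * Gm 2 2 * (Sm * Gm 2 2) = 1 := by
    rw [← mul_assoc, SGS, Gm_inv' two_ne_zero two_ne_zero]
  have e2 : Sm * (Sm * Gm 2 2) = diagonal ![2, 2⁻¹, -2, -2⁻¹] := by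
    rw [← mul_assoc, Sm_sq, one_mul]
    ext i j
    fin_cases i <;> fin_cases j <;> simp [Gm]
  have e3 : √((1 : M4).trace / 4 * ((1 : M4).trace / 4)) = 1 := by simp
  unfold Good
  rw [Sm_sq, e1, e2, e3, one_smul, ← diagonal_one, diagonal_neg, diagonal_sub, diagonal_sub,
    det_diagonal, det_diagonal]
  refine ⟨by simp, by simp, ?_, ?_⟩ <;> simp [Fin.prod_univ_four] <;> norm_num

theorem main : ∃ Γ : Subgroup PGL(4, ℝ), CC Γ ∧
    ∃ (ρ : Γ →* PGL(4, ℝ)) (U : Set (Γ → PGL(4, ℝ))), IsOpen U ∧ ⇑ρ ∈ U ∧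
      (∀ ρ' : Γ →* PGL(4, ℝ), ⇑ρ' ∈ U → Function.Injective ρ' ∧ NaiveCC ρ'.range) ∧
      ¬ CC ρ.range := by
  have h1 : Std _ 2 1 (rho 2 1 two_ne_zero one_ne_zero) :=
    rho_std one_lt_two le_rfl one_le_two _ _
  have h0 : Std _ 2 2 (rho 2 2 two_ne_zero two_ne_zero) :=
    rho_std one_lt_two one_le_two le_rfl _ _
  let e := MonoidHom.ofInjective h1.injective
  have hrange : ∀ ρ' : (rho 2 1 two_ne_zero one_ne_zero).range →* PGL(4, ℝ),
      (ρ'.comp e.toMonoidHom).range = ρ'.range := by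
    intro ρ'
    ext x
    constructor
    · rintro ⟨d, rfl⟩
      exact ⟨e d, rfl⟩
    · rintro ⟨d, rfl⟩
      exact ⟨e.symm d, by simp⟩
  refine ⟨_, h1.cc one_lt_two, (rho 2 2 two_ne_zero two_ne_zero).comp e.symm.toMonoidHom,
    (fun f => (f (e (ss 0)), f (e (ss 1)))) ⁻¹'
      (Prod.map ProjGenLinGroup.mk ProjGenLinGroup.mk ''
        {p : GL (Fin 4) ℝ × GL (Fin 4) ℝ | Good p.1 p.2}), ?_, ?_, ?_, ?_⟩
  · exact ((isOpenMap_mk.prodMap isOpenMap_mk) _ isOpen_good).preimage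
      ((continuous_apply _).prodMk (continuous_apply _))
  · refine ⟨(Sg, Sg * Gg 2 2 two_ne_zero two_ne_zero), good_rho, ?_⟩
    simp [rho_ss0, rho_ss1]
  · rintro ρ' ⟨⟨S, T⟩, hST, h⟩
    obtain ⟨L, a, c, hstd⟩ := std_of_good (ψ := ρ'.comp e.toMonoidHom)
      (congrArg Prod.fst h).symm (congrArg Prod.snd h).symm hST
    refine ⟨?_, hrange ρ' ▸ hstd.naive⟩
    exact Function.Injective.of_comp_right (g := e) hstd.injective e.surjective
  · rw [← hrange]
    have : ((rho 2 2 two_ne_zero two_ne_zero).comp e.symm.toMonoidHom).comp e.toMonoidHom =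
        rho 2 2 two_ne_zero two_ne_zero := by
      ext d
      simp
    rw [this]
    exact h0.not_cc

end Pool.Agent.P.MP_7d68c1_gt
end
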