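import Pool.Agent.P.MP_7d68c1_gt.Defs
import Mathlib

-- part Pool.Agent.P.MP_7d68c1_gt.NBasic
section

open scoped LinearAlgebra.Projectivization MatrixGroups Topology
open Matrix Filter Set

namespace Pool.Agent.P.MP_7d68c1_gt.Six

abbrev V6 := Fin 6 → ℝ
abbrev P6 := ℙ ℝ (Fin 6 → ℝ)

open Classical in
/-- the projection, extended by a junk value at 0 -/
noncomputable def pr (v : V6) : P6 :=
  if h : v ≠ 0 then Projectivization.mk ℝ v h else Classical.arbitrary _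

theorem pr_eq {v : V6} (h : v ≠ 0) : pr v = Projectivization.mk ℝ v h := by
  simp [pr, h]

theorem pr_rep (x : P6) : pr x.rep = x := by
  rw [pr_eq x.rep_nonzero, Projectivization.mk_rep]

theorem pr_eq_iff {v w : V6} (hv : v ≠ 0) (hw : w ≠ 0) : pr v = pr w ↔ ∃ a : ℝ, a • w = v := by
  rw [pr_eq hv, pr_eq hw, Projectivization.mk_eq_mk_iff']

theorem pr_smul {v : V6} (hv : v ≠ 0) {t : ℝ} (ht : t ≠ 0) : pr (t • v) = pr v :=
  (pr_eq_iff (smul_ne_zero ht hv) hv).2 ⟨t, rfl⟩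

theorem exists_rep_pr {v : V6} (hv : v ≠ 0) : ∃ t : ℝ, t ≠ 0 ∧ (pr v).rep = t • v := by
  obtain ⟨a, ha⟩ := (pr_eq_iff (pr v).rep_nonzero hv).1 (pr_rep _)
  refine ⟨a, ?_, ha.symm⟩
  rintro rfl
  exact (pr v).rep_nonzero (by rw [← ha, zero_smul])

theorem continuous_mk' : Continuous (Projectivization.mk' ℝ : {v : V6 // v ≠ 0} → P6) :=
  continuous_coinduced_rng

theorem isOpen_P {S : Set P6} :
    IsOpen S ↔ IsOpen ((Projectivization.mk' ℝ : {v : V6 // v ≠ 0} → P6) ⁻¹' S) :=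
  isOpen_coinduced

theorem continuousOn_pr : ContinuousOn pr {v | v ≠ 0} := by
  rw [continuousOn_iff_continuous_domRestrict]
  have : ({v : V6 | v ≠ 0}.domRestrict pr) = (Projectivization.mk' ℝ : {v : V6 // v ≠ 0} → P6) := by
    funext v
    exact pr_eq v.2
  rw [this]
  exact continuous_mk'

theorem continuousAt_pr {v : V6} (hv : v ≠ 0) : ContinuousAt pr v :=
  continuousOn_pr.continuousAt (isOpen_ne.mem_nhds hv)

/-- a scale invariant open condition defines an open set -/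
theorem isOpen_rep {A : Set V6} (hA : IsOpen A) (hs : ∀ v ∈ A, ∀ t : ℝ, t ≠ 0 → t • v ∈ A) :
    IsOpen {x : P6 | x.rep ∈ A} := by
  rw [isOpen_P]
  have : (Projectivization.mk' ℝ : {v : V6 // v ≠ 0} → P6) ⁻¹' {x : P6 | x.rep ∈ A} =
      Subtype.val ⁻¹' A := by
    ext ⟨v, hv⟩
    obtain ⟨t, ht, h⟩ := exists_rep_pr hv
    simp only [mem_preimage, mem_ofPred_eq, Projectivization.mk'_eq_mk, ← pr_eq hv, h]
    constructor
    · intro h1
      have := hs _ h1 t⁻¹ (inv_ne_zero ht)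
      rwa [smul_smul, inv_mul_cancel₀ ht, one_smul] at this
    · intro h1
      exact hs _ h1 t ht
  rw [this]
  exact hA.preimage continuous_subtype_val

theorem isClosed_rep {A : Set V6} (hA : IsClosed A) (hs : ∀ v ∈ A, ∀ t : ℝ, t ≠ 0 → t • v ∈ A) :
    IsClosed {x : P6 | x.rep ∈ A} := by
  rw [← isOpen_compl_iff]
  have := isOpen_rep hA.isOpen_compl (fun v hv t ht h => hv (by
    have := hs _ h t⁻¹ (inv_ne_zero ht)
    rwa [smul_smul, inv_mul_cancel₀ ht, one_smul] at this))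
  exact this

theorem rep_pr_mem {A : Set V6} (hs : ∀ v ∈ A, ∀ t : ℝ, t ≠ 0 → t • v ∈ A) {v : V6} (hv : v ≠ 0) :
    (pr v).rep ∈ A ↔ v ∈ A := by
  obtain ⟨t, ht, h⟩ := exists_rep_pr hv
  rw [h]
  constructor
  · intro h1
    have := hs _ h1 t⁻¹ (inv_ne_zero ht)
    rwa [smul_smul, inv_mul_cancel₀ ht, one_smul] at this
  · intro h1
    exact hs _ h1 t ht

theorem isOpen_image_pr {W : Set V6} (hW : IsOpen W) (h0 : ∀ v ∈ W, v ≠ 0) : IsOpen (pr '' W) := by
  have h1 : IsOpen (⋃ t : ℝ, {v : V6 | t • v ∈ W}) :=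
    isOpen_iUnion fun t => hW.preimage (continuous_const_smul t)
  have h2 := isOpen_rep h1 (by
    intro v hv t ht
    simp only [mem_iUnion, mem_ofPred_eq] at hv ⊢
    obtain ⟨u, hu⟩ := hv
    exact ⟨u * t⁻¹, by rwa [smul_smul, mul_assoc, inv_mul_cancel₀ ht, mul_one]⟩)
  convert h2 using 1
  ext x
  simp only [mem_image, mem_iUnion, mem_ofPred_eq]
  constructor
  · rintro ⟨v, hv, rfl⟩
    obtain ⟨t, ht, h⟩ := exists_rep_pr (h0 v hv)
    exact ⟨t⁻¹, by rwa [h, smul_smul, inv_mul_cancel₀ ht, one_smul]⟩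
  · rintro ⟨t, ht⟩
    refine ⟨_, ht, ?_⟩
    have : t ≠ 0 := by
      rintro rfl
      exact h0 _ ht (zero_smul _ _)
    rw [pr_smul x.rep_nonzero this, pr_rep]

/-- a scale invariant function continuous on an open scale invariant set -/
theorem continuousOn_rep {A : Set V6} (hA : IsOpen A) (hs : ∀ v ∈ A, ∀ t : ℝ, t ≠ 0 → t • v ∈ A)
    {f : V6 → ℝ} (hf : ContinuousOn f A) (hfs : ∀ v ∈ A, ∀ t : ℝ, t ≠ 0 → f (t • v) = f v) :
    ContinuousOn (fun x : P6 => f x.rep) {x : P6 | x.rep ∈ A} := by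
  rw [continuousOn_open_iff (isOpen_rep hA hs)]
  intro U hU
  have h1 : IsOpen (A ∩ f ⁻¹' U) := (continuousOn_open_iff hA).1 hf U hU
  exact isOpen_rep h1 (fun v hv t ht => ⟨hs v hv.1 t ht, by
    simp only [mem_preimage]
    rw [hfs v hv.1 t ht]
    exact hv.2⟩)

instance : T2Space P6 := by
  let F : P6 → (Fin 6 → Fin 6 → ℝ) := fun x i j => x.rep i * x.rep j / (∑ k, x.rep k * x.rep k)
  have hpos : ∀ v : V6, v ≠ 0 → 0 < ∑ k, v k * v k := by
    intro v hv
    obtain ⟨i, hi⟩ := Function.ne_iff.1 hv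
    exact Finset.sum_pos' (fun k _ => mul_self_nonneg _) ⟨i, Finset.mem_univ _, mul_self_pos.2 hi⟩
  have hc : Continuous F := by
    refine continuous_pi fun i => continuous_pi fun j => ?_
    have := continuousOn_rep (A := {v | v ≠ 0}) isOpen_ne (fun v hv t ht => smul_ne_zero ht hv)
      (f := fun v => v i * v j / (∑ k, v k * v k))
      (ContinuousOn.div (by fun_prop) (by fun_prop) (fun v hv => (hpos v hv).ne'))
      (fun v hv t ht => by
        have h1 := (hpos v hv).ne'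
        have h2 : ∑ k, (t • v) k * (t • v) k = t * t * ∑ k, v k * v k := by
          rw [Finset.mul_sum]
          exact Finset.sum_congr rfl fun k _ => by simp only [Pi.smul_apply, smul_eq_mul]; ring
        show (t • v) i * (t • v) j / (∑ k, (t • v) k * (t • v) k) = v i * v j / (∑ k, v k * v k)
        rw [h2]
        generalize ∑ k, v k * v k = N at h1
        simp only [Pi.smul_apply, smul_eq_mul]
        field_simp)
    have h3 : {x : P6 | x.rep ∈ {v : V6 | v ≠ 0}} = univ :=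
      eq_univ_of_forall fun x => x.rep_nonzero
    rw [h3] at this
    exact continuousOn_univ.1 this
  refine T2Space.of_injective_continuous (f := F) ?_ hc
  intro x y hxy
  obtain ⟨i, hi⟩ := Function.ne_iff.1 x.rep_nonzero
  have hx := hpos _ x.rep_nonzero
  have hy := hpos _ y.rep_nonzero
  have h : ∀ j, x.rep i * x.rep j / (∑ k, x.rep k * x.rep k) =
      y.rep i * y.rep j / (∑ k, y.rep k * y.rep k) := fun j => congrFun (congrFun hxy i) j
  rw [← pr_rep x, ← pr_rep y, pr_eq_iff x.rep_nonzero y.rep_nonzero]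
  refine ⟨(∑ k, x.rep k * x.rep k) * y.rep i / (x.rep i * ∑ k, y.rep k * y.rep k), ?_⟩
  funext j
  have h1 := h j
  have hi' : x.rep i ≠ 0 := hi
  simp only [Pi.smul_apply, smul_eq_mul]
  generalize ∑ k, x.rep k * x.rep k = N at h1 hx
  generalize ∑ k, y.rep k * y.rep k = M at h1 hy
  field_simp at h1 ⊢
  linarith

theorem mulVec_ne_zero (g : GL (Fin 6) ℝ) {v : V6} (hv : v ≠ 0) :
    (g : Matrix (Fin 6) (Fin 6) ℝ) *ᵥ v ≠ 0 :=
  (smul_ne_zero_iff_ne g).2 hv

theorem mk_smul_pr (g : GL (Fin 6) ℝ) {v : V6} (hv : v ≠ 0) :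
    (ProjGenLinGroup.mk g : PGL(6, ℝ)) • pr v = pr ((g : Matrix (Fin 6) (Fin 6) ℝ) *ᵥ v) := by
  rw [pr_eq hv, pr_eq (mulVec_ne_zero g hv)]
  rfl

theorem continuous_orbit {v : V6} (hv : v ≠ 0) : Continuous fun h : PGL(6, ℝ) => h • pr v := by
  rw [continuous_coinduced_dom]
  have : ((fun h : PGL(6, ℝ) => h • pr v) ∘ ProjGenLinGroup.mk) =
      fun g : GL (Fin 6) ℝ => pr ((g : Matrix (Fin 6) (Fin 6) ℝ) *ᵥ v) := by
    funext g
    exact mk_smul_pr g hv
  rw [this]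
  refine continuousOn_pr.comp_continuous ?_ (fun g => mulVec_ne_zero g hv)
  exact Continuous.matrix_mulVec Units.continuous_val continuous_const

instance : IsTopologicalGroup PGL(6, ℝ) :=
  QuotientGroup.instIsTopologicalGroup (Subgroup.center (GL (Fin 6) ℝ))

theorem isOpenMap_mk : IsOpenMap (ProjGenLinGroup.mk : GL (Fin 6) ℝ → PGL(6, ℝ)) :=
  QuotientGroup.isOpenMap_coe (N := Subgroup.center (GL (Fin 6) ℝ))

theorem mem_chart {φ : V6 →ₗ[ℝ] ℝ} {S : Set P6} {v : V6} : v ∈ chart φ S ↔ φ v = 1 ∧ pr v ∈ S := by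
  unfold chart
  simp only [mem_ofPred_eq]
  constructor
  · rintro ⟨h1, hv, h2⟩
    exact ⟨h1, by rwa [pr_eq hv]⟩
  · rintro ⟨h1, h2⟩
    have hv : v ≠ 0 := by
      rintro rfl
      simp at h1
    exact ⟨h1, hv, by rwa [pr_eq hv] at h2⟩

theorem chart_image {φ : V6 →ₗ[ℝ] ℝ} {W : Set V6} (hφ : ∀ v ∈ W, 0 < φ v)
    (hs : ∀ v ∈ W, ∀ t : ℝ, 0 < t → t • v ∈ W) : chart φ (pr '' W) = {v | φ v = 1} ∩ W := by
  ext v
  rw [mem_chart]
  simp only [mem_image, mem_inter_iff, mem_ofPred_eq]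
  constructor
  · rintro ⟨h1, w, hw, h2⟩
    refine ⟨h1, ?_⟩
    have hv : v ≠ 0 := by
      rintro rfl
      simp at h1
    have hw0 : w ≠ 0 := by
      rintro rfl
      simpa using hφ _ hw
    obtain ⟨a, ha⟩ := (pr_eq_iff hv hw0).1 h2.symm
    have h3 : a * φ w = 1 := by rw [← h1, ← ha, map_smul, smul_eq_mul]
    have h4 : 0 < a := by
      have := hφ w hw
      by_contra h
      push Not at h
      nlinarith
    rw [← ha]
    exact hs w hw a h4
  · rintro ⟨h1, h2⟩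
    exact ⟨h1, v, h2, rfl⟩

theorem convex_chart_image {φ : V6 →ₗ[ℝ] ℝ} {W : Set V6} (hφ : ∀ v ∈ W, 0 < φ v)
    (hs : ∀ v ∈ W, ∀ t : ℝ, 0 < t → t • v ∈ W) (hc : Convex ℝ W) :
    Convex ℝ (chart φ (pr '' W)) := by
  rw [chart_image hφ hs]
  exact (convex_hyperplane φ.isLinear 1).inter hc

theorem compactQuotient_of {Γ : Subgroup PGL(6, ℝ)} {C K : Set P6} (hK : IsCompact K) (hKC : K ⊆ C)
    (h : ∀ x ∈ C, ∃ g ∈ Γ, g • x ∈ K) : CompactQuotient Γ C := by
  constructor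
  have h1 : IsCompact ((Subtype.val : C → P6) ⁻¹' K) := by
    rw [Topology.IsEmbedding.subtypeVal.isCompact_iff, Subtype.image_preimage_coe,
      inter_eq_right.2 hKC]
    exact hK
  have h2 := h1.image (continuous_quotient_mk' (s :=
    (MulAction.orbitRel Γ P6).comap (Subtype.val : C → _)))
  convert h2 using 1
  symm
  apply eq_univ_of_forall
  intro q
  induction q using Quotient.ind with
  | _ x =>
    obtain ⟨g, hg, hgx⟩ := h x.1 x.2
    refine ⟨⟨g • x.1, hKC hgx⟩, hgx, ?_⟩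
    apply Quotient.sound
    exact ⟨⟨g, hg⟩, rfl⟩

theorem exists_max_of_compactQuotient {Γ : Subgroup PGL(6, ℝ)} {C : Set P6}
    (h : CompactQuotient Γ C) (hne : C.Nonempty) {f : P6 → ℝ} (hf : ContinuousOn f C)
    (hinv : ∀ g ∈ Γ, ∀ x ∈ C, f (g • x) = f x) : ∃ x ∈ C, ∀ y ∈ C, f y ≤ f x := by
  unfold CompactQuotient at h
  let F : Quotient ((MulAction.orbitRel Γ P6).comap (Subtype.val : C → _)) → ℝ :=
    Quotient.lift (fun x : C => f x.1) (by
      rintro x y ⟨⟨g, hg⟩, hxy⟩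
      have : g • y.1 = x.1 := hxy
      show f x.1 = f y.1
      rw [← this, hinv g hg _ y.2])
  have hF : Continuous F := (continuousOn_iff_continuous_domRestrict.1 hf).quotient_lift _
  obtain ⟨x0, hx0⟩ := hne
  obtain ⟨q, -, hq⟩ := isCompact_univ.exists_isMaxOn ⟨Quotient.mk _ ⟨x0, hx0⟩, mem_univ _⟩
    hF.continuousOn
  induction q using Quotient.ind with
  | _ x =>
    refine ⟨x.1, x.2, fun y hy => ?_⟩
    have h1 : F (Quotient.mk _ ⟨y, hy⟩) ≤ F (Quotient.mk _ x) := hq (mem_univ _)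
    exact h1

end Pool.Agent.P.MP_7d68c1_gt.Six
end

-- part Pool.Agent.P.MP_7d68c1_gt.NGroup
section

open scoped MatrixGroups Topology Pointwise
open Matrix Filter Set

namespace Pool.Agent.P.MP_7d68c1_gt.Six

abbrev V3 := Fin 3 → ℝ
abbrev M3 := Matrix (Fin 3) (Fin 3) ℝ

theorem ext3 {v w : V3} (h0 : v 0 = w 0) (h1 : v 1 = w 1) (h2 : v 2 = w 2) : v = w := by
  funext i
  fin_cases i
  exacts [h0, h1, h2]

/-- the Lorentzian form -/
def Bf (v w : V3) : ℝ := v 0 * w 0 + v 1 * w 1 - 3 * (v 2 * w 2)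

/-- the open future cone -/
def Cn : Set V3 := {v | 0 < v 2 ∧ Bf v v < 0}

def m1 : M3 := !![1, 0, 0; 0, -1, 0; 0, 0, 1]
def m2 : M3 := !![0, 1, 0; 1, 0, 0; 0, 0, 1]
def m3 : M3 := !![-2, 0, 3; 0, 1, 0; -1, 0, 2]

theorem m1_sq : m1 * m1 = 1 := by
  ext i j
  fin_cases i <;> fin_cases j <;> simp [m1, Matrix.mul_apply, Fin.sum_univ_three]

theorem m2_sq : m2 * m2 = 1 := by
  ext i j
  fin_cases i <;> fin_cases j <;> simp [m2, Matrix.mul_apply, Fin.sum_univ_three]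

theorem m3_sq : m3 * m3 = 1 := by
  ext i j
  fin_cases i <;> fin_cases j <;> simp [m3, Matrix.mul_apply, Fin.sum_univ_three] <;> norm_num

def u1 : GL (Fin 3) ℝ := ⟨m1, m1, m1_sq, m1_sq⟩
def u2 : GL (Fin 3) ℝ := ⟨m2, m2, m2_sq, m2_sq⟩
def u3 : GL (Fin 3) ℝ := ⟨m3, m3, m3_sq, m3_sq⟩

/-- the reflection triangle group (2,4,6) -/
def GG : Subgroup (GL (Fin 3) ℝ) := Subgroup.closure {u1, u2, u3}

def s1 : GG := ⟨u1, Subgroup.subset_closure (by simp)⟩
def s2 : GG := ⟨u2, Subgroup.subset_closure (by simp)⟩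
def s3 : GG := ⟨u3, Subgroup.subset_closure (by simp)⟩

/-- the matrix of a group element -/
def mt (g : GG) : M3 := (g.1 : M3)

theorem mt_mul (g h : GG) : mt (g * h) = mt g * mt h := rfl
theorem mt_one : mt 1 = 1 := rfl
theorem mt_s1 : mt s1 = m1 := rfl
theorem mt_s2 : mt s2 = m2 := rfl
theorem mt_s3 : mt s3 = m3 := rfl
theorem smul_eq (g : GG) (v : V3) : g • v = mt g *ᵥ v := rfl
theorem mt_inj {g h : GG} (e : mt g = mt h) : g = h := Subtype.ext (Units.ext e)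

theorem g_smul (g : GG) (t : ℝ) (v : V3) : g • (t • v) = t • (g • v) := by
  rw [smul_eq, smul_eq, mulVec_smul]

theorem s1_smul (v : V3) : s1 • v = ![v 0, -v 1, v 2] := by
  rw [smul_eq, mt_s1]
  apply ext3 <;> simp [m1, mulVec, dotProduct, Fin.sum_univ_three]

theorem s2_smul (v : V3) : s2 • v = ![v 1, v 0, v 2] := by
  rw [smul_eq, mt_s2]
  apply ext3 <;> simp [m2, mulVec, dotProduct, Fin.sum_univ_three]

theorem s3_smul (v : V3) : s3 • v = ![-2 * v 0 + 3 * v 2, v 1, -v 0 + 2 * v 2] := by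
  rw [smul_eq, mt_s3]
  apply ext3 <;> simp [m3, mulVec, dotProduct, Fin.sum_univ_three]

theorem s1_sq : s1 * s1 = 1 := mt_inj m1_sq
theorem s2_sq : s2 * s2 = 1 := mt_inj m2_sq
theorem s3_sq : s3 * s3 = 1 := mt_inj m3_sq

theorem g_ext {g h : GG} (e : ∀ v : V3, g • v = h • v) : g = h := by
  apply mt_inj
  ext i j
  have := congrFun (e (Pi.single j 1)) i
  simpa [smul_eq] using this

theorem rel13 : (s1 * s3) ^ 2 = 1 := by
  apply g_ext
  intro v
  simp only [pow_succ, pow_zero, one_mul, mul_smul, one_smul, s1_smul, s3_smul]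
  apply ext3 <;> simp <;> ring

theorem rel12 : (s1 * s2) ^ 4 = 1 := by
  apply g_ext
  intro v
  simp only [pow_succ, pow_zero, one_mul, mul_smul, one_smul, s1_smul, s2_smul]
  apply ext3 <;> simp

theorem rel32 : (s3 * s2) ^ 6 = 1 := by
  apply g_ext
  intro v
  simp only [pow_succ, pow_zero, one_mul, mul_smul, one_smul, s3_smul, s2_smul]
  apply ext3 <;> simp <;> ring

theorem g_ind {p : GG → Prop} (h0 : p 1) (h1 : ∀ g, p g → p (s1 * g)) (h2 : ∀ g, p g → p (s2 * g))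
    (h3 : ∀ g, p g → p (s3 * g)) (g : GG) : p g := by
  obtain ⟨g, hg⟩ := g
  induction hg using Subgroup.closure_induction_left with
  | one => exact h0
  | mul_left x hx y hy ih =>
    rcases hx with rfl | rfl | rfl
    exacts [h1 _ ih, h2 _ ih, h3 _ ih]
  | inv_mul_cancel x hx y hy ih =>
    rcases hx with rfl | rfl | rfl
    exacts [h1 _ ih, h2 _ ih, h3 _ ih]

theorem Bf_smul (g : GG) : ∀ v w : V3, Bf (g • v) (g • w) = Bf v w := by
  induction g using g_ind with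
  | h0 => intro v w; simp
  | h1 g ih => intro v w; rw [← ih v w, mul_smul, mul_smul, s1_smul, s1_smul]; simp [Bf]
  | h2 g ih => intro v w; rw [← ih v w, mul_smul, mul_smul, s2_smul, s2_smul]; simp [Bf]; ring
  | h3 g ih => intro v w; rw [← ih v w, mul_smul, mul_smul, s3_smul, s3_smul]; simp [Bf]; ring

theorem Cn_smul (g : GG) : ∀ v ∈ Cn, g • v ∈ Cn := by
  induction g using g_ind with
  | h0 => intro v hv; simpa using hv
  | h1 g ih =>
    intro v hv
    refine ⟨?_, by rw [Bf_smul]; exact hv.2⟩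
    rw [mul_smul, s1_smul]
    exact (ih v hv).1
  | h2 g ih =>
    intro v hv
    refine ⟨?_, by rw [Bf_smul]; exact hv.2⟩
    rw [mul_smul, s2_smul]
    exact (ih v hv).1
  | h3 g ih =>
    intro v hv
    refine ⟨?_, by rw [Bf_smul]; exact hv.2⟩
    rw [mul_smul, s3_smul]
    obtain ⟨a, b⟩ := ih v hv
    simp only [Bf] at b
    show 0 < -(g • v) 0 + 2 * (g • v) 2
    nlinarith [mul_self_nonneg ((g • v) 1)]

theorem mt_int (g : GG) : ∀ j i, ∃ k : ℤ, mt g i j = k := by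
  have key : ∀ j, ∀ i, ∃ k : ℤ, (g • (Pi.single j 1 : V3)) i = k := by
    intro j
    induction g using g_ind with
    | h0 =>
      intro i
      by_cases h : i = j
      · exact ⟨1, by simp [h]⟩
      · exact ⟨0, by simp [h]⟩
    | h1 g ih =>
      obtain ⟨a, ha⟩ := ih 0
      obtain ⟨b, hb⟩ := ih 1
      obtain ⟨c, hc⟩ := ih 2
      intro i
      rw [mul_smul, s1_smul, ha, hb, hc]
      fin_cases i
      exacts [⟨a, rfl⟩, ⟨-b, by simp⟩, ⟨c, rfl⟩]
    | h2 g ih =>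
      obtain ⟨a, ha⟩ := ih 0
      obtain ⟨b, hb⟩ := ih 1
      obtain ⟨c, hc⟩ := ih 2
      intro i
      rw [mul_smul, s2_smul, ha, hb, hc]
      fin_cases i
      exacts [⟨b, rfl⟩, ⟨a, rfl⟩, ⟨c, rfl⟩]
    | h3 g ih =>
      obtain ⟨a, ha⟩ := ih 0
      obtain ⟨b, hb⟩ := ih 1
      obtain ⟨c, hc⟩ := ih 2
      intro i
      rw [mul_smul, s3_smul, ha, hb, hc]
      fin_cases i
      exacts [⟨-2 * a + 3 * c, by simp⟩, ⟨b, rfl⟩, ⟨-a + 2 * c, by simp⟩]
  intro j i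
  obtain ⟨k, hk⟩ := key j i
  exact ⟨k, by simpa [smul_eq] using hk⟩

theorem continuous_Bf : Continuous fun v : V3 => Bf v v := by
  unfold Bf
  fun_prop

theorem isOpen_Cn : IsOpen Cn :=
  (isOpen_lt continuous_const (continuous_apply 2)).inter (isOpen_lt continuous_Bf continuous_const)

theorem Cn_abs {v : V3} (hv : v ∈ Cn) (i : Fin 3) : |v i| ≤ 2 * v 2 := by
  obtain ⟨a, b⟩ := hv
  simp only [Bf] at b
  rw [abs_le]
  fin_cases i
  · constructor <;> simp only [Fin.zero_eta] <;> nlinarith [mul_self_nonneg (v 1)]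
  · constructor <;> simp only [Fin.mk_one] <;> nlinarith [mul_self_nonneg (v 0)]
  · constructor <;> simp only [Fin.reduceFinMk] <;> linarith

theorem Cn_pos_smul {v : V3} (hv : v ∈ Cn) {t : ℝ} (ht : 0 < t) : t • v ∈ Cn := by
  refine ⟨mul_pos ht hv.1, ?_⟩
  have : Bf (t • v) (t • v) = t * t * Bf v v := by simp [Bf]; ring
  rw [this]
  exact mul_neg_of_pos_of_neg (mul_pos ht ht) hv.2

theorem Bf_neg {v w : V3} (hv : v ∈ Cn) (hw : w ∈ Cn) : Bf v w < 0 := by
  obtain ⟨a, b⟩ := hv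
  obtain ⟨c, d⟩ := hw
  simp only [Bf] at b d ⊢
  by_contra h
  push Not at h
  have h1 : 3 * (v 2 * w 2) ≤ v 0 * w 0 + v 1 * w 1 := by linarith
  have h2 : 0 < 3 * (v 2 * w 2) := by positivity
  have h3 : (3 * (v 2 * w 2)) ^ 2 ≤ (v 0 * w 0 + v 1 * w 1) ^ 2 := by gcongr
  have h4 : (v 0 * v 0 + v 1 * v 1) * (w 0 * w 0 + w 1 * w 1) < (3 * (v 2 * v 2)) * (3 * (w 2 * w 2)) :=
    mul_lt_mul'' (by linarith) (by linarith) (by nlinarith) (by nlinarith)
  nlinarith [mul_self_nonneg (v 0 * w 1 - v 1 * w 0)]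

theorem Cn_add {v w : V3} (hv : v ∈ Cn) (hw : w ∈ Cn) : v + w ∈ Cn := by
  refine ⟨add_pos hv.1 hw.1, ?_⟩
  have : Bf (v + w) (v + w) = Bf v v + 2 * Bf v w + Bf w w := by simp [Bf]; ring
  rw [this]
  linarith [hv.2, hw.2, Bf_neg hv hw]

theorem Cn_ne {v : V3} (hv : v ∈ Cn) : v ≠ 0 := by
  rintro rfl
  simpa using hv.1

/-- the base vector -/
def ee : V3 := ![0, 0, 1]

theorem ee_mem : ee ∈ Cn := ⟨by simp [ee], by simp [ee, Bf]⟩

theorem finite_le {v : V3} (hv : v ∈ Cn) (R : ℝ) : {g : GG | (g • v) 2 ≤ R}.Finite := by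
  obtain ⟨ε, hε, hb⟩ := Metric.isOpen_iff.1 isOpen_Cn v hv
  have hp : ∀ (j : Fin 3) (t : ℝ), |t| < ε → v + t • (Pi.single j 1 : V3) ∈ Cn := by
    intro j t ht
    apply hb
    rw [mem_ball_iff_norm, add_sub_cancel_left, norm_smul, Pi.norm_single, norm_one, mul_one]
    exact ht
  have hfin : {x : ℝ | (∃ k : ℤ, x = k) ∧ |x| ≤ 8 * R / ε}.Finite := by
    refine ((Set.finite_Icc (-⌈8 * R / ε⌉) ⌈8 * R / ε⌉).image (fun k : ℤ => (k : ℝ))).subset ?_
    rintro _ ⟨⟨k, rfl⟩, hk⟩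
    have h1 := abs_le.1 (hk.trans (Int.le_ceil _))
    exact ⟨k, ⟨by exact_mod_cast h1.1, by exact_mod_cast h1.2⟩, rfl⟩
  have h2 : {A : M3 | ∀ i j, A i j ∈ {x : ℝ | (∃ k : ℤ, x = k) ∧ |x| ≤ 8 * R / ε}}.Finite :=
    Set.Finite.pi' (t := fun _ => {r : V3 | ∀ j, r j ∈ {x : ℝ | (∃ k : ℤ, x = k) ∧ |x| ≤ 8 * R / ε}})
      fun _ => Set.Finite.pi' fun _ => hfin
  refine (h2.preimage (f := mt) fun g _ h _ e => mt_inj e).subset ?_
  intro g hg i j
  refine ⟨mt_int g j i, ?_⟩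
  have hg' : (g • v) 2 ≤ R := hg
  have e : ∀ (t : ℝ) (k : Fin 3), (g • (v + t • (Pi.single j 1 : V3))) k = (g • v) k + t * mt g k j := by
    intro t k
    simp [smul_eq, mulVec_smul]
  have a1 := Cn_smul g _ (hp j (ε / 2) (by rw [abs_of_pos] <;> linarith))
  have a2 := Cn_smul g _ (hp j (-(ε / 2)) (by rw [abs_neg, abs_of_pos] <;> linarith))
  have b1 := abs_le.1 (Cn_abs a1 i)
  have b2 := abs_le.1 (Cn_abs a2 i)
  simp only [e] at b1 b2
  rw [le_div_iff₀ hε, ← abs_of_pos hε, ← abs_mul, abs_le]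
  have hR : 0 ≤ R := (Cn_smul g v hv).1.le.trans hg'
  constructor <;> nlinarith [b1.1, b1.2, b2.1, b2.2]

theorem descent {v : V3} (hv : v ∈ Cn) : ∃ g : GG, |(g • v) 0| ≤ (g • v) 2 ∧ |(g • v) 1| ≤ (g • v) 2 := by
  obtain ⟨g, hg, hmin⟩ := Set.exists_min_image _ (fun g : GG => (g • v) 2) (finite_le hv (v 2))
    ⟨1, by simp⟩
  have key : ∀ h : GG, (g • v) 2 ≤ (h • g • v) 2 := by
    intro h
    rw [← mul_smul]
    by_contra h1
    push Not at h1
    exact absurd (hmin (h * g) (h1.le.trans hg)) (not_le.2 h1)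
  have k1 := key s3
  have k2 := key (s3 * s2 * s1 * s2)
  have k3 := key (s3 * s2)
  have k4 := key (s3 * s2 * s1)
  simp only [mul_smul, s1_smul, s2_smul, s3_smul, cons_val_zero, cons_val_one, cons_val] at k1 k2 k3 k4
  exact ⟨g, abs_le.2 ⟨by linarith, by linarith⟩, abs_le.2 ⟨by linarith, by linarith⟩⟩

/-- a hyperbolic element with axis y = 0 -/
def g0 : GG := s3 * s2 * s1 * s2

theorem g0_smul (v : V3) : g0 • v = ![2 * v 0 + 3 * v 2, v 1, v 0 + 2 * v 2] := by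
  simp only [g0, mul_smul, s1_smul, s2_smul, s3_smul]
  apply ext3 <;> simp

theorem g0_inv_smul (v : V3) : g0⁻¹ • v = ![2 * v 0 - 3 * v 2, v 1, -v 0 + 2 * v 2] := by
  rw [inv_smul_eq_iff, g0_smul]
  apply ext3 <;> simp <;> ring

/-- the cone as a set with an action -/
def Cs : SubMulAction GG V3 := ⟨Cn, fun g _ hv => Cn_smul g _ hv⟩

theorem free_two : ∃ f : FreeGroup (Fin 2) →* GG, Function.Injective f := by
  let a : Fin 2 → GG := ![g0 * g0, s2 * (g0 * g0) * s2]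
  let X : Fin 2 → Set Cs := ![{v | 5 * v.1 2 < 4 * v.1 0}, {v | 5 * v.1 2 < 4 * v.1 1}]
  let Y : Fin 2 → Set Cs := ![{v | 5 * v.1 2 < -4 * v.1 0}, {v | 5 * v.1 2 < -4 * v.1 1}]
  have hd : ∀ (v : Cs) (σ τ : ℝ), σ * σ = 16 → τ * τ = 16 → 5 * v.1 2 < σ * v.1 0 →
      5 * v.1 2 < τ * v.1 1 → False := by
    rintro ⟨v, a, b⟩ σ τ h1 h2 h3 h4
    simp only [Bf] at b h3 h4
    have k1 : (5 * v 2) ^ 2 ≤ (σ * v 0) ^ 2 := by gcongr
    have k2 : (5 * v 2) ^ 2 ≤ (τ * v 1) ^ 2 := by gcongr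
    have k3 : (σ * v 0) ^ 2 = 16 * (v 0 * v 0) := by rw [← h1]; ring
    have k4 : (τ * v 1) ^ 2 = 16 * (v 1 * v 1) := by rw [← h2]; ring
    nlinarith
  have s2i : s2⁻¹ = s2 := inv_eq_of_mul_eq_one_right s2_sq
  refine ⟨FreeGroup.lift a, FreeGroup.injective_lift_of_ping_pong a X Y ?_ ?_ ?_ ?_ ?_ ?_⟩
  · intro i
    fin_cases i
    · exact ⟨⟨![3, 0, 2], by simp, by simp [Bf]; norm_num⟩, by simp [X]; norm_num⟩
    · exact ⟨⟨![0, 3, 2], by simp, by simp [Bf]; norm_num⟩, by simp [X]; norm_num⟩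
  · intro i j hij
    fin_cases i <;> fin_cases j
    · exact absurd rfl hij
    · exact Set.disjoint_left.2 fun v h1 h2 => hd v 4 4 (by norm_num) (by norm_num) h1 h2
    · exact Set.disjoint_left.2 fun v h1 h2 => hd v 4 4 (by norm_num) (by norm_num) h2 h1
    · exact absurd rfl hij
  · intro i j hij
    fin_cases i <;> fin_cases j
    · exact absurd rfl hij
    · exact Set.disjoint_left.2 fun v h1 h2 => hd v (-4) (-4) (by norm_num) (by norm_num) h1 h2
    · exact Set.disjoint_left.2 fun v h1 h2 => hd v (-4) (-4) (by norm_num) (by norm_num) h2 h1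
    · exact absurd rfl hij
  · intro i j
    fin_cases i <;> fin_cases j
    · refine Set.disjoint_left.2 fun v h1 h2 => ?_
      have a1 : 5 * v.1 2 < 4 * v.1 0 := h1
      have a2 : 5 * v.1 2 < -4 * v.1 0 := h2
      linarith [v.2.1]
    · exact Set.disjoint_left.2 fun v h1 h2 => hd v 4 (-4) (by norm_num) (by norm_num) h1 h2
    · exact Set.disjoint_left.2 fun v h1 h2 => hd v (-4) 4 (by norm_num) (by norm_num) h2 h1
    · refine Set.disjoint_left.2 fun v h1 h2 => ?_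
      have a1 : 5 * v.1 2 < 4 * v.1 1 := h1
      have a2 : 5 * v.1 2 < -4 * v.1 1 := h2
      linarith [v.2.1]
  · intro i
    fin_cases i
    · rintro _ ⟨v, hv, rfl⟩
      have a1 : ¬ 5 * v.1 2 < -4 * v.1 0 := hv
      show 5 * ((g0 * g0) • v.1) 2 < 4 * ((g0 * g0) • v.1) 0
      simp only [mul_smul, g0_smul, cons_val_zero, cons_val_one, cons_val]
      linarith [v.2.1]
    · rintro _ ⟨v, hv, rfl⟩
      have a1 : ¬ 5 * v.1 2 < -4 * v.1 1 := hv
      show 5 * ((s2 * (g0 * g0) * s2) • v.1) 2 < 4 * ((s2 * (g0 * g0) * s2) • v.1) 1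
      simp only [mul_smul, g0_smul, s2_smul, cons_val_zero, cons_val_one, cons_val]
      linarith [v.2.1]
  · intro i
    fin_cases i
    · rintro _ ⟨v, hv, rfl⟩
      have a1 : ¬ 5 * v.1 2 < 4 * v.1 0 := hv
      show 5 * ((g0 * g0)⁻¹ • v.1) 2 < -4 * ((g0 * g0)⁻¹ • v.1) 0
      simp only [_root_.mul_inv_rev, mul_smul, g0_inv_smul, cons_val_zero, cons_val_one, cons_val]
      linarith [v.2.1]
    · rintro _ ⟨v, hv, rfl⟩
      have a1 : ¬ 5 * v.1 2 < 4 * v.1 1 := hv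
      show 5 * ((s2 * (g0 * g0) * s2)⁻¹ • v.1) 2 < -4 * ((s2 * (g0 * g0) * s2)⁻¹ • v.1) 1
      simp only [_root_.mul_inv_rev, s2i, mul_smul, g0_inv_smul, s2_smul, cons_val_zero, cons_val_one,
        cons_val]
      linarith [v.2.1]

instance : Infinite GG := by
  obtain ⟨f, hf⟩ := free_two
  exact Infinite.of_injective f hf

end Pool.Agent.P.MP_7d68c1_gt.Six
end

-- part Pool.Agent.P.MP_7d68c1_gt.NModel
section

open scoped LinearAlgebra.Projectivization MatrixGroups Topology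
open Matrix Filter Set

namespace Pool.Agent.P.MP_7d68c1_gt.Six

abbrev W := V3 × V3
abbrev M6 := Matrix (Fin 6) (Fin 6) ℝ

theorem accPt_of_seq {X : Type} [TopologicalSpace X] {S : Set X} {y : X} {u : ℕ → X}
    (h1 : ∀ n, u n ∈ S) (h2 : ∀ n, u n ≠ y) (h3 : Tendsto u atTop (𝓝 y)) : AccPt y (𝓟 S) := by
  rw [accPt_iff_frequently]
  exact h3.frequently (Frequently.of_forall fun n => ⟨h2 n, h1 n⟩)

instance : T1Space PGL(6, ℝ) := by
  have : IsClosed (Subgroup.center (GL (Fin 6) ℝ) : Set (GL (Fin 6) ℝ)) := by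
    rw [Subgroup.coe_center, ← Set.centralizer_univ]
    exact Set.isClosed_centralizer _
  exact QuotientGroup.instT1Space (N := Subgroup.center (GL (Fin 6) ℝ))

theorem L_ne (L : W ≃ₗ[ℝ] V6) {y : W} (hy : y ≠ 0) : L y ≠ 0 := L.map_ne_zero_iff.2 hy

theorem cont_L (L : W ≃ₗ[ℝ] V6) : Continuous L := L.toLinearMap.continuous_of_finiteDimensional

theorem cont_Ls (L : W ≃ₗ[ℝ] V6) : Continuous L.symm :=
  L.symm.toLinearMap.continuous_of_finiteDimensional

theorem ne_of_fst {y : W} (h : y.1 ≠ 0) : y ≠ 0 := fun e => h (by rw [e]; rfl)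

theorem pr_L_eq {L : W ≃ₗ[ℝ] V6} {y z : W} (hy : y ≠ 0) (hz : z ≠ 0) (h : pr (L y) = pr (L z)) :
    ∃ t : ℝ, t • z = y := by
  obtain ⟨t, ht⟩ := (pr_eq_iff (L_ne L hy) (L_ne L hz)).1 h
  exact ⟨t, L.injective (by rw [map_smul, ht])⟩

theorem pr_L_smul (L : W ≃ₗ[ℝ] V6) {y : W} (hy : y ≠ 0) {t : ℝ} (ht : t ≠ 0) :
    pr (L (t • y)) = pr (L y) := by
  rw [map_smul, pr_smul (L_ne L hy) ht]

theorem exists_pr_L (L : W ≃ₗ[ℝ] V6) (x : P6) : ∃ y : W, y ≠ 0 ∧ pr (L y) = x :=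
  ⟨L.symm x.rep, L.symm.map_ne_zero_iff.2 x.rep_nonzero, by rw [L.apply_symm_apply, pr_rep]⟩

/-- the projectivisation of a scale invariant set given in coordinates -/
def PP (L : W ≃ₗ[ℝ] V6) (A : Set W) : Set P6 := {x | x.rep ∈ L.symm ⁻¹' A}

def Sc (A : Set W) : Prop := ∀ y ∈ A, ∀ t : ℝ, t ≠ 0 → t • y ∈ A

theorem Sc.pre {A : Set W} (h : Sc A) (L : W ≃ₗ[ℝ] V6) :
    ∀ v ∈ L.symm ⁻¹' A, ∀ t : ℝ, t ≠ 0 → t • v ∈ L.symm ⁻¹' A := by
  intro v hv t ht
  rw [mem_preimage, map_smul]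
  exact h _ hv t ht

theorem Sc.mem {A : Set W} (h : Sc A) (L : W ≃ₗ[ℝ] V6) {y : W} (hy : y ≠ 0) :
    pr (L y) ∈ PP L A ↔ y ∈ A := by
  show (pr (L y)).rep ∈ L.symm ⁻¹' A ↔ _
  rw [rep_pr_mem (h.pre L) (L_ne L hy), mem_preimage, L.symm_apply_apply]

theorem Sc.isOpen {A : Set W} (h : Sc A) (L : W ≃ₗ[ℝ] V6) (hA : IsOpen A) : IsOpen (PP L A) :=
  isOpen_rep (hA.preimage (cont_Ls L)) (h.pre L)

theorem Sc.isClosed {A : Set W} (h : Sc A) (L : W ≃ₗ[ℝ] V6) (hA : IsClosed A) : IsClosed (PP L A) :=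
  isClosed_rep (hA.preimage (cont_Ls L)) (h.pre L)

/-- ψ acts in block form in the coordinates L -/
def Act (L : W ≃ₗ[ℝ] V6) (ψ : GG →* PGL(6, ℝ)) (β : GG → V3 → V3) : Prop :=
  ∀ (g : GG) (y : W), y ≠ 0 → ψ g • pr (L y) = pr (L (g • y.1, β g y.2))

variable {L : W ≃ₗ[ℝ] V6} {ψ : GG →* PGL(6, ℝ)} {β : GG → V3 → V3}

theorem Act.injective (h : Act L ψ β) : Function.Injective ψ := by
  rw [injective_iff_map_eq_one]
  intro g hg
  have key : ∀ v ∈ Cn, g • v = v := by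
    intro v hv
    have h0 : ((v, 0) : W) ≠ 0 := ne_of_fst (Cn_ne hv)
    have h1 := h g (v, 0) h0
    rw [hg, one_smul] at h1
    obtain ⟨t, ht⟩ := pr_L_eq (ne_of_fst (Cn_ne (Cn_smul g v hv))) h0 h1.symm
    have h2 : t • v = g • v := congrArg Prod.fst ht
    have h3 := Bf_smul g v v
    have h4 := (Cn_smul g v hv).1
    rw [← h2] at h3 h4 ⊢
    have h5 : Bf (t • v) (t • v) = t * t * Bf v v := by simp [Bf]; ring
    have h6 : 0 < t * v 2 := h4
    have h7 : 0 < t := (mul_pos_iff_of_pos_right hv.1).1 h6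
    have h8 : t * t = 1 := by
      rw [h5] at h3
      exact mul_right_cancel₀ hv.2.ne (by rw [h3, one_mul])
    have : t = 1 := by nlinarith
    rw [this, one_smul]
  apply g_ext
  intro v
  have k0 := key _ ee_mem
  have k1 := key ![1, 0, 1] ⟨by simp, by simp [Bf]⟩
  have k2 := key ![0, 1, 1] ⟨by simp, by simp [Bf]⟩
  have e : v = v 0 • ![1, 0, 1] + v 1 • ![0, 1, 1] + (v 2 - v 0 - v 1) • ee := by
    apply ext3 <;> simp [ee]
  rw [one_smul, e, smul_add, smul_add, g_smul, g_smul, g_smul, k0, k1, k2]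

theorem Act.infinite (h : Act L ψ β) : Infinite ψ.range :=
  Infinite.of_injective _ (MonoidHom.ofInjective h.injective).injective

theorem Act.discrete (h : Act L ψ β) : DiscreteTopology ψ.range := by
  let A : Set W := {y | y.1 2 * y.1 2 < -Bf y.1 y.1}
  have hA : IsOpen A := isOpen_lt (by fun_prop) (continuous_Bf.comp continuous_fst).neg
  have hs : Sc A := by
    intro y hy t ht
    have h1 : y.1 2 * y.1 2 < -Bf y.1 y.1 := hy
    have h2 : 0 < t * t := mul_self_pos.2 ht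
    show (t • y).1 2 * (t • y).1 2 < -Bf (t • y).1 (t • y).1
    simp only [Bf, Prod.smul_fst, Pi.smul_apply, smul_eq_mul] at h1 ⊢
    nlinarith
  have h0 : ((ee, 0) : W) ≠ 0 := ne_of_fst (Cn_ne ee_mem)
  let O : Set ψ.range := {k | k.1 • pr (L (ee, 0)) ∈ PP L A}
  have hO : IsOpen O :=
    (hs.isOpen L hA).preimage ((continuous_orbit (L_ne L h0)).comp continuous_subtype_val)
  have h1 : (1 : ψ.range) ∈ O := by
    show (1 : PGL(6, ℝ)) • pr (L (ee, 0)) ∈ PP L A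
    rw [one_smul, hs.mem L h0]
    simp [A, ee, Bf]
  have hf : O.Finite := by
    refine ((finite_le ee_mem 2).image ψ.rangeRestrict).subset ?_
    rintro ⟨_, g, rfl⟩ hk
    refine ⟨g, ?_, rfl⟩
    have h2 : ψ g • pr (L (ee, 0)) ∈ PP L A := hk
    rw [h g _ h0, hs.mem L (ne_of_fst (Cn_ne (Cn_smul g _ ee_mem)))] at h2
    have h3 : (g • ee) 2 * (g • ee) 2 < -Bf (g • ee) (g • ee) := h2
    have h4 : Bf ee ee = -3 := by simp [Bf, ee]
    rw [Bf_smul, h4] at h3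
    show (g • ee) 2 ≤ 2
    nlinarith
  apply discreteTopology_of_isOpen_singleton_one
  have : ({1} : Set ψ.range) = O \ (O \ {1}) := by
    rw [Set.sdiff_sdiff_cancel_left (singleton_subset_iff.2 h1)]
  rw [this]
  exact hO.sdiff (hf.subset Set.sdiff_subset).isClosed

theorem mem_orbit_range {x y : P6} : y ∈ MulAction.orbit ψ.range x ↔ ∃ d, ψ d • x = y := by
  constructor
  · rintro ⟨⟨_, d, rfl⟩, h⟩
    exact ⟨d, h⟩
  · rintro ⟨d, h⟩
    exact ⟨⟨_, d, rfl⟩, h⟩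

/-- the compact fundamental piece -/
def KK : Set V3 := {v | |v 0| ≤ 1 ∧ |v 1| ≤ 1 ∧ v 2 = 1}

theorem isCompact_KK : IsCompact KK := by
  have : KK = Icc ![-1, -1, 1] ![1, 1, 1] := by
    ext v
    simp only [KK, mem_ofPred_eq, mem_Icc, abs_le, Pi.le_def, Fin.forall_fin_succ]
    simp [le_antisymm_iff]
    tauto
  rw [this]
  exact isCompact_Icc

theorem KK_sub {v : V3} (hv : v ∈ KK) : v ∈ Cn := by
  obtain ⟨a, b, c⟩ := hv
  rw [abs_le] at a b
  refine ⟨by rw [c]; exact one_pos, ?_⟩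
  simp only [Bf, c]
  nlinarith

theorem descent' {v : V3} (hv : v ∈ Cn) : ∃ (g : GG) (t : ℝ), 0 < t ∧ t • g • v ∈ KK := by
  obtain ⟨g, h0, h1⟩ := descent hv
  have h2 := (Cn_smul g v hv).1
  refine ⟨g, ((g • v) 2)⁻¹, inv_pos.2 h2, ?_, ?_, ?_⟩
  · rw [Pi.smul_apply, smul_eq_mul, abs_mul, abs_of_pos (inv_pos.2 h2), inv_mul_le_iff₀ h2, mul_one]
    exact h0
  · rw [Pi.smul_apply, smul_eq_mul, abs_mul, abs_of_pos (inv_pos.2 h2), inv_mul_le_iff₀ h2, mul_one]
    exact h1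
  · rw [Pi.smul_apply, smul_eq_mul, inv_mul_cancel₀ h2.ne']

/-- the graph of a linear map over the cone has compact quotient -/
theorem Act.graph_compact (h : Act L ψ β) (c : ℝ) (hβ : ∀ g v, β g (c • v) = c • g • v) :
    CompactQuotient ψ.range ((fun v : V3 => pr (L (v, c • v))) '' Cn) := by
  refine compactQuotient_of (K := (fun v : V3 => pr (L (v, c • v))) '' KK) ?_
    (image_mono fun v hv => KK_sub hv) ?_
  · refine isCompact_KK.image_of_continuousOn ?_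
    refine continuousOn_pr.comp ((cont_L L).comp (by fun_prop)).continuousOn ?_
    intro v hv
    exact L_ne L (ne_of_fst (Cn_ne (KK_sub hv)))
  · rintro _ ⟨v, hv, rfl⟩
    obtain ⟨g, t, ht, hk⟩ := descent' hv
    refine ⟨ψ g, ⟨g, rfl⟩, _, hk, ?_⟩
    have e : ((t • g • v, c • t • g • v) : W) = t • (g • v, c • g • v) := by
      rw [Prod.smul_mk, smul_comm c t]
    simp only
    rw [h g _ (ne_of_fst (Cn_ne hv)), hβ, e, pr_L_smul L (ne_of_fst (Cn_ne (Cn_smul g v hv))) ht.ne']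

theorem convex_of_cone {A : Set W} (h1 : ∀ y ∈ A, ∀ t : ℝ, 0 < t → t • y ∈ A)
    (h2 : ∀ y ∈ A, ∀ z ∈ A, y + z ∈ A) : Convex ℝ A := by
  rw [convex_iff_forall_pos]
  intro y hy z hz a b ha hb _
  exact h2 _ (h1 y hy a ha) _ (h1 z hz b hb)

theorem convex_chart_L {φ : V6 →ₗ[ℝ] ℝ} {A : Set W} (h0 : ∀ y ∈ A, 0 < φ (L y))
    (h1 : ∀ y ∈ A, ∀ t : ℝ, 0 < t → t • y ∈ A) (h2 : ∀ y ∈ A, ∀ z ∈ A, y + z ∈ A) :
    Convex ℝ (chart φ ((fun y => pr (L y)) '' A)) := by
  have e : (fun y => pr (L y)) '' A = pr '' (L '' A) := by rw [image_image]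
  rw [e]
  refine convex_chart_image ?_ ?_ ((convex_of_cone h1 h2).linear_image L.toLinearMap)
  · rintro _ ⟨y, hy, rfl⟩
    exact h0 y hy
  · rintro _ ⟨y, hy, rfl⟩ t ht
    exact ⟨t • y, h1 y hy t ht, map_smul _ _ _⟩

theorem isOpen_image_L {A : Set W} (hA : IsOpen A) (h0 : ∀ y ∈ A, y ≠ 0) :
    IsOpen ((fun y => pr (L y)) '' A) := by
  have e : (fun y => pr (L y)) '' A = pr '' (L.symm ⁻¹' A) := by
    rw [← image_image, ← L.image_eq_preimage_symm]
  rw [e]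
  refine isOpen_image_pr (hA.preimage (cont_Ls L)) fun v hv e => h0 _ hv ?_
  rw [e, map_zero]

/-- closure in an affine chart, from a closed scale invariant superset -/
theorem closure_chart {φ : V6 →ₗ[ℝ] ℝ} {A B : Set W} (h0 : ∀ y ∈ A, y ≠ 0) (hAB : A ⊆ B) (hs : Sc B)
    (hB : IsClosed B) (h : ∀ y ∈ B, φ (L y) = 0 → y = 0) :
    ∀ x ∈ closure ((fun y => pr (L y)) '' A), φ x.rep ≠ 0 := by
  intro x hx
  have h1 : x ∈ PP L B := by
    refine closure_minimal ?_ (hs.isClosed L hB) hx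
    rintro _ ⟨y, hy, rfl⟩
    exact (hs.mem L (h0 y hy)).2 (hAB hy)
  intro e
  have h2 := h _ h1 (by rwa [L.apply_symm_apply])
  exact x.rep_nonzero (L.symm.map_eq_zero_iff.1 h2)

/-- the linear form a z1 + b z2 -/
noncomputable def ph (L : W ≃ₗ[ℝ] V6) (b : ℝ) : V6 →ₗ[ℝ] ℝ :=
  ((LinearMap.proj 2 : V3 →ₗ[ℝ] ℝ) ∘ₗ LinearMap.fst ℝ V3 V3 +
    b • ((LinearMap.proj 2 : V3 →ₗ[ℝ] ℝ) ∘ₗ LinearMap.snd ℝ V3 V3)) ∘ₗ L.symm.toLinearMap

theorem ph_L (b : ℝ) (y : W) : ph L b (L y) = y.1 2 + b * y.2 2 := by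
  simp [ph]

theorem eq_zero_of_Bf {v : V3} (h : Bf v v ≤ 0) (h2 : v 2 = 0) : v = 0 := by
  simp only [Bf, h2] at h
  have a := mul_self_nonneg (v 0)
  have b := mul_self_nonneg (v 1)
  exact ext3 (mul_self_eq_zero.1 (by linarith)) (mul_self_eq_zero.1 (by linarith)) h2

theorem Bf_sm (t : ℝ) (v : V3) : Bf (t • v) (t • v) = t * t * Bf v v := by
  simp [Bf]; ring

theorem Act.naive (h : Act L ψ fun g v => g • v) : NaiveCC ψ.range := by
  have h0 : ∀ y ∈ Cn ×ˢ Cn, y ≠ 0 := fun y hy => ne_of_fst (Cn_ne hy.1)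
  refine ⟨h.infinite, h.discrete, ph L 1, (fun y => pr (L y)) '' (Cn ×ˢ Cn),
    (fun v : V3 => pr (L (v, (1 : ℝ) • v))) '' Cn, ⟨⟨_, (ee, ee), ⟨ee_mem, ee_mem⟩, rfl⟩,
      isOpen_image_L (isOpen_Cn.prod isOpen_Cn) h0, ?_, ?_, ?_⟩, ⟨_, ee, ee_mem, rfl⟩, ?_, ?_, ?_, ?_,
      h.graph_compact 1 (fun g v => g_smul g 1 v)⟩
  · refine closure_chart (B := {y | Bf y.1 y.1 ≤ 0 ∧ Bf y.2 y.2 ≤ 0 ∧ 0 ≤ y.1 2 * y.2 2}) h0 ?_ ?_ ?_ ?_
    · rintro y ⟨a, b⟩
      exact ⟨a.2.le, b.2.le, (mul_pos a.1 b.1).le⟩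
    · rintro y ⟨a, b, c⟩ t -
      have := mul_self_nonneg t
      refine ⟨?_, ?_, ?_⟩
      · rw [Prod.smul_fst, Bf_sm]
        exact mul_nonpos_of_nonneg_of_nonpos this a
      · rw [Prod.smul_snd, Bf_sm]
        exact mul_nonpos_of_nonneg_of_nonpos this b
      · simp only [Prod.smul_fst, Prod.smul_snd, Pi.smul_apply, smul_eq_mul]
        nlinarith [mul_nonneg this c]
    · exact (isClosed_le (continuous_Bf.comp continuous_fst) continuous_const).inter
        ((isClosed_le (continuous_Bf.comp continuous_snd) continuous_const).inter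
          (isClosed_le continuous_const (show Continuous fun y : W => y.1 2 * y.2 2 by fun_prop)))
    · rintro y ⟨a, b, c⟩ e
      rw [ph_L] at e
      have e0 : y.2 2 = -y.1 2 := by linarith
      rw [e0] at c
      have e1 : y.1 2 = 0 := mul_self_eq_zero.1 (by nlinarith [mul_self_nonneg (y.1 2)])
      have e2 : y.2 2 = 0 := by linarith
      exact Prod.ext (eq_zero_of_Bf a e1) (eq_zero_of_Bf b e2)
  · refine convex_chart_L ?_ ?_ ?_
    · rintro y ⟨a, b⟩
      rw [ph_L]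
      linarith [a.1, b.1]
    · rintro y ⟨a, b⟩ t ht
      exact ⟨Cn_pos_smul a ht, Cn_pos_smul b ht⟩
    · rintro y ⟨a, b⟩ z ⟨c, d⟩
      exact ⟨Cn_add a c, Cn_add b d⟩
  · rintro _ ⟨g, rfl⟩ _ ⟨y, hy, rfl⟩
    exact ⟨(g • y.1, g • y.2), ⟨Cn_smul g _ hy.1, Cn_smul g _ hy.2⟩, (h g y (h0 y hy)).symm⟩
  · rintro _ ⟨v, hv, rfl⟩
    exact ⟨_, ⟨hv, by rwa [one_smul]⟩, rfl⟩
  · have hs : Sc {y : W | y.1 = y.2} := fun y hy t _ => congrArg (t • ·) hy
    have hcl : IsClosed {y : W | y.1 = y.2} := isClosed_eq continuous_fst continuous_snd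
    convert (hs.isClosed L hcl).preimage continuous_subtype_val using 1
    ext ⟨_, y, hy, rfl⟩
    simp only [mem_preimage]
    rw [hs.mem L (h0 y hy)]
    constructor
    · rintro ⟨v, hv, e⟩
      obtain ⟨t, ht⟩ := pr_L_eq (h0 y hy) (ne_of_fst (Cn_ne hv)) e.symm
      rw [← ht]
      simp
    · intro e
      refine ⟨y.1, hy.1, ?_⟩
      have e' : y.1 = y.2 := e
      simp only
      rw [one_smul]
      congr 2
      exact Prod.ext rfl e'
  · have e : (fun v : V3 => pr (L (v, (1 : ℝ) • v))) '' Cn =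
        (fun y => pr (L y)) '' {y : W | y.1 ∈ Cn ∧ y.2 = y.1} := by
      ext x
      constructor
      · rintro ⟨v, hv, rfl⟩
        exact ⟨_, ⟨hv, one_smul _ _⟩, rfl⟩
      · rintro ⟨⟨v, w⟩, ⟨hv, e⟩, rfl⟩
        obtain rfl : w = v := e
        exact ⟨w, hv, by simp⟩
    rw [e]
    refine convex_chart_L ?_ ?_ ?_
    · rintro y ⟨a, b⟩
      rw [ph_L, b]
      linarith [a.1]
    · rintro y ⟨a, b⟩ t ht
      exact ⟨Cn_pos_smul a ht, congrArg (t • ·) b⟩
    · rintro y ⟨a, b⟩ z ⟨c, d⟩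
      exact ⟨Cn_add a c, by rw [Prod.snd_add, Prod.fst_add, b, d]⟩
  · rintro _ ⟨g, rfl⟩ _ ⟨v, hv, rfl⟩
    refine ⟨g • v, Cn_smul g v hv, ?_⟩
    simp only
    rw [h g _ (ne_of_fst (Cn_ne hv))]
    simp only [one_smul]

end Pool.Agent.P.MP_7d68c1_gt.Six
end

-- part Pool.Agent.P.MP_7d68c1_gt.NCC
section

open scoped LinearAlgebra.Projectivization MatrixGroups Topology
open Matrix Filter Set

namespace Pool.Agent.P.MP_7d68c1_gt.Six

variable {L : W ≃ₗ[ℝ] V6} {ψ : GG →* PGL(6, ℝ)}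

def Nn (w : V3) : ℝ := w 0 * w 0 + w 1 * w 1 + w 2 * w 2

theorem Nn_nonneg (w : V3) : 0 ≤ Nn w := by
  unfold Nn
  nlinarith [mul_self_nonneg (w 0), mul_self_nonneg (w 1), mul_self_nonneg (w 2)]

theorem Nn_sm (t : ℝ) (v : V3) : Nn (t • v) = t * t * Nn v := by
  simp [Nn]; ring

theorem Nn_zero {w : V3} (h : Nn w ≤ 0) : w = 0 := by
  unfold Nn at h
  have a := mul_self_nonneg (w 0)
  have b := mul_self_nonneg (w 1)
  have c := mul_self_nonneg (w 2)
  exact ext3 (mul_self_eq_zero.1 (by linarith)) (mul_self_eq_zero.1 (by linarith))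
    (mul_self_eq_zero.1 (by linarith))

theorem continuous_Nn : Continuous Nn := by
  unfold Nn
  fun_prop

/-- the cone over the ball model of hyperbolic 5-space -/
def H5 : Set W := {y | 0 < y.1 2 ∧ Bf y.1 y.1 + Nn y.2 < 0}

theorem H5_fst {y : W} (h : y ∈ H5) : y.1 ∈ Cn := ⟨h.1, by linarith [h.2, Nn_nonneg y.2]⟩

theorem H5_ne {y : W} (h : y ∈ H5) : y ≠ 0 := ne_of_fst (Cn_ne (H5_fst h))

theorem H5_add {y z : W} (hy : y ∈ H5) (hz : z ∈ H5) : y + z ∈ H5 := by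
  obtain ⟨a, b⟩ := hy
  obtain ⟨c, d⟩ := hz
  refine ⟨add_pos a c, ?_⟩
  simp only [Bf, Nn, Prod.fst_add, Prod.snd_add, Pi.add_apply] at b d ⊢
  have h1 : y.1 0 * z.1 0 + y.1 1 * z.1 1 - 3 * (y.1 2 * z.1 2) +
      (y.2 0 * z.2 0 + y.2 1 * z.2 1 + y.2 2 * z.2 2) ≤ 0 := by
    by_contra h
    push Not at h
    have k1 := mul_pos (mul_pos a c) h
    have k2 := mul_pos (mul_pos c c) (neg_pos.2 b)
    have k3 := mul_pos (mul_pos a a) (neg_pos.2 d)
    nlinarith [mul_self_nonneg (z.1 2 * y.1 0 - y.1 2 * z.1 0),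
      mul_self_nonneg (z.1 2 * y.1 1 - y.1 2 * z.1 1), mul_self_nonneg (z.1 2 * y.2 0 - y.1 2 * z.2 0),
      mul_self_nonneg (z.1 2 * y.2 1 - y.1 2 * z.2 1), mul_self_nonneg (z.1 2 * y.2 2 - y.1 2 * z.2 2)]
  nlinarith

theorem Act.domain5 (h : Act L ψ fun _ v => v) :
    InvariantDomain ψ.range (ph L 0) ((fun y => pr (L y)) '' H5) := by
  have hc : Continuous fun y : W => Bf y.1 y.1 + Nn y.2 :=
    (continuous_Bf.comp continuous_fst).add (continuous_Nn.comp continuous_snd)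
  refine ⟨⟨_, (ee, 0), ⟨ee_mem.1, by simp [ee, Bf, Nn]⟩, rfl⟩, isOpen_image_L ?_ fun _ => H5_ne,
    ?_, ?_, ?_⟩
  · exact (isOpen_lt continuous_const (show Continuous fun y : W => y.1 2 by fun_prop)).inter
      (isOpen_lt hc continuous_const)
  · refine closure_chart (B := {y | Bf y.1 y.1 + Nn y.2 ≤ 0}) (fun _ => H5_ne) (fun y hy => hy.2.le)
      ?_ (isClosed_le hc continuous_const) ?_
    · intro y hy t _
      show Bf (t • y.1) (t • y.1) + Nn (t • y.2) ≤ 0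
      rw [Bf_sm, Nn_sm, ← mul_add]
      exact mul_nonpos_of_nonneg_of_nonpos (mul_self_nonneg t) hy
    · intro y hy e
      have hy' : Bf y.1 y.1 + Nn y.2 ≤ 0 := hy
      rw [ph_L, zero_mul, add_zero] at e
      have e1 := eq_zero_of_Bf (by linarith [Nn_nonneg y.2]) e
      refine Prod.ext e1 (Nn_zero ?_)
      simpa [e1, Bf] using hy'
  · refine convex_chart_L ?_ ?_ fun y hy z hz => H5_add hy hz
    · intro y hy
      rw [ph_L, zero_mul, add_zero]
      exact hy.1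
    · intro y hy t ht
      refine ⟨mul_pos ht hy.1, ?_⟩
      show Bf (t • y.1) (t • y.1) + Nn (t • y.2) < 0
      rw [Bf_sm, Nn_sm, ← mul_add]
      exact mul_neg_of_pos_of_neg (mul_pos ht ht) hy.2
  · rintro _ ⟨g, rfl⟩ _ ⟨y, hy, rfl⟩
    refine ⟨(g • y.1, y.2), ⟨(Cn_smul g _ (H5_fst hy)).1, ?_⟩, (h g y (H5_ne hy)).symm⟩
    show Bf (g • y.1) (g • y.1) + Nn y.2 < 0
    rw [Bf_smul]
    exact hy.2

theorem approx {n : V3} (h2 : n 2 = 1) (hn : Bf n n = 0) {ε : ℝ} (hε : 0 < ε) :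
    ∃ g : GG, dist (((g • ee) 2)⁻¹ • g • ee) n < ε := by
  obtain ⟨t, t0, t1, t2⟩ : ∃ t : ℝ, 0 < t ∧ t ≤ 1 ∧ 9 * t < (ε * ε / 6) ^ 2 := by
    have : 0 < (ε * ε / 6) ^ 2 := by positivity
    refine ⟨min 1 ((ε * ε / 6) ^ 2 / 10), lt_min one_pos (by positivity), min_le_left _ _, ?_⟩
    linarith [min_le_right 1 ((ε * ε / 6) ^ 2 / 10)]
  have hx : Bf (n + t • ee) (n + t • ee) = -3 * (2 * t + t * t) := by
    simp only [Bf, ee, Pi.add_apply, Pi.smul_apply, smul_eq_mul, cons_val_zero, cons_val_one, cons_val,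
      h2] at hn ⊢
    linarith
  have hx' : n + t • ee ∈ Cn := ⟨by simp [ee, h2]; linarith, by rw [hx]; nlinarith⟩
  obtain ⟨g, a, b⟩ := descent hx'
  have k0 := (Cn_smul g _ hx').1
  have k1 := Bf_smul g (n + t • ee) (n + t • ee)
  have k2 := Bf_smul g (g⁻¹ • ee) (n + t • ee)
  rw [smul_inv_smul] at k2
  rw [hx] at k1
  generalize g • (n + t • ee) = k at a b k0 k1 k2
  have k3 : k 2 < ε * ε / 6 := by
    apply lt_of_pow_lt_pow_left₀ 2 (by positivity)
    rw [abs_le] at a b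
    simp only [Bf] at k1
    nlinarith
  have o1 := Bf_smul g⁻¹ ee ee
  have o2 := (Cn_smul g⁻¹ _ ee_mem).1
  refine ⟨g⁻¹, ?_⟩
  generalize g⁻¹ • ee = o at k2 o1 o2
  simp only [Bf, ee, Pi.add_apply, Pi.smul_apply, smul_eq_mul, cons_val_zero, cons_val_one, cons_val,
    h2] at hn k2 o1
  have o3 : 1 ≤ o 2 := by nlinarith [mul_self_nonneg (o 0), mul_self_nonneg (o 1)]
  have o4 : (o 0 - o 2 * n 0) ^ 2 + (o 1 - o 2 * n 1) ^ 2 < (ε * o 2) ^ 2 := by
    have e1 : (o 0 - o 2 * n 0) ^ 2 + (o 1 - o 2 * n 1) ^ 2 =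
        -3 + 6 * o 2 * k 2 - 6 * t * (o 2 * o 2) := by
      linear_combination o1 + (o 2 * o 2) * hn + (2 * o 2) * k2
    have e2 : 6 * o 2 * k 2 < ε * ε * o 2 := by nlinarith
    have e3 : ε * ε * o 2 ≤ (ε * o 2) ^ 2 := by nlinarith [mul_pos (mul_pos hε hε) o2]
    nlinarith [mul_pos t0 (mul_pos o2 o2)]
  have o5 : ∀ x m : ℝ, (x - o 2 * m) ^ 2 < (ε * o 2) ^ 2 → dist ((o 2)⁻¹ * x) m < ε := by
    intro x m hxm
    have := abs_lt_of_sq_lt_sq hxm (by positivity)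
    have e : (o 2)⁻¹ * x - m = (o 2)⁻¹ * (x - o 2 * m) := by field_simp
    rw [Real.dist_eq, e, abs_mul, abs_of_pos (inv_pos.2 o2), inv_mul_lt_iff₀ o2, mul_comm (o 2) ε]
    exact this
  rw [dist_pi_lt_iff hε]
  intro i
  fin_cases i
  · exact o5 _ _ (by simp only [Fin.zero_eta]; nlinarith [sq_nonneg (o 1 - o 2 * n 1)])
  · exact o5 _ _ (by simp only [Fin.mk_one]; nlinarith [sq_nonneg (o 0 - o 2 * n 0)])
  · exact o5 _ _ (by simp only [Fin.reduceFinMk, h2]; simpa using pow_pos (mul_pos hε o2) 2)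

theorem Act.null_mem (h : Act L ψ fun _ v => v) {n : V3} (h2 : n 2 = 1) (hn : Bf n n = 0) :
    pr (L (n, 0)) ∈ orbitalLimitSet ψ.range ((fun y => pr (L y)) '' H5) := by
  have hn0 : ((n, 0) : W) ≠ 0 := ne_of_fst fun e : n = 0 => by simp [e] at h2
  have he : ((ee, 0) : W) ∈ H5 := ⟨ee_mem.1, by simp [ee, Bf, Nn]⟩
  refine ⟨_, ⟨_, he, rfl⟩, ?_⟩
  rw [accPt_iff_nhds]
  intro U hU
  have hc : ContinuousAt (fun v : V3 => pr (L (v, 0))) n :=
    (continuousAt_pr (L_ne L hn0)).comp (f := fun v : V3 => L (v, 0))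
      ((cont_L L).comp (by fun_prop)).continuousAt
  obtain ⟨ε, hε, hb⟩ := Metric.mem_nhds_iff.1 (hc hU)
  obtain ⟨g, hg⟩ := approx h2 hn hε
  have k := Cn_smul g _ ee_mem
  have k0 : ((g • ee, 0) : W) ≠ 0 := ne_of_fst (Cn_ne k)
  refine ⟨pr (L (g • ee, 0)), ⟨?_, mem_orbit_range.2 ⟨g, h g _ (H5_ne he)⟩⟩, fun e => ?_⟩
  · have := hb hg
    rw [mem_preimage] at this
    rw [← pr_L_smul L k0 (inv_pos.2 k.1).ne', Prod.smul_mk, smul_zero]
    exact this
  · obtain ⟨t, ht⟩ := pr_L_eq k0 hn0 e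
    have h3 : t • n = g • ee := congrArg Prod.fst ht
    have h4 := k.2
    rw [← h3, Bf_sm, hn] at h4
    simp at h4

theorem Act.limit_snd (h : Act L ψ fun _ v => v) {y : W} (hy : y ≠ 0)
    (hl : pr (L y) ∈ orbitalLimitSet ψ.range ((fun y => pr (L y)) '' H5)) : y.2 = 0 := by
  obtain ⟨_, ⟨x, hx, rfl⟩, ha⟩ := hl
  have key : ∀ ε : ℝ, 0 < ε → Nn y.2 ≤ ε * (y.1 2 * y.1 2) := by
    intro ε hε
    have hs : Sc {y : W | Nn y.2 ≤ ε * (y.1 2 * y.1 2)} := by
      intro z hz t _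
      have hz' : Nn z.2 ≤ ε * (z.1 2 * z.1 2) := hz
      show Nn (t • z.2) ≤ ε * (t * z.1 2 * (t * z.1 2))
      rw [Nn_sm]
      nlinarith [mul_le_mul_of_nonneg_left hz' (mul_self_nonneg t)]
    have hcl : IsClosed {y : W | Nn y.2 ≤ ε * (y.1 2 * y.1 2)} :=
      isClosed_le (continuous_Nn.comp continuous_snd) (by fun_prop)
    have hsub : MulAction.orbit ψ.range (pr (L x)) ⊆ PP L {y : W | Nn y.2 ≤ ε * (y.1 2 * y.1 2)} ∪
        (fun g => ψ g • pr (L x)) '' {g : GG | (g • x.1) 2 ≤ Nn x.2 / ε + 1} := by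
      intro z hz
      obtain ⟨g, rfl⟩ := mem_orbit_range.1 hz
      by_cases hg : (g • x.1) 2 ≤ Nn x.2 / ε + 1
      · exact Or.inr ⟨g, hg, rfl⟩
      · left
        rw [h g _ (H5_ne hx), hs.mem L (ne_of_fst (Cn_ne (Cn_smul g _ (H5_fst hx))))]
        push Not at hg
        show Nn x.2 ≤ ε * ((g • x.1) 2 * (g • x.1) 2)
        have a := div_nonneg (Nn_nonneg x.2) hε.le
        have b : Nn x.2 / ε ≤ (g • x.1) 2 * (g • x.1) 2 := by nlinarith
        rwa [div_le_iff₀ hε, mul_comm] at b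
    have h1 := ha.mono (principal_mono.2 hsub)
    rw [← sup_principal, accPt_sup] at h1
    rcases h1 with h1 | h1
    · exact (hs.mem L hy).1 ((hs.isClosed L hcl).closure_subset (h1.clusterPt.mem_closure))
    · exact absurd ((finite_le (H5_fst hx) _).image _) (Set.Infinite.of_accPt h1)
  apply Nn_zero
  apply le_of_forall_pos_le_add
  intro ε hε
  have a := mul_self_nonneg (y.1 2)
  have b := key (ε / (y.1 2 * y.1 2 + 1)) (by positivity)
  have c : ε / (y.1 2 * y.1 2 + 1) * (y.1 2 * y.1 2) ≤ ε := by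
    rw [div_mul_eq_mul_div, div_le_iff₀ (by positivity)]
    nlinarith
  linarith

theorem Act.core5 (h : Act L ψ fun _ v => v) :
    convexCore ψ.range (ph L 0) ((fun y => pr (L y)) '' H5) =
      (fun v : V3 => pr (L (v, (0 : ℝ) • v))) '' Cn := by
  ext x
  constructor
  · rintro ⟨⟨y, hy, rfl⟩, v, hv, hv0, e⟩
    have h1 : (L.symm v).2 = 0 := by
      refine convexHull_min (t := {v : V6 | (L.symm v).2 = 0}) ?_ ?_ hv
      · intro u hu
        rw [mem_chart] at hu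
        have hu0 : u ≠ 0 := by
          rintro rfl
          simp at hu
        exact h.limit_snd (L.symm.map_ne_zero_iff.2 hu0) (by rw [L.apply_symm_apply]; exact hu.2)
      · intro a ha b hb s t _ _ _
        have ha' : (L.symm a).2 = 0 := ha
        have hb' : (L.symm b).2 = 0 := hb
        simp [ha', hb']
    rw [← pr_eq hv0, ← L.apply_symm_apply v] at e
    obtain ⟨t, ht⟩ := pr_L_eq (H5_ne hy) (L.symm.map_ne_zero_iff.2 hv0) e.symm
    have h2 : y.2 = 0 := by rw [← ht, Prod.smul_snd, h1, smul_zero]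
    refine ⟨y.1, H5_fst hy, ?_⟩
    simp only
    rw [zero_smul, ← h2]
  · rintro ⟨v, hv, rfl⟩
    simp only [zero_smul]
    refine ⟨⟨(v, 0), ⟨hv.1, by simpa [Nn] using hv.2⟩, rfl⟩, ?_⟩
    have h0 : ((v, 0) : W) ≠ 0 := ne_of_fst (Cn_ne hv)
    have hu := Cn_pos_smul hv (inv_pos.2 hv.1)
    have u2 : ((v 2)⁻¹ • v) 2 = 1 := inv_mul_cancel₀ hv.1.ne'
    refine ⟨L ((v 2)⁻¹ • v, 0), ?_, L_ne L (ne_of_fst (Cn_ne hu)), ?_⟩
    · generalize (v 2)⁻¹ • v = u at hu u2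
      have b := hu.2
      simp only [Bf, u2] at b
      have r0 : 0 < 3 - u 1 * u 1 := by nlinarith [mul_self_nonneg (u 0)]
      have r1 := Real.sqrt_pos.2 r0
      have r2 := Real.mul_self_sqrt r0.le
      generalize √(3 - u 1 * u 1) = r at r1 r2
      have r3 : |u 0| < r := abs_lt_of_sq_lt_sq (by nlinarith) r1.le
      rw [abs_lt] at r3
      have m : ∀ s : ℝ, s * s = r * r → L (![s, u 1, 1], 0) ∈ convexHull ℝ (chart (ph L 0)
          (orbitalLimitSet ψ.range ((fun y => pr (L y)) '' H5))) := by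
        intro s hs
        apply subset_convexHull
        rw [mem_chart, ph_L]
        exact ⟨by simp, h.null_mem (by simp) (by simp [Bf]; linarith)⟩
      have := convex_convexHull ℝ _ (m r rfl) (m (-r) (by ring)) (a := (r + u 0) / (2 * r))
        (b := (r - u 0) / (2 * r)) (div_nonneg (by linarith) (by linarith))
        (div_nonneg (by linarith) (by linarith)) (by field_simp; ring)
      convert this using 1
      rw [← map_smul, ← map_smul, ← map_add]
      congr 1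
      refine Prod.ext ?_ (by simp)
      apply ext3 <;> simp [u2] <;> field_simp <;> ring
    · rw [← pr_eq, ← pr_L_smul L h0 (inv_pos.2 hv.1).ne', Prod.smul_mk, smul_zero]

theorem Act.cc (h : Act L ψ fun _ v => v) : CC ψ.range := by
  refine ⟨h.infinite, h.discrete, ph L 0, _, h.domain5, ?_, ?_⟩
  · rw [h.core5]
    exact ⟨_, ee, ee_mem, rfl⟩
  · rw [h.core5]
    exact h.graph_compact 0 fun g v => by simp

end Pool.Agent.P.MP_7d68c1_gt.Six
end

-- part Pool.Agent.P.MP_7d68c1_gt.NNot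
section

open scoped LinearAlgebra.Projectivization MatrixGroups Topology
open Matrix Filter Set

namespace Pool.Agent.P.MP_7d68c1_gt.Six

theorem nested {Γ : Subgroup PGL(6, ℝ)} {C : Set P6} (h : CompactQuotient Γ C) (D : ℕ → Set P6)
    (hcl : ∀ n, IsClosed (D n)) (hdec : ∀ n, D (n + 1) ⊆ D n)
    (hinv : ∀ n, ∀ g ∈ Γ, ∀ x ∈ D n, g • x ∈ D n) (hne : ∀ n, (C ∩ D n).Nonempty) :
    ∃ x ∈ C, ∀ n, x ∈ D n := by
  unfold CompactQuotient at h
  let S := (MulAction.orbitRel Γ P6).comap (Subtype.val : C → _)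
  let E : ℕ → Set (Quotient S) := fun n => Quotient.mk S '' (Subtype.val ⁻¹' D n)
  have hpre : ∀ n, Quotient.mk S ⁻¹' E n = Subtype.val ⁻¹' D n := by
    intro n
    ext x
    constructor
    · rintro ⟨z, hz, e⟩
      obtain ⟨⟨g, hg⟩, e'⟩ := Quotient.exact e.symm
      have e2 : g • z.1 = x.1 := e'
      rw [mem_preimage, ← e2]
      exact hinv n g hg _ hz
    · intro hx
      exact ⟨x, hx, rfl⟩
  have hE : ∀ n, IsClosed (E n) := fun n => by
    have := (hcl n).preimage (continuous_subtype_val (p := fun x => x ∈ C))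
    rw [← hpre n] at this
    exact (isQuotientMap_quotient_mk' (s := S)).isClosed_preimage.1 this
  obtain ⟨q, hq⟩ := IsCompact.nonempty_iInter_of_sequence_nonempty_isCompact_isClosed E
    (fun n => image_mono (preimage_mono (hdec n)))
    (fun n => by
      obtain ⟨x, a, b⟩ := hne n
      exact ⟨_, ⟨x, a⟩, b, rfl⟩) (hE 0).isCompact hE
  induction q using Quotient.ind with
  | _ x =>
    refine ⟨x.1, x.2, fun n => ?_⟩
    have : x ∈ Quotient.mk S ⁻¹' E n := mem_iInter.1 hq n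
    rwa [hpre] at this

/-- the positive cone over Ω, in coordinates -/
def cone (L : W ≃ₗ[ℝ] V6) (φ : V6 →ₗ[ℝ] ℝ) (Ω : Set P6) : Set W :=
  {y | 0 < φ (L y) ∧ pr (L y) ∈ Ω}

variable {L : W ≃ₗ[ℝ] V6} {ψ : GG →* PGL(6, ℝ)} {φ : V6 →ₗ[ℝ] ℝ} {Ω : Set P6}
  {Γ : Subgroup PGL(6, ℝ)}

theorem cone_ne {y : W} (hy : y ∈ cone L φ Ω) : y ≠ 0 := by
  rintro rfl
  simpa using hy.1

theorem cont_phi : Continuous fun y : W => φ (L y) :=
  φ.continuous_of_finiteDimensional.comp (cont_L L)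

theorem cone_open (hΩ : IsOpen Ω) : IsOpen (cone L φ Ω) := by
  have h1 : IsOpen {y : W | 0 < φ (L y)} := isOpen_lt continuous_const cont_phi
  have h2 : ContinuousOn (fun y => pr (L y)) {y : W | 0 < φ (L y)} :=
    continuousOn_pr.comp (cont_L L).continuousOn (fun y hy h => by
      have : 0 < φ (L y) := hy
      rw [h] at this
      simp at this)
  exact h2.isOpen_inter_preimage h1 hΩ

theorem phi_ne (hD : InvariantDomain Γ φ Ω) {v : V6} (hv : v ≠ 0) (h : pr v ∈ closure Ω) :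
    φ v ≠ 0 := by
  have h1 := hD.2.2.1 _ h
  obtain ⟨t, -, ht⟩ := exists_rep_pr hv
  rw [ht, map_smul] at h1
  intro h2
  rw [h2, smul_zero] at h1
  exact h1 rfl

theorem cone_or (hD : InvariantDomain Γ φ Ω) {y : W} (hy : y ≠ 0) (h : pr (L y) ∈ Ω) :
    y ∈ cone L φ Ω ∨ (-1 : ℝ) • y ∈ cone L φ Ω := by
  rcases (phi_ne hD (L_ne L hy) (subset_closure h)).lt_or_gt with h1 | h1
  · refine Or.inr ⟨by simpa using h1, ?_⟩
    rwa [pr_L_smul L hy (by norm_num)]
  · exact Or.inl ⟨h1, h⟩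

theorem cone_smul {y : W} (hy : y ∈ cone L φ Ω) {t : ℝ} (ht : 0 < t) : t • y ∈ cone L φ Ω :=
  ⟨by rw [map_smul, map_smul]; exact mul_pos ht hy.1,
    by rw [pr_L_smul L (cone_ne hy) ht.ne']; exact hy.2⟩

theorem chart_of {S : Set P6} {v : V6} (h1 : 0 < φ v) (h2 : pr v ∈ S) : (φ v)⁻¹ • v ∈ chart φ S := by
  have hv : v ≠ 0 := by
    rintro rfl
    simp at h1
  rw [mem_chart, pr_smul hv (inv_ne_zero h1.ne'), map_smul, smul_eq_mul, inv_mul_cancel₀ h1.ne']
  exact ⟨rfl, h2⟩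

theorem comb_eq {v w : V6} (h1 : 0 < φ v) (h2 : 0 < φ w) :
    (φ v / (φ v + φ w)) • ((φ v)⁻¹ • v) + (φ w / (φ v + φ w)) • ((φ w)⁻¹ • w) =
      (φ v + φ w)⁻¹ • (v + w) := by
  rw [smul_smul, smul_smul, smul_add]
  congr 2 <;> field_simp

theorem cone_add (hD : InvariantDomain Γ φ Ω) {y z : W} (hy : y ∈ cone L φ Ω)
    (hz : z ∈ cone L φ Ω) : y + z ∈ cone L φ Ω := by
  have hp := add_pos hy.1 hz.1
  have h1 := hD.2.2.2.1 (chart_of hy.1 hy.2) (chart_of hz.1 hz.2)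
    (div_pos hy.1 hp).le (div_pos hz.1 hp).le (by field_simp)
  rw [comb_eq hy.1 hz.1, mem_chart] at h1
  have h2 : 0 < φ (L (y + z)) := by rwa [map_add, map_add]
  refine ⟨h2, ?_⟩
  have h3 : L y + L z ≠ 0 := by
    intro h
    rw [map_add, h] at h2
    simp at h2
  rw [map_add, ← pr_smul h3 (inv_ne_zero hp.ne')]
  exact h1.2

theorem cone_add_cl (hD : InvariantDomain Γ φ Ω) {y z : W} (hy : y ∈ cone L φ Ω)
    (hz : z ∈ closure (cone L φ Ω)) : y + z ∈ cone L φ Ω := by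
  have h1 : IsOpen ((fun w => y + z - w) ⁻¹' cone L φ Ω) := (cone_open hD.2.1).preimage (by fun_prop)
  obtain ⟨w, hw, hw'⟩ := mem_closure_iff.1 hz _ h1 (by simpa using hy)
  simpa using cone_add hD hw hw'

theorem cl_pos (hD : InvariantDomain Γ φ Ω) {p : W} (hp : p ≠ 0) (h : p ∈ closure (cone L φ Ω)) :
    0 < φ (L p) := by
  have h1 : 0 ≤ φ (L p) :=
    closure_minimal (t := {y : W | 0 ≤ φ (L y)}) (fun y hy => hy.1.le)
      (isClosed_le continuous_const cont_phi) h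
  refine lt_of_le_of_ne h1 (phi_ne hD (L_ne L hp) ?_).symm
  have hc : ContinuousAt (fun y : W => pr (L y)) p :=
    (continuousAt_pr (L_ne L hp)).comp (f := fun y : W => L y) (cont_L L).continuousAt
  exact hc.continuousWithinAt.mem_closure h fun y hy => hy.2

theorem gW_smul (g : GG) (t : ℝ) (y : W) : g • t • y = t • g • y :=
  Prod.ext (g_smul g t y.1) (g_smul g t y.2)

theorem cont_g (g : GG) : Continuous fun y : W => g • y := by
  have : Continuous fun v : V3 => g • v := Continuous.matrix_mulVec continuous_const continuous_id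
  exact (this.comp continuous_fst).prodMk (this.comp continuous_snd)

theorem gW_ne (g : GG) {y : W} (hy : y ≠ 0) : g • y ≠ 0 := (smul_ne_zero_iff_ne g).2 hy

theorem Act.diag (h : Act L ψ fun g v => g • v) (g : GG) {y : W} (hy : y ≠ 0) :
    ψ g • pr (L y) = pr (L (g • y)) := h g y hy

theorem Act.pres_or (h : Act L ψ fun g v => g • v) (hD : InvariantDomain ψ.range φ Ω) (g : GG) :
    (∀ y ∈ cone L φ Ω, g • y ∈ cone L φ Ω) ∨ ∀ y ∈ cone L φ Ω, (-1 : ℝ) • g • y ∈ cone L φ Ω := by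
  have hin : ∀ y ∈ cone L φ Ω, pr (L (g • y)) ∈ Ω := fun y hy => by
    rw [← h.diag g (cone_ne hy)]
    exact hD.2.2.2.2 _ ⟨g, rfl⟩ _ hy.2
  have hor := fun y (hy : y ∈ cone L φ Ω) => cone_or hD (gW_ne g (cone_ne hy)) (hin y hy)
  by_contra hc
  push Not at hc
  obtain ⟨⟨y, hy, hy'⟩, z, hz, hz'⟩ := hc
  have a := ((hor y hy).resolve_left hy').1
  have b := ((hor z hz).resolve_right hz').1
  have c := cone_add hD (cone_smul hy b) (cone_smul hz a)
  apply phi_ne hD (L_ne L (gW_ne g (cone_ne c))) (subset_closure (hin _ c))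
  simp only [smul_add, gW_smul, map_add, map_smul, smul_eq_mul]
  ring

theorem Act.pres_sq (h : Act L ψ fun g v => g • v) (hD : InvariantDomain ψ.range φ Ω) (g : GG) :
    ∀ y ∈ cone L φ Ω, (g * g) • y ∈ cone L φ Ω := by
  intro y hy
  rcases h.pres_or hD g with k | k
  · rw [mul_smul]
    exact k _ (k y hy)
  · have := k _ (k y hy)
    rw [gW_smul, smul_smul] at this
    simpa [mul_smul] using this

noncomputable def lp : V3 := ![√3, 0, 1]
noncomputable def lm : V3 := ![-√3, 0, 1]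
def mm : V3 := ![0, 1, 0]

/-- pure tensors -/
def tn (v : V3) (u : ℝ × ℝ) : W := (u.1 • v, u.2 • v)

noncomputable def al (v : V3) : ℝ := (3 * v 2 + √3 * v 0) / 6
noncomputable def cl (v : V3) : ℝ := (3 * v 2 - √3 * v 0) / 6
noncomputable def AA (y : W) : ℝ × ℝ := (al y.1, al y.2)
noncomputable def BB (y : W) : ℝ × ℝ := (y.1 1, y.2 1)
noncomputable def CC' (y : W) : ℝ × ℝ := (cl y.1, cl y.2)

theorem r3 : √3 * √3 = (3 : ℝ) := Real.mul_self_sqrt (by norm_num)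

theorem dec3 (v : V3) : v = al v • lp + v 1 • mm + cl v • lm := by
  apply ext3 <;> simp [al, cl, lp, lm, mm]
  · linear_combination (-v 0 / 3) * r3
  · ring

theorem decW (y : W) : y = tn lp (AA y) + tn mm (BB y) + tn lm (CC' y) :=
  Prod.ext (dec3 y.1) (dec3 y.2)

theorem g_tn (g : GG) (v : V3) (u : ℝ × ℝ) : g • tn v u = tn (g • v) u :=
  Prod.ext (g_smul g _ _) (g_smul g _ _)

theorem tn_smul (v : V3) (t : ℝ) (u : ℝ × ℝ) : tn v (t • u) = t • tn v u := by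
  simp [tn, mul_smul]

theorem tn_smul' (v : V3) (t : ℝ) (u : ℝ × ℝ) : tn (t • v) u = t • tn v u := by
  simp [tn, smul_comm t]

theorem tn_add (v : V3) (u u' : ℝ × ℝ) : tn v (u + u') = tn v u + tn v u' := by
  simp [tn, add_smul]

theorem tn_ne {v : V3} (hv : v ≠ 0) {u : ℝ × ℝ} (hu : u ≠ 0) : tn v u ≠ 0 := by
  intro h
  apply hu
  exact Prod.ext ((smul_eq_zero.1 (congrArg Prod.fst h)).resolve_right hv)
    ((smul_eq_zero.1 (congrArg Prod.snd h)).resolve_right hv)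

theorem lp_ne : lp ≠ 0 := fun h => by simpa [lp] using congrFun h 2

/-- the half turn -/
def kk : GG := s1 * s2 * (s1 * s2)

theorem kk_smul (v : V3) : kk • v = ![-v 0, -v 1, v 2] := by
  simp only [kk, mul_smul, s1_smul, s2_smul]
  apply ext3 <;> simp

noncomputable def mu : ℝ := 7 - 4 * √3

theorem mu_pos : 0 < mu := by
  have := r3
  have := Real.sqrt_nonneg 3
  unfold mu
  nlinarith

theorem mu_lt : mu < 1 := by
  have := r3
  have := Real.sqrt_nonneg 3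
  unfold mu
  nlinarith

theorem gam_lp : mu • (g0 * g0) • lp = lp := by
  simp only [mul_smul, g0_smul]
  apply ext3 <;> simp [lp, mu]
  · linear_combination (-28) * r3
  · linear_combination (-16) * r3

theorem gam_mm : (g0 * g0) • mm = mm := by
  simp only [mul_smul, g0_smul]
  apply ext3 <;> simp [mm]

theorem gam_lm : (g0 * g0) • lm = mu • lm := by
  simp only [mul_smul, g0_smul]
  apply ext3 <;> simp [lm, mu]
  · linear_combination (-4) * r3
  · ring

theorem gam_pow (y : W) (n : ℕ) : mu ^ n • (g0 * g0) ^ n • y =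
    tn lp (AA y) + mu ^ n • tn mm (BB y) + (mu ^ n * mu ^ n) • tn lm (CC' y) := by
  induction n with
  | zero => simpa using decW y
  | succ n ih =>
    rw [pow_succ' (g0 * g0), pow_succ' mu, mul_smul, mul_smul, ← gW_smul (g0 * g0) (mu ^ n), ih,
      smul_add (g0 * g0), smul_add (g0 * g0), gW_smul, gW_smul, g_tn, g_tn, g_tn, gam_mm, gam_lm,
      smul_add, smul_add, ← tn_smul', gam_lp, tn_smul']
    module

theorem gam_lim (y : W) : Tendsto (fun n : ℕ => mu ^ n • (g0 * g0) ^ n • y) atTop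
    (𝓝 (tn lp (AA y))) := by
  simp only [gam_pow]
  have := tendsto_pow_atTop_nhds_zero_of_lt_one mu_pos.le mu_lt
  simpa using (tendsto_const_nhds.add (this.smul_const (tn mm (BB y)))).add
    ((this.mul this).smul_const (tn lm (CC' y)))

theorem AA_kk (y : W) : AA (kk • y) = CC' y := by
  simp [AA, CC', al, cl, kk_smul, sub_eq_add_neg]

theorem AA_smul (t : ℝ) (y : W) : AA (t • y) = t • AA y := by
  simp only [AA, al, Prod.smul_fst, Prod.smul_snd, Pi.smul_apply, smul_eq_mul, Prod.smul_mk]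
  congr 1 <;> ring

theorem AA_add_tn (y : W) (u : ℝ × ℝ) : AA (y + tn lp u) = AA y + u := by
  refine Prod.ext ?_ ?_ <;> simp [AA, al, tn, lp]
  · linear_combination (u.1 / 6) * r3
  · linear_combination (u.2 / 6) * r3

theorem CC_gam (y : W) (n : ℕ) : CC' (mu ^ n • (g0 * g0) ^ n • y) = (mu ^ n * mu ^ n) • CC' y := by
  rw [gam_pow]
  generalize AA y = a
  generalize BB y = b
  generalize CC' y = c
  generalize mu ^ n = t
  refine Prod.ext ?_ ?_ <;> simp [CC', cl, tn, lp, lm, mm]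
  · linear_combination ((t * t * c.1 - a.1) / 6) * r3
  · linear_combination ((t * t * c.2 - a.2) / 6) * r3

theorem CC_tn (t : ℝ) (u : ℝ × ℝ) : CC' (t • tn lp u) = 0 := by
  refine Prod.ext ?_ ?_ <;> simp [CC', cl, tn, lp]
  · linear_combination (-t * u.1) * r3
  · linear_combination (-t * u.2) * r3

theorem add_s1 (y : W) : y + s1 • y = (2 : ℝ) • (tn lp (AA y) + tn lm (CC' y)) := by
  have k : ∀ v : V3, v + s1 • v = (2 : ℝ) • (al v • lp + cl v • lm) := by
    intro v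
    rw [s1_smul]
    apply ext3 <;> simp [al, cl, lp, lm]
    · linear_combination (-2 * v 0 / 3) * r3
    · ring
  exact Prod.ext (k y.1) (k y.2)

theorem kk_lp : kk • lp = lm := by
  rw [kk_smul]
  apply ext3 <;> simp [lp, lm]

theorem s1_lp : s1 • lp = lp := by
  rw [s1_smul]
  apply ext3 <;> simp [lp]

theorem Act.not_cc (h : Act L ψ fun g v => g • v) : ¬ CC ψ.range := by
  rintro ⟨-, -, φ, Ω, hD, -, hcq⟩
  have hγ : ∀ n : ℕ, ∀ y ∈ cone L φ Ω, mu ^ n • (g0 * g0) ^ n • y ∈ cone L φ Ω := by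
    intro n y hy
    refine cone_smul ?_ (pow_pos mu_pos n)
    induction n with
    | zero => simpa using hy
    | succ n ih =>
      rw [pow_succ', mul_smul]
      exact h.pres_sq hD g0 _ ih
  have hκ : ∀ y ∈ cone L φ Ω, kk • y ∈ cone L φ Ω := h.pres_sq hD (s1 * s2)
  let J : Set (ℝ × ℝ) := AA '' cone L φ Ω
  have J1 : ∀ u ∈ J, tn lp u ∈ closure (cone L φ Ω) := by
    rintro _ ⟨y, hy, rfl⟩
    exact mem_closure_of_tendsto (gam_lim y) (Eventually.of_forall fun n => hγ n y hy)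
  have J2 : ∀ u ∈ J, tn lm u ∈ closure (cone L φ Ω) := by
    intro u hu
    rw [← kk_lp, ← g_tn]
    exact map_mem_closure (cont_g kk) (J1 u hu) hκ
  have J3 : ∀ u ∈ J, ∀ d : ℝ × ℝ, ∀ᶠ t : ℝ in 𝓝 0, u + t • d ∈ J := by
    rintro _ ⟨y, hy, rfl⟩ d
    have h1 : Continuous fun t : ℝ => y + t • tn lp d := by fun_prop
    have h2 := (h1.tendsto' 0 y (by simp)).eventually ((cone_open hD.2.1).mem_nhds hy)
    filter_upwards [h2] with t ht
    exact ⟨_, ht, by rw [← tn_smul, AA_add_tn]⟩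
  have J4 : ∀ u ∈ J, ∀ t : ℝ, 0 < t → t • u ∈ J := by
    rintro _ ⟨y, hy, rfl⟩ t ht
    exact ⟨_, cone_smul hy ht, AA_smul t y⟩
  have J5 : ∀ u ∈ J, u ≠ 0 := by
    rintro u hu rfl
    obtain ⟨δ, hδ, h3⟩ := Metric.eventually_nhds_iff.1 (J3 0 hu (1, 0))
    have e : ((1, 0) : ℝ × ℝ) ≠ 0 := by simp
    have a := h3 (y := δ / 2) (by rw [Real.dist_eq, sub_zero, abs_of_pos] <;> linarith)
    have b := h3 (y := -(δ / 2)) (by rw [Real.dist_eq, sub_zero, abs_neg, abs_of_pos] <;> linarith)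
    rw [zero_add] at a b
    have a' := cl_pos hD (tn_ne lp_ne (smul_ne_zero (by linarith) e)) (J1 _ a)
    have b' := cl_pos hD (tn_ne lp_ne (smul_ne_zero (by linarith) e)) (J1 _ b)
    simp only [tn_smul, map_smul, smul_eq_mul] at a' b'
    linarith
  have J6 : ∀ u ∈ J, 0 < φ (L (tn lp u)) := fun u hu => cl_pos hD (tn_ne lp_ne (J5 u hu)) (J1 u hu)
  have J7 : ∀ y ∈ cone L φ Ω, CC' y ∈ J := fun y hy => ⟨_, hκ y hy, AA_kk y⟩
  have J8 : ∀ u ∈ J, ∀ g : GG, pr (L (g • tn lp u)) ∈ orbitalLimitSet ψ.range Ω := by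
    rintro _ ⟨y, hy, rfl⟩ g
    have p0 := tn_ne lp_ne (J5 _ ⟨y, hy, rfl⟩)
    have t1 := (continuousAt_pr (L_ne L (gW_ne g p0))).tendsto.comp
      (((cont_L L).tendsto _).comp (((cont_g g).tendsto _).comp (gam_lim y)))
    refine ⟨_, hy.2, accPt_of_seq (fun n => ?_) (fun n e => ?_) t1⟩
    · refine mem_orbit_range.2 ⟨g * (g0 * g0) ^ n, ?_⟩
      simp only [Function.comp_apply]
      rw [h.diag _ (cone_ne hy), gW_smul, mul_smul,
        pr_L_smul L (gW_ne _ (gW_ne _ (cone_ne hy))) (pow_pos mu_pos n).ne']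
    · obtain ⟨t, ht⟩ := pr_L_eq (gW_ne g (cone_ne (hγ n y hy))) (gW_ne g p0) e
      rw [← gW_smul] at ht
      have h1 := congrArg CC' (MulAction.injective g ht)
      rw [CC_tn, CC_gam] at h1
      have := pow_pos mu_pos n
      exact smul_ne_zero (mul_pos this this).ne' (J5 _ (J7 y hy)) h1.symm
  obtain ⟨x0, hx0⟩ := hD.1
  obtain ⟨y0, hy0⟩ : (cone L φ Ω).Nonempty := by
    obtain ⟨y, hy, rfl⟩ := exists_pr_L L x0
    rcases cone_or hD hy hx0 with k | k
    exacts [⟨_, k⟩, ⟨_, k⟩]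
  have ha0 : AA y0 ∈ J := ⟨y0, hy0, rfl⟩
  have hs1 : ∀ y ∈ cone L φ Ω, s1 • y ∈ cone L φ Ω := by
    refine (h.pres_or hD s1).resolve_right fun k => ?_
    have h1 := map_mem_closure (f := fun y : W => (-1 : ℝ) • s1 • y)
      ((continuous_const_smul _).comp (cont_g s1)) (J1 _ ha0) k
    rw [g_tn, s1_lp] at h1
    have h2 := cl_pos hD (smul_ne_zero (by norm_num) (tn_ne lp_ne (J5 _ ha0))) h1
    have h3 := J6 _ ha0
    simp only [map_smul, smul_eq_mul] at h2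
    linarith
  have J9 : ∀ u ∈ J, tn lp u + tn lm u ∈ cone L φ Ω := by
    rintro _ ⟨y, hy, rfl⟩
    have hu : AA y ∈ J := ⟨y, hy, rfl⟩
    obtain ⟨δ, hδ, h3⟩ := Metric.eventually_nhds_iff.1 (J3 _ hu (-CC' y))
    obtain ⟨ε, e0, e1, e2⟩ : ∃ ε : ℝ, 0 < ε ∧ ε < 1 ∧ ε < δ :=
      ⟨min (1 / 2) (δ / 2), lt_min (by norm_num) (by linarith), (min_le_left _ _).trans_lt (by norm_num),
        (min_le_right _ _).trans_lt (by linarith)⟩
    have a := h3 (y := ε) (by rw [Real.dist_eq, sub_zero, abs_of_pos] <;> linarith)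
    have b := cone_smul (cone_add hD hy (hs1 y hy)) (half_pos e0)
    have c := cone_add_cl hD (cone_add_cl hD b (J1 _ (J4 _ hu (1 - ε) (by linarith)))) (J2 _ a)
    convert c using 1
    rw [add_s1, smul_neg, ← neg_smul, tn_add, tn_smul, tn_smul]
    module
  have J10 : ∀ u ∈ J, pr (L (tn lp u + tn lm u)) ∈ convexCore ψ.range φ Ω := by
    intro u hu
    have q1 := J6 u hu
    have l1 := J8 u hu 1
    have l2 := J8 u hu kk
    have q2 := cl_pos hD (gW_ne kk (tn_ne lp_ne (J5 u hu))) (by rw [g_tn, kk_lp]; exact J2 u hu)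
    rw [one_smul] at l1
    rw [g_tn, kk_lp] at l2 q2
    have hp := add_pos q1 q2
    have hm := (convex_convexHull ℝ (chart φ (orbitalLimitSet ψ.range Ω)))
      (subset_convexHull _ _ (chart_of q1 l1)) (subset_convexHull _ _ (chart_of q2 l2))
      (div_pos q1 hp).le (div_pos q2 hp).le (by field_simp)
    rw [comb_eq q1 q2, ← map_add L] at hm
    have hy0 := cone_ne (J9 u hu)
    refine ⟨(J9 u hu).2, _, hm, smul_ne_zero (inv_ne_zero hp.ne') (L_ne L hy0), ?_⟩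
    rw [← pr_eq, pr_smul (L_ne L hy0) (inv_ne_zero hp.ne')]
  generalize AA y0 = a at ha0
  have f0 := J6 a ha0
  obtain ⟨d, hd1, hd2⟩ : ∃ d : ℝ × ℝ, φ (L (tn lp d)) < 0 ∧ ∀ t : ℝ, a + t • d ≠ 0 := by
    refine ⟨(-a.2, a.1) + (-((|φ (L (tn lp (-a.2, a.1)))| + 1) / φ (L (tn lp a)))) • a, ?_, ?_⟩
    · rw [tn_add, tn_smul, map_add, map_add, map_smul, map_smul, smul_eq_mul, neg_mul,
        div_mul_cancel₀ _ f0.ne']
      linarith [le_abs_self (φ (L (tn lp (-a.2, a.1))))]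
    · intro t e
      generalize -((|φ (L (tn lp (-a.2, a.1)))| + 1) / φ (L (tn lp a))) = s at e
      have e1 : a.1 + t * (-a.2 + s * a.1) = 0 := congrArg Prod.fst e
      have e2 : a.2 + t * (a.1 + s * a.2) = 0 := congrArg Prod.snd e
      have e3 : t * (a.1 * a.1 + a.2 * a.2) = 0 := by linear_combination a.1 * e2 - a.2 * e1
      apply J5 a ha0
      rcases mul_eq_zero.1 e3 with k | k
      · rw [k] at e1 e2
        exact Prod.ext (by simpa using e1) (by simpa using e2)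
      · have := mul_self_nonneg a.1
        have := mul_self_nonneg a.2
        exact Prod.ext (mul_self_eq_zero.1 (by linarith)) (mul_self_eq_zero.1 (by linarith))
  let S : Set ℝ := {t | a + t • d ∈ J}
  have fS : ∀ t : ℝ, φ (L (tn lp (a + t • d))) = φ (L (tn lp a)) + t * φ (L (tn lp d)) := by
    intro t
    rw [tn_add, tn_smul, map_add, map_add, map_smul, map_smul, smul_eq_mul]
  have S0 : S.Nonempty := ⟨0, by simpa [S] using ha0⟩
  have S1 : BddAbove S := ⟨φ (L (tn lp a)) / -φ (L (tn lp d)), fun t ht => by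
    have := J6 _ ht
    rw [fS] at this
    rw [le_div_iff₀ (by linarith)]
    linarith⟩
  set T := sSup S with hT
  have hTS : T ∉ S := by
    intro k
    obtain ⟨δ, hδ, h3⟩ := Metric.eventually_nhds_iff.1 (J3 _ k d)
    have b := h3 (y := δ / 2) (by rw [Real.dist_eq, sub_zero, abs_of_pos] <;> linarith)
    rw [add_assoc, ← add_smul] at b
    have := le_csSup S1 (show T + δ / 2 ∈ S from b)
    linarith
  have hT0 : 0 ≤ φ (L (tn lp (a + T • d))) := by
    have : T ≤ φ (L (tn lp a)) / -φ (L (tn lp d)) := csSup_le S0 fun t ht => by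
      have := J6 _ ht
      rw [fS] at this
      rw [le_div_iff₀ (by linarith)]
      linarith
    rw [le_div_iff₀ (by linarith)] at this
    rw [fS]
    linarith
  let D : ℕ → Set W := fun n => {y | ∃ t ∈ Icc (T - 1 / ((n : ℝ) + 1)) T,
    (a + t • d).2 • y.1 = (a + t • d).1 • y.2}
  have Ds : ∀ n, Sc (D n) := by
    rintro n y ⟨t, ht, e⟩ c -
    exact ⟨t, ht, by rw [Prod.smul_fst, Prod.smul_snd, smul_comm, e, smul_comm]⟩
  have Dc : ∀ n, IsClosed (D n) := by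
    intro n
    have := isClosedMap_snd_of_compactSpace (X := Icc (T - 1 / ((n : ℝ) + 1)) T) (Y := W)
      {p | (a + p.1.1 • d).2 • p.2.1 = (a + p.1.1 • d).1 • p.2.2}
      (isClosed_eq (by fun_prop) (by fun_prop))
    convert this using 1
    ext y
    constructor
    · rintro ⟨t, ht, e⟩
      exact ⟨(⟨t, ht⟩, y), e, rfl⟩
    · rintro ⟨⟨⟨t, ht⟩, _⟩, e, rfl⟩
      exact ⟨t, ht, e⟩
  obtain ⟨x, hx, hxD⟩ := nested hcq (fun n => PP L (D n)) (fun n => (Ds n).isClosed L (Dc n))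
    (by
      rintro n x ⟨t, ht, e⟩
      refine ⟨t, ⟨le_trans ?_ ht.1, ht.2⟩, e⟩
      have : 1 / (((n + 1 : ℕ) : ℝ) + 1) ≤ 1 / ((n : ℝ) + 1) := by
        push_cast
        gcongr
        linarith
      linarith)
    (by
      rintro n _ ⟨g, rfl⟩ x hx
      obtain ⟨y, hy, rfl⟩ := exists_pr_L L x
      rw [h.diag g hy, (Ds n).mem L (gW_ne g hy)]
      obtain ⟨t, ht, e⟩ := ((Ds n).mem L hy).1 hx
      exact ⟨t, ht, by rw [Prod.smul_fst, Prod.smul_snd, ← g_smul, ← g_smul, e]⟩)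
    (by
      intro n
      have : 0 < 1 / ((n : ℝ) + 1) := by positivity
      obtain ⟨t, ht, ht'⟩ := exists_lt_of_lt_csSup S0 (show T - 1 / ((n : ℝ) + 1) < sSup S by linarith)
      refine ⟨_, J10 _ ht, ?_⟩
      rw [(Ds n).mem L (cone_ne (J9 _ ht))]
      refine ⟨t, ⟨ht'.le, le_csSup S1 ht⟩, ?_⟩
      simp only [tn, Prod.fst_add, Prod.snd_add]
      module)
  obtain ⟨y, hy, rfl⟩ : ∃ y ∈ cone L φ Ω, pr (L y) = x := by
    obtain ⟨y, hy, rfl⟩ := exists_pr_L L x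
    rcases cone_or hD hy hx.1 with k | k
    · exact ⟨_, k, rfl⟩
    · exact ⟨_, k, pr_L_smul L hy (by norm_num)⟩
  choose t ht e using fun n => ((Ds n).mem L (cone_ne hy)).1 (hxD n)
  have tl : Tendsto t atTop (𝓝 T) := by
    refine tendsto_of_tendsto_of_tendsto_of_le_of_le ?_ tendsto_const_nhds (fun n => (ht n).1)
      (fun n => (ht n).2)
    simpa using (tendsto_const_nhds (x := T)).sub (tendsto_one_div_add_atTop_nhds_zero_nat (𝕜 := ℝ))
  have eT : (a + T • d).2 • y.1 = (a + T • d).1 • y.2 :=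
    (isClosed_eq (f := fun t : ℝ => (a + t • d).2 • y.1) (g := fun t : ℝ => (a + t • d).1 • y.2)
      (by fun_prop) (by fun_prop)).mem_of_tendsto tl (Eventually.of_forall e)
  have hb : AA y ∈ J := ⟨y, hy, rfl⟩
  have hu := hd2 T
  have hTS' : a + T • d ∉ J := hTS
  generalize a + T • d = u at eT hu hTS' hT0
  have e1 : u.2 * (AA y).1 = u.1 * (AA y).2 := by
    have k0 : u.2 * y.1 0 = u.1 * y.2 0 := congrFun eT 0
    have k2 : u.2 * y.1 2 = u.1 * y.2 2 := congrFun eT 2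
    simp only [AA, al]
    linear_combination (1 / 2) * k2 + (√3 / 6) * k0
  generalize AA y = b at hb e1
  have n0 : 0 < u.1 * u.1 + u.2 * u.2 := by
    by_contra k
    have := mul_self_nonneg u.1
    have := mul_self_nonneg u.2
    exact hu (Prod.ext (mul_self_eq_zero.1 (by linarith)) (mul_self_eq_zero.1 (by linarith)))
  obtain ⟨r, rfl⟩ : ∃ r : ℝ, b = r • u := by
    refine ⟨(b.1 * u.1 + b.2 * u.2) / (u.1 * u.1 + u.2 * u.2), Prod.ext ?_ ?_⟩
    · simp only [Prod.smul_fst, smul_eq_mul]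
      rw [div_mul_eq_mul_div, eq_div_iff n0.ne']
      linear_combination u.2 * e1
    · simp only [Prod.smul_snd, smul_eq_mul]
      rw [div_mul_eq_mul_div, eq_div_iff n0.ne']
      linear_combination (-u.1) * e1
  have k := J6 _ hb
  rw [tn_smul, map_smul, map_smul, smul_eq_mul] at k
  have r0 : 0 < r := by
    by_contra k'
    push Not at k'
    nlinarith
  have := J4 _ hb r⁻¹ (inv_pos.2 r0)
  rw [smul_smul, inv_mul_cancel₀ r0.ne', one_smul] at this
  exact hTS' this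

end Pool.Agent.P.MP_7d68c1_gt.Six
end

-- part Pool.Agent.P.MP_7d68c1_gt.NRing
section

namespace Pool.Agent.P.MP_7d68c1_gt.Six

variable {A : Type} [Ring A]

def w2 (r1 r3 : A) : A := (4 : ℤ) • 1 - (1 - r1) * (1 - r3)
def w4 (r1 r2 : A) : A := (r1 * r2 + r2 * r1) * (1 - r2) * ((r1 * r2 + r2 * r1) * (1 - r2)) - (16 : ℤ) • 1
def w6 (r3 r2 : A) : A :=
  (r3 * r2 + r2 * r3 + 1) * ((r3 * r2 + r2 * r3) * (r3 * r2 + r2 * r3) - (4 : ℤ) • 1) * (1 - r2) -
    (6 : ℤ) • (1 + r2)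
def ax (r1 r2 : A) : A := (2 : ℤ) • (1 - r2) - (1 - r1) * (1 - r2)
def ay (r1 r2 : A) : A := -((1 - r1) * (1 - r2))
def az (r1 r2 r3 : A) : A :=
  (-6 : ℤ) • (1 - r2) + (3 : ℤ) • ((1 - r1) * (1 - r2)) + (2 : ℤ) • ((1 - r3) * (1 - r2))
def lmat (r1 r2 r3 e1 e2 e3 : A) : A := ax r1 r2 * e1 + ay r1 r2 * e2 + az r1 r2 r3 * e3

theorem inv_pair {r s : A} (hr : r * r = 1) (hs : s * s = 1) : s * r * (r * s) = 1 := by
  calc s * r * (r * s) = s * (r * r) * s := by noncomm_ring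
    _ = 1 := by rw [hr, mul_one, hs]

theorem swap_eq {r s : A} (hr : r * r = 1) (hs : s * s = 1) {n : ℕ} (h : (r * s) ^ (n + 1) = 1) :
    s * r = (r * s) ^ n := by
  calc s * r = s * r * (r * s) ^ (n + 1) := by rw [h, mul_one]
    _ = (r * s) ^ n := by rw [pow_succ', ← mul_assoc, inv_pair hr hs, one_mul]

theorem comm_X {r s : A} (hs : s * s = 1) : Commute (1 - s) (r * s + s * r) := by
  have h1 : s * (s * r) = r := by rw [← mul_assoc, hs, one_mul]
  have h2 : r * s * s = r := by rw [mul_assoc, hs, mul_one]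
  refine Commute.sub_left (Commute.one_left _) ?_
  show s * (r * s + s * r) = (r * s + s * r) * s
  rw [mul_add, add_mul, h1, h2, add_comm, mul_assoc]

theorem q_sq {s : A} (hs : s * s = 1) : (1 - s) * (1 - s) = (2 : ℤ) • (1 - s) := by
  calc (1 - s) * (1 - s) = 1 - (2 : ℤ) • s + s * s := by noncomm_ring
    _ = (2 : ℤ) • (1 - s) := by rw [hs]; noncomm_ring

theorem qqq {r s : A} (hs : s * s = 1) :
    (1 - s) * ((1 - r) * (1 - s)) = (2 : ℤ) • (1 - s) + (r * s + s * r) * (1 - s) := by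
  calc (1 - s) * ((1 - r) * (1 - s)) =
      1 - (2 : ℤ) • s + s * s - r + r * s + s * r - s * r * s := by noncomm_ring
    _ = (2 : ℤ) • (1 - s) + (r * s + s * r - r * 1 - s * r * s) := by rw [hs]; noncomm_ring
    _ = (2 : ℤ) • (1 - s) + (r * s + s * r) * (1 - s) := by
      conv_lhs => rw [show r * 1 = r * (s * s) by rw [hs]]
      noncomm_ring

theorem w2_mul {r s : A} (hr : r * r = 1) (hs : s * s = 1) (h : (r * s) ^ 2 = 1) :
    (1 - s) * (1 - r) = (1 - r) * (1 - s) ∧ (1 - r) * (1 - s) * w2 r s = 0 := by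
  have h1 : s * r = r * s := by simpa using swap_eq hr hs (n := 1) h
  have h2 : (1 - s) * (1 - r) = (1 - r) * (1 - s) := by
    calc (1 - s) * (1 - r) = 1 - r - s + s * r := by noncomm_ring
      _ = (1 - r) * (1 - s) := by rw [h1]; noncomm_ring
  refine ⟨h2, ?_⟩
  have h3 := q_sq hr
  have h4 := q_sq hs
  unfold w2
  generalize 1 - r = p at h2 h3
  generalize 1 - s = q at h2 h4
  calc p * q * ((4 : ℤ) • 1 - p * q) = (4 : ℤ) • (p * q) - p * (q * p) * q := by noncomm_ring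
    _ = (4 : ℤ) • (p * q) - (p * p) * (q * q) := by rw [h2]; noncomm_ring
    _ = 0 := by rw [h3, h4]; noncomm_ring

theorem w4_mul {r s : A} (hr : r * r = 1) (hs : s * s = 1) (h : (r * s) ^ 4 = 1) :
    (r * s + s * r) * (1 - s) * w4 r s = 0 := by
  have h1 : s * r = (r * s) ^ 3 := swap_eq hr hs h
  have h2 : (r * s + s * r) * (r * s + s * r) * (r * s + s * r) = (4 : ℤ) • (r * s + s * r) := by
    rw [h1]
    generalize r * s = g at h
    calc (g + g ^ 3) * (g + g ^ 3) * (g + g ^ 3) =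
        (4 : ℤ) • (g + g ^ 3) + (g ^ 4 - 1) * (g ^ 5 + (3 : ℤ) • g ^ 3 + (4 : ℤ) • g) := by noncomm_ring
      _ = (4 : ℤ) • (g + g ^ 3) := by rw [h]; simp
  have h3 := (comm_X (r := r) hs).eq
  have h4 := q_sq hs
  unfold w4
  generalize r * s + s * r = X at h2 h3
  generalize 1 - s = q at h3 h4
  calc X * q * (X * q * (X * q) - (16 : ℤ) • 1) =
      X * (q * X) * (q * X) * q - (16 : ℤ) • (X * q) := by noncomm_ring
    _ = X * X * (q * X) * q * q - (16 : ℤ) • (X * q) := by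
      rw [h3, mul_assoc X (X * q) (X * q), mul_assoc X q (X * q), ← mul_assoc q X q, h3]
      simp only [mul_assoc]
    _ = X * X * X * (q * q) * q - (16 : ℤ) • (X * q) := by rw [h3]; noncomm_ring
    _ = (8 : ℤ) • (X * (q * q)) - (16 : ℤ) • (X * q) := by
      rw [h2]
      conv_lhs => rw [h4]
      noncomm_ring
    _ = 0 := by rw [h4]; noncomm_ring

theorem w6_mul {r s : A} (hr : r * r = 1) (hs : s * s = 1) (h : (r * s) ^ 6 = 1) :
    (r * s + s * r - 1) * (1 - s) * w6 r s = 0 := by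
  have h1 : s * r = (r * s) ^ 5 := swap_eq hr hs h
  have h2 : (r * s + s * r - 1) * (r * s + s * r + 1) *
      ((r * s + s * r) * (r * s + s * r) - (4 : ℤ) • 1) = 0 := by
    rw [h1]
    generalize r * s = g at h
    have e1 : (g + g ^ 5) * (g + g ^ 5) = g ^ 2 + g ^ 4 + (2 : ℤ) • 1 := by
      calc (g + g ^ 5) * (g + g ^ 5) =
          g ^ 2 + g ^ 4 + (2 : ℤ) • 1 + (g ^ 6 - 1) * (g ^ 4 + (2 : ℤ) • 1) := by noncomm_ring
        _ = _ := by rw [h]; simp
    calc (g + g ^ 5 - 1) * (g + g ^ 5 + 1) * ((g + g ^ 5) * (g + g ^ 5) - (4 : ℤ) • 1) =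
        ((g + g ^ 5) * (g + g ^ 5) - 1) * ((g + g ^ 5) * (g + g ^ 5) - (4 : ℤ) • 1) := by
          generalize g + g ^ 5 = X
          noncomm_ring
      _ = (g ^ 6 - 1) * (g ^ 2 + (2 : ℤ) • 1) := by rw [e1]; noncomm_ring
      _ = 0 := by rw [h]; simp
  have h3 := (comm_X (r := r) hs).eq
  have h5 : (1 - s) * (1 + s) = 0 := by
    calc (1 - s) * (1 + s) = 1 - s * s := by noncomm_ring
      _ = 0 := by rw [hs, sub_self]
  unfold w6
  generalize r * s + s * r = X at h2 h3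
  generalize 1 + s = q' at h5
  generalize 1 - s = q at h3 h5
  have h6 : q * ((X + 1) * (X * X - (4 : ℤ) • 1)) = (X + 1) * (X * X - (4 : ℤ) • 1) * q := by
    have c : Commute q X := h3
    exact ((c.add_right (Commute.one_right q)).mul_right
      ((c.mul_right c).sub_right ((Commute.one_right q).smul_right _))).eq
  calc (X - 1) * q * ((X + 1) * (X * X - (4 : ℤ) • 1) * q - (6 : ℤ) • q') =
      (X - 1) * (q * ((X + 1) * (X * X - (4 : ℤ) • 1))) * q - (6 : ℤ) • ((X - 1) * (q * q')) := by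
        generalize (X + 1) * (X * X - (4 : ℤ) • 1) = Z
        generalize X - 1 = Y
        noncomm_ring
    _ = (X - 1) * (X + 1) * (X * X - (4 : ℤ) • 1) * (q * q) - (6 : ℤ) • ((X - 1) * (q * q')) := by
        rw [h6]; simp only [mul_assoc]
    _ = 0 := by rw [h2, h5]; simp

theorem intertwine {r1 r2 r3 : A} (h1 : r1 * r1 = 1) (h2 : r2 * r2 = 1) (h3 : r3 * r3 = 1)
    (h13 : (1 - r1) * (1 - r3) = 0) (h31 : (1 - r3) * (1 - r1) = 0)
    (h12 : (r1 * r2 + r2 * r1) * (1 - r2) = 0) (h32 : (r3 * r2 + r2 * r3 - 1) * (1 - r2) = 0)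
    {e1 e2 e3 : A} :
    r1 * lmat r1 r2 r3 e1 e2 e3 = lmat r1 r2 r3 e1 (-e2) e3 ∧
    r2 * lmat r1 r2 r3 e1 e2 e3 = lmat r1 r2 r3 e2 e1 e3 ∧
    r3 * lmat r1 r2 r3 e1 e2 e3 =
      lmat r1 r2 r3 ((-2 : ℤ) • e1 + (3 : ℤ) • e3) e2 (-e1 + (2 : ℤ) • e3) := by
  have a1 := q_sq h1
  have a2 := q_sq h2
  have a3 := q_sq h3
  have b1 := qqq (r := r1) h2
  have b3 := qqq (r := r3) h2
  rw [h12, add_zero] at b1
  rw [sub_mul, one_mul, sub_eq_zero] at h32
  rw [h32] at b3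
  have c1 : r1 = 1 - (1 - r1) := by simp
  have c2 : r2 = 1 - (1 - r2) := by simp
  have c3 : r3 = 1 - (1 - r3) := by simp
  unfold lmat ax ay az
  generalize 1 - r1 = q1 at *
  generalize 1 - r2 = q2 at *
  generalize 1 - r3 = q3 at *
  have k1 : ∀ x : A, q1 * (q1 * x) = (2 : ℤ) • (q1 * x) := fun x => by
    rw [← mul_assoc, a1, smul_mul_assoc]
  have k2 : ∀ x : A, q2 * (q2 * x) = (2 : ℤ) • (q2 * x) := fun x => by
    rw [← mul_assoc, a2, smul_mul_assoc]
  have k3 : ∀ x : A, q3 * (q3 * x) = (2 : ℤ) • (q3 * x) := fun x => by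
    rw [← mul_assoc, a3, smul_mul_assoc]
  have k13 : ∀ x : A, q1 * (q3 * x) = 0 := fun x => by rw [← mul_assoc, h13, zero_mul]
  have k31 : ∀ x : A, q3 * (q1 * x) = 0 := fun x => by rw [← mul_assoc, h31, zero_mul]
  have k212 : ∀ x : A, q2 * (q1 * (q2 * x)) = (2 : ℤ) • (q2 * x) := fun x => by
    rw [← smul_mul_assoc, ← b1]; simp only [mul_assoc]
  have k232 : ∀ x : A, q2 * (q3 * (q2 * x)) = (2 : ℤ) • (q2 * x) + q2 * x := fun x => by
    rw [← smul_mul_assoc, ← add_mul, ← b3]; simp only [mul_assoc]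
  refine ⟨?_, ?_, ?_⟩
  · rw [c1]
    simp only [mul_add, add_mul, mul_sub, sub_mul, one_mul, neg_mul, mul_neg, mul_assoc, mul_smul_comm,
      smul_mul_assoc, k1, k13]
    module
  · rw [c2]
    simp only [mul_add, add_mul, mul_sub, sub_mul, one_mul, neg_mul, mul_neg, mul_assoc, mul_smul_comm,
      smul_mul_assoc, k2, k212, k232]
    module
  · rw [c3]
    simp only [mul_add, add_mul, mul_sub, sub_mul, one_mul, neg_mul, mul_neg, mul_assoc, mul_smul_comm,
      smul_mul_assoc, k3, k31]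
    module

end Pool.Agent.P.MP_7d68c1_gt.Six
end

-- part Pool.Agent.P.MP_7d68c1_gt.NMain
section

open scoped LinearAlgebra.Projectivization MatrixGroups Topology
open Matrix Filter Set

namespace Pool.Agent.P.MP_7d68c1_gt.Six

/-- a fixed identification -/
noncomputable def L0 : W ≃ₗ[ℝ] V6 := LinearEquiv.ofFinrankEq _ _ (by simp)

/-- block diagonal matrices -/
noncomputable def blk (A B : M3) : M6 :=
  LinearMap.toMatrix' (L0.toLinearMap ∘ₗ (Matrix.toLin' A).prodMap (Matrix.toLin' B) ∘ₗ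
    L0.symm.toLinearMap)

theorem blk_mulVec (A B : M3) (y : W) : blk A B *ᵥ L0 y = L0 (A *ᵥ y.1, B *ᵥ y.2) := by
  simp [blk, LinearMap.toMatrix'_mulVec]

theorem m_ext {A B : M6} (h : ∀ y, A *ᵥ L0 y = B *ᵥ L0 y) : A = B := by
  ext i j
  have := congrFun (h (L0.symm (Pi.single j 1))) i
  simpa using this

theorem blk_mul (A B C D : M3) : blk (A * C) (B * D) = blk A B * blk C D :=
  m_ext fun y => by rw [← mulVec_mulVec, blk_mulVec, blk_mulVec, blk_mulVec, mulVec_mulVec, mulVec_mulVec]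

theorem blk_one : blk 1 1 = 1 :=
  m_ext fun y => by rw [blk_mulVec, one_mulVec, one_mulVec, one_mulVec]

/-- the diagonal embedding -/
noncomputable def dgm : M3 →+* M6 where
  toFun A := blk A A
  map_one' := blk_one
  map_mul' A B := blk_mul A A B B
  map_zero' := m_ext fun y => by
    rw [blk_mulVec, zero_mulVec, zero_mulVec, zero_mulVec]
    exact L0.map_zero
  map_add' A B := m_ext fun y => by
    rw [add_mulVec, blk_mulVec, blk_mulVec, blk_mulVec, add_mulVec, add_mulVec, ← map_add]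
    rfl

/-- the upper left embedding -/
noncomputable def hlf : M3 →* M6 where
  toFun A := blk A 1
  map_one' := blk_one
  map_mul' A B := by rw [← blk_mul, mul_one]

noncomputable def lift6 (f : M3 →* M6) : GG →* GL (Fin 6) ℝ := (Units.map f).comp GG.subtype

noncomputable def iota1 : GG →* PGL(6, ℝ) := ProjGenLinGroup.mk.comp (lift6 hlf)
noncomputable def iota2 : GG →* PGL(6, ℝ) := ProjGenLinGroup.mk.comp (lift6 dgm.toMonoidHom)

theorem act1 : Act L0 iota1 fun _ v => v := by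
  intro g y hy
  show ProjGenLinGroup.mk (lift6 hlf g) • _ = _
  rw [mk_smul_pr _ (L_ne L0 hy)]
  show pr (blk (mt g) 1 *ᵥ L0 y) = _
  rw [blk_mulVec, one_mulVec, smul_eq]

theorem act2 : Act L0 iota2 fun g v => g • v := by
  intro g y hy
  show ProjGenLinGroup.mk (lift6 dgm.toMonoidHom g) • _ = _
  rw [mk_smul_pr _ (L_ne L0 hy)]
  show pr (blk (mt g) (mt g) *ᵥ L0 y) = _
  rw [blk_mulVec]
  rfl

def f1 : M3 := !![1, 0, 0; -1, 0, 0; 0, 0, 0]
def f2 : M3 := !![0, 1, 0; 0, -1, 0; 0, 0, 0]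
def f3 : M3 := !![0, 0, 1; 0, 0, -1; 0, 0, 0]

/-- the candidate conjugating matrix -/
noncomputable def Lm (R1 R2 R3 : M6) : M6 := lmat R1 R2 R3 (dgm f1) (dgm f2) (dgm f3)

def Good0 (R1 R2 R3 : M6) : Prop :=
  0 < ((R1 * R3) ^ 2).trace ∧ 0 < ((R1 * R2) ^ 4).trace ∧ 0 < ((R3 * R2) ^ 6).trace ∧
    (w2 R1 R3).det ≠ 0 ∧ (w4 R1 R2).det ≠ 0 ∧ (w6 R3 R2).det ≠ 0 ∧ (Lm R1 R2 R3).det ≠ 0

theorem isOpen_good0 : IsOpen {p : M6 × M6 × M6 | Good0 p.1 p.2.1 p.2.2} := by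
  have t : ∀ {f : M6 × M6 × M6 → M6}, Continuous f → IsOpen {p | 0 < (f p).trace} :=
    fun hf => isOpen_lt continuous_const hf.matrix_trace
  have d : ∀ {f : M6 × M6 × M6 → M6}, Continuous f → IsOpen {p | (f p).det ≠ 0} :=
    fun hf => isOpen_ne_fun hf.matrix_det continuous_const
  refine (t (f := fun p => (p.1 * p.2.2) ^ 2) ?_).inter
    ((t (f := fun p => (p.1 * p.2.1) ^ 4) ?_).inter ((t (f := fun p => (p.2.2 * p.2.1) ^ 6) ?_).inter
    ((d (f := fun p => w2 p.1 p.2.2) ?_).inter ((d (f := fun p => w4 p.1 p.2.1) ?_).inter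
    ((d (f := fun p => w6 p.2.2 p.2.1) ?_).inter (d (f := fun p => Lm p.1 p.2.1 p.2.2) ?_))))))
  · fun_prop
  · fun_prop
  · fun_prop
  · unfold w2; fun_prop
  · unfold w4; fun_prop
  · unfold w6; fun_prop
  · unfold Lm lmat ax ay az; fun_prop

theorem det_z {c : ℤ} (hc : c ≠ 0) : (c • (1 : M6)).det ≠ 0 := by
  rw [← Int.cast_smul_eq_zsmul ℝ, det_smul, det_one, mul_one]
  exact pow_ne_zero _ (Int.cast_ne_zero.2 hc)

theorem good_base : Good0 (dgm m1) (dgm m2) (dgm m3) := by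
  have pw : ∀ (g : GG) (n : ℕ), mt (g ^ n) = mt g ^ n := fun g n => by
    induction n with
    | zero => rfl
    | succ n ih => rw [pow_succ, pow_succ, mt_mul, ih]
  have a1 : (m1 * m3) ^ 2 = 1 := by
    have := congrArg mt rel13
    rwa [pw] at this
  have a2 : (m1 * m2) ^ 4 = 1 := by
    have := congrArg mt rel12
    rwa [pw] at this
  have a3 : (m3 * m2) ^ 6 = 1 := by
    have := congrArg mt rel32
    rwa [pw] at this
  have b1 : w2 m1 m3 = (4 : ℤ) • 1 := by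
    ext i j
    fin_cases i <;> fin_cases j <;>
      simp only [w2, m1, m3, Matrix.mul_apply, Fin.sum_univ_three, Matrix.one_apply, Matrix.sub_apply,
        Matrix.smul_apply] <;> simp
  have b2 : w4 m1 m2 = (-16 : ℤ) • 1 := by
    ext i j
    fin_cases i <;> fin_cases j <;>
      simp only [w4, m1, m2, Matrix.mul_apply, Fin.sum_univ_three, Matrix.one_apply, Matrix.sub_apply,
        Matrix.add_apply, Matrix.smul_apply] <;> simp
  have b3 : w6 m3 m2 = (-12 : ℤ) • 1 := by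
    ext i j
    fin_cases i <;> fin_cases j <;>
      simp only [w6, m3, m2, Matrix.mul_apply, Fin.sum_univ_three, Matrix.one_apply, Matrix.sub_apply,
        Matrix.add_apply, Matrix.smul_apply] <;> simp <;> norm_num
  have b4 : lmat m1 m2 m3 f1 f2 f3 = (4 : ℤ) • 1 := by
    ext i j
    fin_cases i <;> fin_cases j <;>
      simp only [lmat, ax, ay, az, m1, m3, m2, f1, f2, f3, Matrix.mul_apply, Fin.sum_univ_three,
        Matrix.one_apply, Matrix.sub_apply, Matrix.add_apply, Matrix.smul_apply, Matrix.neg_apply] <;>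
      simp <;> norm_num
  have c1 : w2 (dgm m1) (dgm m3) = dgm (w2 m1 m3) := by
    simp only [w2, map_sub, map_mul, map_one, map_zsmul]
  have c2 : w4 (dgm m1) (dgm m2) = dgm (w4 m1 m2) := by
    simp only [w4, map_sub, map_add, map_mul, map_one, map_zsmul]
  have c3 : w6 (dgm m3) (dgm m2) = dgm (w6 m3 m2) := by
    simp only [w6, map_sub, map_add, map_mul, map_one, map_zsmul]
  have c4 : Lm (dgm m1) (dgm m2) (dgm m3) = dgm (lmat m1 m2 m3 f1 f2 f3) := by
    simp only [Lm, lmat, ax, ay, az, map_sub, map_add, map_mul, map_one, map_zsmul, map_neg]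
  unfold Good0
  rw [c1, c2, c3, c4, b1, b2, b3, b4, ← map_mul, ← map_mul, ← map_mul, ← map_pow, ← map_pow, ← map_pow,
    a1, a2, a3]
  simp only [map_zsmul, map_one]
  exact ⟨by simp, by simp, by simp, det_z (by norm_num), det_z (by norm_num), det_z (by norm_num),
    det_z (by norm_num)⟩

theorem cancel_det {Y Z : M6} (h : Y * Z = 0) (hZ : Z.det ≠ 0) : Y = 0 := by
  have := congrArg (· * Z⁻¹) h
  simpa [Matrix.mul_nonsing_inv_cancel_right _ _ (Ne.isUnit hZ)] using this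

theorem pow_scalar {r s : M6} (hr : r * r = 1) (hs : s * s = 1) {n : ℕ} {μ : ℝ}
    (h : (r * s) ^ n = μ • (1 : M6)) (ht : 0 < ((r * s) ^ n).trace) : (r * s) ^ n = 1 := by
  have h1 : ∀ k : ℕ, r * (r * s) ^ k = (s * r) ^ k * r := by
    intro k
    induction k with
    | zero => simp
    | succ k ih =>
      rw [pow_succ, ← mul_assoc, ih, pow_succ, mul_assoc, mul_assoc, ← mul_assoc r r, hr, one_mul,
        mul_assoc s, hr, mul_one]
  have h2 : ∀ k : ℕ, (s * r) ^ k * (r * s) ^ k = 1 := by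
    intro k
    induction k with
    | zero => simp
    | succ k ih =>
      rw [pow_succ, pow_succ', mul_assoc, ← mul_assoc (s * r), inv_pair hr hs, one_mul, ih]
  have h3 : (s * r) ^ n = μ • (1 : M6) := by
    have := congrArg (· * r) (h1 n)
    simp only [h, mul_assoc, hr, mul_one, mul_smul_comm, smul_mul_assoc] at this
    exact this.symm
  have h4 := h2 n
  rw [h3, h, smul_mul_assoc, one_mul, smul_smul] at h4
  have h5 : μ * μ = 1 := by simpa using congrFun (congrFun h4 0) 0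
  rw [h] at ht ⊢
  have h6 : 0 < μ := by simpa using ht
  have : μ = 1 := by nlinarith
  rw [this, one_smul]

theorem scalar_of {S : GL (Fin 6) ℝ} (h : (ProjGenLinGroup.mk S : PGL(6, ℝ)) = 1) :
    ∃ μ : ℝ, (S : M6) = μ • (1 : M6) := by
  rw [ProjGenLinGroup.mk_eq_one, GeneralLinearGroup.center_eq_range_scalar] at h
  obtain ⟨u, hu⟩ := h
  exact ⟨u, by rw [← hu]; simp [GeneralLinearGroup.coe_scalar, smul_one_eq_diagonal]⟩

/-- normalisation of a projective involution -/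
noncomputable def nm (S : M6) : M6 := (√((S * S).trace / 6))⁻¹ • S

theorem nm_sq {S : M6} {μ : ℝ} (h : S * S = μ • (1 : M6)) (ht : 0 < (S * S).trace) :
    nm S * nm S = 1 := by
  have h1 : (S * S).trace / 6 = μ := by rw [h]; simp
  have h2 : 0 < μ := by rw [← h1]; positivity
  rw [nm, h1, smul_mul_smul_comm, h, smul_smul, ← mul_inv, Real.mul_self_sqrt h2.le,
    inv_mul_cancel₀ h2.ne', one_smul]

def Good (S1 S2 S3 : M6) : Prop :=
  0 < (S1 * S1).trace ∧ 0 < (S2 * S2).trace ∧ 0 < (S3 * S3).trace ∧ Good0 (nm S1) (nm S2) (nm S3)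

theorem isOpen_good :
    IsOpen {p : GL (Fin 6) ℝ × GL (Fin 6) ℝ × GL (Fin 6) ℝ | Good p.1 p.2.1 p.2.2} := by
  have hA : IsOpen {S : M6 | 0 < (S * S).trace} :=
    isOpen_lt continuous_const (Continuous.matrix_trace (by fun_prop))
  have hn : ContinuousOn nm {S : M6 | 0 < (S * S).trace} := by
    refine ContinuousOn.smul (f := fun S : M6 => (√((S * S).trace / 6))⁻¹) (g := fun S : M6 => S)
      (ContinuousOn.inv₀ ?_ fun S hS => ?_) continuousOn_id
    · exact ((Continuous.matrix_trace (show Continuous fun S : M6 => S * S by fun_prop)).div_const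
        6).sqrt.continuousOn
    · have : 0 < (S * S).trace := hS
      positivity
  have h1 : ContinuousOn (Prod.map nm (Prod.map nm nm)) ({S : M6 | 0 < (S * S).trace} ×ˢ
      {S : M6 | 0 < (S * S).trace} ×ˢ {S : M6 | 0 < (S * S).trace}) :=
    hn.prodMap (hn.prodMap hn)
  have h2 := h1.isOpen_inter_preimage (hA.prod (hA.prod hA)) isOpen_good0
  have h3 : Continuous fun p : GL (Fin 6) ℝ × GL (Fin 6) ℝ × GL (Fin 6) ℝ =>
      ((p.1, p.2.1, p.2.2) : M6 × M6 × M6) :=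
    (Units.continuous_val.comp continuous_fst).prodMk
      ((Units.continuous_val.comp (continuous_fst.comp continuous_snd)).prodMk
        (Units.continuous_val.comp (continuous_snd.comp continuous_snd)))
  convert h2.preimage h3 using 1
  ext p
  exact ⟨fun h => ⟨⟨h.1, h.2.1, h.2.2.1⟩, h.2.2.2⟩, fun h => ⟨h.1.1, h.1.2.1, h.1.2.2, h.2⟩⟩

theorem good_one {S : M6} (h : S * S = 1) : 0 < (S * S).trace ∧ nm S = S := by
  rw [nm, h]
  simp

theorem rigid {ψ : GG →* PGL(6, ℝ)} {S1 S2 S3 : GL (Fin 6) ℝ} (h1 : ψ s1 = ProjGenLinGroup.mk S1)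
    (h2 : ψ s2 = ProjGenLinGroup.mk S2) (h3 : ψ s3 = ProjGenLinGroup.mk S3) (h : Good S1 S2 S3) :
    ∃ L, Act L ψ fun g v => g • v := by
  obtain ⟨t1, t2, t3, g1, g2, g3, g4, g5, g6, g7⟩ := h
  have sq : ∀ {s : GG} {S : GL (Fin 6) ℝ}, ψ s = ProjGenLinGroup.mk S → s * s = 1 →
      0 < ((S : M6) * S).trace → nm S * nm S = 1 := by
    intro s S hS hs ht
    obtain ⟨μ, hμ⟩ := scalar_of (S := S * S) (by rw [map_mul, ← hS, ← map_mul, hs, map_one])
    exact nm_sq hμ ht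
  have rel : ∀ {s t : GG} {S T : GL (Fin 6) ℝ} {n : ℕ}, ψ s = ProjGenLinGroup.mk S →
      ψ t = ProjGenLinGroup.mk T → (s * t) ^ n = 1 → ∃ μ : ℝ, (nm S * nm T) ^ n = μ • (1 : M6) := by
    intro s t S T n hS hT hn
    obtain ⟨μ, hμ⟩ := scalar_of (S := (S * T) ^ n)
      (by rw [map_pow, map_mul, ← hS, ← hT, ← map_mul, ← map_pow, hn, map_one])
    rw [Units.val_pow_eq_pow_val, Units.val_mul] at hμ
    exact ⟨_, by rw [nm, nm, smul_mul_smul_comm, _root_.smul_pow, hμ, smul_smul]⟩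
  have q1 := sq h1 s1_sq t1
  have q2 := sq h2 s2_sq t2
  have q3 := sq h3 s3_sq t3
  obtain ⟨_, p13⟩ := rel h1 h3 rel13
  obtain ⟨_, p12⟩ := rel h1 h2 rel12
  obtain ⟨_, p32⟩ := rel h3 h2 rel32
  obtain ⟨z1, z2⟩ := w2_mul q1 q3 (pow_scalar q1 q3 p13 g1)
  have z3 := cancel_det z2 g4
  obtain ⟨i1, i2, i3⟩ := intertwine q1 q2 q3 z3 (z1.trans z3)
    (cancel_det (w4_mul q1 q2 (pow_scalar q1 q2 p12 g2)) g5)
    (cancel_det (w6_mul q3 q2 (pow_scalar q3 q2 p32 g3)) g6)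
    (e1 := dgm f1) (e2 := dgm f2) (e3 := dgm f3)
  have mulr : ∀ (m a b c : M3), f1 * m = a → f2 * m = b → f3 * m = c →
      Lm (nm S1) (nm S2) (nm S3) * dgm m = lmat (nm S1) (nm S2) (nm S3) (dgm a) (dgm b) (dgm c) := by
    rintro m _ _ _ rfl rfl rfl
    simp only [Lm, lmat, add_mul, mul_assoc, map_mul]
  have j1 : nm S1 * Lm (nm S1) (nm S2) (nm S3) = Lm (nm S1) (nm S2) (nm S3) * dgm m1 := by
    rw [mulr m1 f1 (-f2) f3, map_neg]
    · exact i1
    all_goals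
      ext i j
      fin_cases i <;> fin_cases j <;> simp [f1, f2, f3, m1, Matrix.mul_apply, Fin.sum_univ_three]
  have j2 : nm S2 * Lm (nm S1) (nm S2) (nm S3) = Lm (nm S1) (nm S2) (nm S3) * dgm m2 := by
    rw [mulr m2 f2 f1 f3]
    · exact i2
    all_goals
      ext i j
      fin_cases i <;> fin_cases j <;> simp [f1, f2, f3, m2, Matrix.mul_apply, Fin.sum_univ_three]
  have j3 : nm S3 * Lm (nm S1) (nm S2) (nm S3) = Lm (nm S1) (nm S2) (nm S3) * dgm m3 := by
    rw [mulr m3 ((-2 : ℤ) • f1 + (3 : ℤ) • f3) f2 (-f1 + (2 : ℤ) • f3)]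
    · simp only [map_add, map_zsmul, map_neg]
      exact i3
    all_goals
      ext i j
      fin_cases i <;> fin_cases j <;> simp [f1, f2, f3, m3, Matrix.mul_apply, Fin.sum_univ_three]
  generalize Lm (nm S1) (nm S2) (nm S3) = M at g7 j1 j2 j3
  let L : W ≃ₗ[ℝ] V6 := L0.trans (Matrix.toLinearEquiv' M (invertibleOfIsUnitDet M (Ne.isUnit g7)))
  have hL : ∀ y, L y = M *ᵥ L0 y := fun y => rfl
  have step : ∀ {s : GG} {S : GL (Fin 6) ℝ}, ψ s = ProjGenLinGroup.mk S → 0 < ((S : M6) * S).trace →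
      nm S * M = M * dgm (mt s) → ∀ y : W, y ≠ 0 → ψ s • pr (L y) = pr (L (s • y)) := by
    intro s S hS ht hj y hy
    have c : (√(((S : M6) * S).trace / 6))⁻¹ ≠ 0 := by positivity
    rw [hS, mk_smul_pr _ (L_ne L hy), ← pr_smul (mulVec_ne_zero S (L_ne L hy)) c, ← smul_mulVec, hL, hL,
      mulVec_mulVec]
    show pr ((nm S * M) *ᵥ L0 y) = _
    rw [hj, ← mulVec_mulVec]
    show pr (M *ᵥ blk (mt s) (mt s) *ᵥ L0 y) = _
    rw [blk_mulVec]
    rfl
  refine ⟨L, fun g => ?_⟩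
  show ∀ y : W, y ≠ 0 → ψ g • pr (L y) = pr (L (g • y))
  induction g using g_ind with
  | h0 => intro y _; simp
  | h1 g ih => intro y hy; rw [map_mul, mul_smul, ih y hy, step h1 t1 j1 _ (gW_ne g hy), mul_smul]
  | h2 g ih => intro y hy; rw [map_mul, mul_smul, ih y hy, step h2 t2 j2 _ (gW_ne g hy), mul_smul]
  | h3 g ih => intro y hy; rw [map_mul, mul_smul, ih y hy, step h3 t3 j3 _ (gW_ne g hy), mul_smul]

theorem main : ∃ Γ : Subgroup PGL(6, ℝ), CC Γ ∧
    (∃ f : FreeGroup (Fin 2) →* Γ, Function.Injective f) ∧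
    ∃ (ρ : Γ →* PGL(6, ℝ)) (U : Set (Γ → PGL(6, ℝ))), IsOpen U ∧ ⇑ρ ∈ U ∧
      (∀ ρ' : Γ →* PGL(6, ℝ), ⇑ρ' ∈ U → Function.Injective ρ' ∧ NaiveCC ρ'.range) ∧
      ¬ CC ρ.range := by
  let e := MonoidHom.ofInjective act1.injective
  have hrange : ∀ ρ' : iota1.range →* PGL(6, ℝ), (ρ'.comp e.toMonoidHom).range = ρ'.range := by
    intro ρ'
    ext x
    constructor
    · rintro ⟨d, rfl⟩
      exact ⟨e d, rfl⟩
    · rintro ⟨d, rfl⟩
      exact ⟨e.symm d, by simp⟩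
  obtain ⟨f, hf⟩ := free_two
  refine ⟨_, act1.cc, ⟨e.toMonoidHom.comp f, e.injective.comp hf⟩, iota2.comp e.symm.toMonoidHom,
    (fun f => (f (e s1), f (e s2), f (e s3))) ⁻¹'
      (Prod.map ProjGenLinGroup.mk (Prod.map ProjGenLinGroup.mk ProjGenLinGroup.mk) ''
        {p : GL (Fin 6) ℝ × GL (Fin 6) ℝ × GL (Fin 6) ℝ | Good p.1 p.2.1 p.2.2}), ?_, ?_, ?_, ?_⟩
  · exact ((isOpenMap_mk.prodMap (isOpenMap_mk.prodMap isOpenMap_mk)) _ isOpen_good).preimage
      ((continuous_apply _).prodMk ((continuous_apply _).prodMk (continuous_apply _)))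
  · refine ⟨(lift6 dgm.toMonoidHom s1, lift6 dgm.toMonoidHom s2, lift6 dgm.toMonoidHom s3), ?_, ?_⟩
    · have k1 := good_one (S := dgm m1) (by rw [← map_mul, m1_sq, map_one])
      have k2 := good_one (S := dgm m2) (by rw [← map_mul, m2_sq, map_one])
      have k3 := good_one (S := dgm m3) (by rw [← map_mul, m3_sq, map_one])
      show Good (dgm m1) (dgm m2) (dgm m3)
      exact ⟨k1.1, k2.1, k3.1, by rw [k1.2, k2.2, k3.2]; exact good_base⟩
    · simp [iota2]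
  · rintro ρ' ⟨⟨S1, S2, S3⟩, hS, h⟩
    obtain ⟨L, hstd⟩ := rigid (ψ := ρ'.comp e.toMonoidHom) (congrArg Prod.fst h).symm
      (congrArg (fun p => p.2.1) h).symm (congrArg (fun p => p.2.2) h).symm hS
    refine ⟨?_, hrange ρ' ▸ hstd.naive⟩
    exact Function.Injective.of_comp_right (g := e) hstd.injective e.surjective
  · rw [← hrange]
    have : (iota2.comp e.symm.toMonoidHom).comp e.toMonoidHom = iota2 := by
      ext d
      simp
    rw [this]
    exact act2.not_cc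

end Pool.Agent.P.MP_7d68c1_gt.Six
end
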